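import Pool.Agent.H.MP_027d00_lc.adv.Defs

/-!
# Top coefficients on subcubes
-/

set_option autoImplicit false

namespace Pool.Agent.H.MP_027d00_lc.AdvC

/-! ### The identity `c * c = c` in the incidence algebra of the Boolean lattice -/

section lattice

variable {ι : Type} [DecidableEq ι]

/-- The coefficient of the interval `[A, B]`. -/
def cI (h : Finset ι → ℤ) (A B : Finset ι) : ℤ :=
  ∑ S ∈ Finset.Icc A B, (-1) ^ (S.card - A.card) * h S

private theorem Coef_alt {S S' : Finset ι} (h : S ⊆ S') :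
    ∑ T ∈ Finset.Icc S S', (-1 : ℤ) ^ (S'.card - T.card) = if S = S' then 1 else 0 := by
  have h1 : ∑ T ∈ Finset.Icc S S', (-1 : ℤ) ^ (S'.card - T.card) =
      ∑ R ∈ (S' \ S).powerset, (-1 : ℤ) ^ R.card := by
    refine Finset.sum_nbij' (fun T => S' \ T) (fun R => S' \ R) ?_ ?_ ?_ ?_ ?_
    · intro T hT
      rw [Finset.mem_Icc] at hT
      exact Finset.mem_powerset.2 (Finset.sdiff_subset_sdiff (Finset.Subset.refl _) hT.1)
    · intro R hR
      rw [Finset.mem_powerset] at hR
      rw [Finset.mem_Icc]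
      refine ⟨fun i hi => Finset.mem_sdiff.2 ⟨h hi, fun hiR => ?_⟩, Finset.sdiff_subset⟩
      exact (Finset.mem_sdiff.1 (hR hiR)).2 hi
    · intro T hT
      rw [Finset.mem_Icc] at hT
      exact Finset.sdiff_sdiff_eq_self hT.2
    · intro R hR
      rw [Finset.mem_powerset] at hR
      exact Finset.sdiff_sdiff_eq_self (hR.trans Finset.sdiff_subset)
    · intro T hT
      rw [Finset.mem_Icc] at hT
      rw [Finset.card_sdiff_of_subset hT.2]
  rw [h1, Finset.sum_powerset_neg_one_pow_card]
  refine if_congr ?_ rfl rfl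
  rw [Finset.sdiff_eq_empty_iff_subset]
  exact ⟨fun h2 => Finset.Subset.antisymm h h2, fun h2 => h2 ▸ Finset.Subset.refl _⟩

private theorem Coef_self (h : Finset ι → ℤ) (A : Finset ι) : cI h A A = h A := by
  rw [cI, Finset.Icc_self, Finset.sum_singleton, Nat.sub_self, pow_zero, one_mul]

/-- Proof: expand; the sum over `T` between `S` and `S'` of `(-1) ^ (|S'| - |T|)` vanishes unless
`S = S'`, and `h S * h S = h S`. -/
theorem cI_mul (h : Finset ι → ℤ) (hh : ∀ S, h S * h S = h S) {A B : Finset ι} (hAB : A ⊆ B) :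
    ∑ T ∈ Finset.Icc A B, cI h A T * cI h T B = cI h A B := by
  have h1 : ∀ T, cI h A T * cI h T B = ∑ S ∈ Finset.Icc A T, ∑ S' ∈ Finset.Icc T B,
      (-1) ^ (S.card - A.card) * h S * ((-1) ^ (S'.card - T.card) * h S') := by
    intro T
    rw [cI, cI, Finset.sum_mul_sum]
  calc ∑ T ∈ Finset.Icc A B, cI h A T * cI h T B
      = ∑ T ∈ Finset.Icc A B, ∑ S ∈ Finset.Icc A T, ∑ S' ∈ Finset.Icc T B,
        (-1) ^ (S.card - A.card) * h S * ((-1) ^ (S'.card - T.card) * h S') :=
        Finset.sum_congr rfl fun T _ => h1 T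
    _ = ∑ S ∈ Finset.Icc A B, ∑ T ∈ Finset.Icc S B, ∑ S' ∈ Finset.Icc T B,
        (-1) ^ (S.card - A.card) * h S * ((-1) ^ (S'.card - T.card) * h S') := by
        refine Finset.sum_comm' fun T S => ?_
        simp only [Finset.mem_Icc]
        exact ⟨fun ⟨⟨_, h2⟩, h3, h4⟩ => ⟨⟨h4, h2⟩, h3, h4.trans h2⟩,
          fun ⟨⟨h1, h2⟩, h3, _⟩ => ⟨⟨h3.trans h1, h2⟩, h3, h1⟩⟩
    _ = ∑ S ∈ Finset.Icc A B, ∑ S' ∈ Finset.Icc S B, ∑ T ∈ Finset.Icc S S',
        (-1) ^ (S.card - A.card) * h S * ((-1) ^ (S'.card - T.card) * h S') := by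
        refine Finset.sum_congr rfl fun S _ => ?_
        refine Finset.sum_comm' fun T S' => ?_
        simp only [Finset.mem_Icc]
        exact ⟨fun ⟨⟨h1, _⟩, h3, h4⟩ => ⟨⟨h1, h3⟩, h1.trans h3, h4⟩,
          fun ⟨⟨h1, h2⟩, _, h4⟩ => ⟨⟨h1, h2.trans h4⟩, h2, h4⟩⟩
    _ = ∑ S ∈ Finset.Icc A B, (-1) ^ (S.card - A.card) * h S := by
        refine Finset.sum_congr rfl fun S hS => ?_
        rw [Finset.mem_Icc] at hS
        rw [Finset.sum_eq_single S]
        · rw [Finset.Icc_self, Finset.sum_singleton, Nat.sub_self, pow_zero, one_mul, mul_assoc, hh]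
        · intro S' hS' hne
          rw [Finset.mem_Icc] at hS'
          have h2 : ∑ T ∈ Finset.Icc S S',
              (-1) ^ (S.card - A.card) * h S * ((-1) ^ (S'.card - T.card) * h S') =
              (-1) ^ (S.card - A.card) * h S * h S' *
                ∑ T ∈ Finset.Icc S S', (-1 : ℤ) ^ (S'.card - T.card) := by
            rw [Finset.mul_sum]
            exact Finset.sum_congr rfl fun T _ => by ring
          rw [h2, Coef_alt hS'.1, if_neg (Ne.symm hne), mul_zero]
        · intro h2
          exact absurd (Finset.mem_Icc.2 ⟨Finset.Subset.refl _, hS.2⟩) h2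
    _ = cI h A B := rfl

theorem cI_split (h : Finset ι → ℤ) (hh : ∀ S, h S * h S = h S) {A B : Finset ι} (hAB : A ⊂ B)
    (he : h A = h B) (hc : cI h A B ≠ 0) :
    ∃ T, A ⊂ T ∧ T ⊂ B ∧ cI h A T ≠ 0 ∧ cI h T B ≠ 0 := by
  by_contra hno
  push Not at hno
  have h1 := cI_mul h hh hAB.subset
  rw [Finset.sum_eq_add_of_mem A B (Finset.mem_Icc.2 ⟨Finset.Subset.refl _, hAB.subset⟩)
    (Finset.mem_Icc.2 ⟨hAB.subset, Finset.Subset.refl _⟩) hAB.ne (fun T hT hT' => by
      rw [Finset.mem_Icc] at hT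
      by_cases h2 : cI h A T = 0
      · rw [h2, zero_mul]
      · rw [hno T (lt_of_le_of_ne hT.1 (Ne.symm hT'.1)) (lt_of_le_of_ne hT.2 hT'.2) h2,
          mul_zero]), Coef_self, Coef_self, ← he] at h1
  have h2 : cI h A B * (2 * h A - 1) = 0 := by linarith
  have h3 := (mul_eq_zero.1 h2).resolve_left hc
  omega

end lattice

/-! ### Configurations -/

variable {ι α : Type} [Fintype ι] [DecidableEq ι] [DecidableEq α]

theorem mem_dif {U V : ι → α} {j : ι} : j ∈ dif U V ↔ U j ≠ V j := by simp [dif]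

theorem mix_empty (U V : ι → α) : mix U V ∅ = U := by
  funext j; simp [mix]

theorem mix_dif (U V : ι → α) : mix U V (dif U V) = V := by
  funext j
  by_cases h : U j = V j <;> simp [mix, dif, h]

theorem dif_left_mix {U V : ι → α} {T : Finset ι} (hT : T ⊆ dif U V) : dif U (mix U V T) = T := by
  ext j
  rw [mem_dif, mix]
  by_cases hj : j ∈ T
  · rw [if_pos hj]
    exact ⟨fun _ => hj, fun _ => mem_dif.1 (hT hj)⟩
  · rw [if_neg hj]
    exact ⟨fun h => absurd rfl h, fun h => absurd h hj⟩

private theorem Coef_mix_mix {U V : ι → α} {S T : Finset ι} (h : S ⊆ T) :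
    mix U (mix U V T) S = mix U V S := by
  funext j
  unfold mix
  by_cases hj : j ∈ S
  · rw [if_pos hj, if_pos hj, if_pos (h hj)]
  · rw [if_neg hj, if_neg hj]

private theorem Coef_mix_union {U V : ι → α} {T R : Finset ι} :
    mix (mix U V T) V R = mix U V (T ∪ R) := by
  funext j
  unfold mix
  by_cases hj : j ∈ R
  · rw [if_pos hj, if_pos (Finset.mem_union_right _ hj)]
  · rw [if_neg hj]
    by_cases hj' : j ∈ T
    · rw [if_pos hj', if_pos (Finset.mem_union_left _ hj')]
    · rw [if_neg hj', if_neg (by rw [Finset.mem_union]; tauto)]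

theorem dif_mix_right {U V : ι → α} {T : Finset ι} (hT : T ⊆ dif U V) :
    dif (mix U V T) V = dif U V \ T := by
  ext j
  rw [mem_dif, Finset.mem_sdiff, mem_dif, mix]
  by_cases hj : j ∈ T
  · rw [if_pos hj]
    exact ⟨fun h => absurd rfl h, fun h => absurd hj h.2⟩
  · rw [if_neg hj]
    exact ⟨fun h => ⟨h, hj⟩, fun h => h.1⟩

theorem dif_update_right {U V : ι → α} {j : ι} :
    dif U (Function.update V j (U j)) = (dif U V).erase j := by
  ext i
  rw [mem_dif, Finset.mem_erase, mem_dif]
  by_cases hi : i = j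
  · subst hi
    rw [Function.update_self]
    exact ⟨fun h => absurd rfl h, fun h => absurd rfl h.1⟩
  · rw [Function.update_of_ne hi]
    exact ⟨fun h => ⟨hi, h⟩, fun h => h.2⟩

theorem dif_update_left {U V : ι → α} {j : ι} :
    dif (Function.update U j (V j)) V = (dif U V).erase j := by
  ext i
  rw [mem_dif, Finset.mem_erase, mem_dif]
  by_cases hi : i = j
  · subst hi
    rw [Function.update_self]
    exact ⟨fun h => absurd rfl h, fun h => absurd rfl h.1⟩
  · rw [Function.update_of_ne hi]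
    exact ⟨fun h => ⟨hi, h⟩, fun h => h.2⟩

/-- Facets. Proof: split the subsets of `dif U V` into those without and those with `j`. -/
theorem cf_facet (ψ : (ι → α) → Bool) {U V : ι → α} {j : ι} (hj : j ∈ dif U V) :
    cf ψ U V = cf ψ U (Function.update V j (U j)) - cf ψ (Function.update U j (V j)) V := by
  have hjD : j ∉ (dif U V).erase j := Finset.notMem_erase j _
  have h0 : cf ψ U V = ∑ T ∈ (insert j ((dif U V).erase j)).powerset,
      (-1) ^ T.card * (if ψ (mix U V T) then 1 else 0) := by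
    rw [Finset.insert_erase hj]
    rfl
  rw [h0, Finset.sum_powerset_insert hjD, sub_eq_add_neg]
  congr 1
  · rw [cf, dif_update_right, cfD]
    refine Finset.sum_congr rfl fun T hT => ?_
    have hjT : j ∉ T := fun h => hjD (Finset.mem_powerset.1 hT h)
    have h1 : mix U (Function.update V j (U j)) T = mix U V T := by
      funext i
      unfold mix
      by_cases hi : i ∈ T
      · rw [if_pos hi, if_pos hi, Function.update_of_ne (fun h : i = j => hjT (h ▸ hi))]
      · rw [if_neg hi, if_neg hi]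
    rw [h1]
  · rw [cf, dif_update_left, cfD, ← Finset.sum_neg_distrib]
    refine Finset.sum_congr rfl fun T hT => ?_
    have hjT : j ∉ T := fun h => hjD (Finset.mem_powerset.1 hT h)
    have h1 : mix (Function.update U j (V j)) V T = mix U V (insert j T) := by
      funext i
      unfold mix
      by_cases hi : i ∈ T
      · rw [if_pos hi, if_pos (Finset.mem_insert_of_mem hi)]
      · rw [if_neg hi]
        by_cases hij : i = j
        · subst hij
          rw [Function.update_self, if_pos (Finset.mem_insert_self _ _)]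
        · rw [Function.update_of_ne hij, if_neg (by rw [Finset.mem_insert]; tauto)]
    rw [h1, Finset.card_insert_of_notMem hjT, pow_succ]
    ring

/-- Apply `cI_split` to `h S = [ψ (mix U V S)]`, `A = ∅`, `B = dif U V`. -/
theorem cf_split (ψ : (ι → α) → Bool) {U V : ι → α} (hc : cf ψ U V ≠ 0) (he : ψ U = ψ V)
    (hn : (dif U V).Nonempty) :
    ∃ T, T ⊂ dif U V ∧ T.Nonempty ∧ cf ψ U (mix U V T) ≠ 0 ∧ cf ψ (mix U V T) V ≠ 0 := by
  let h : Finset ι → ℤ := fun S => if ψ (mix U V S) then 1 else 0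
  have hh : ∀ S, h S * h S = h S := by
    intro S
    show (if ψ (mix U V S) then (1 : ℤ) else 0) * (if ψ (mix U V S) then (1 : ℤ) else 0) =
      (if ψ (mix U V S) then (1 : ℤ) else 0)
    split_ifs <;> rfl
  have hleft : ∀ T : Finset ι, T ⊆ dif U V → cf ψ U (mix U V T) = cI h ∅ T := by
    intro T hT
    rw [cf, dif_left_mix hT, cfD, cI, ← Finset.Iic_eq_powerset, ← Finset.bot_eq_empty,
      Finset.Icc_bot]
    refine Finset.sum_congr rfl fun S hS => ?_
    have hST : S ⊆ T := Finset.mem_Iic.1 hS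
    rw [Coef_mix_mix hST, Finset.bot_eq_empty, Finset.card_empty, Nat.sub_zero]
  have hright : ∀ T : Finset ι, T ⊆ dif U V → cf ψ (mix U V T) V = cI h T (dif U V) := by
    intro T hT
    rw [cf, dif_mix_right hT, cfD, cI]
    refine Finset.sum_nbij' (fun R => T ∪ R) (fun S => S \ T) ?_ ?_ ?_ ?_ ?_
    · intro R hR
      rw [Finset.mem_powerset] at hR
      rw [Finset.mem_Icc]
      exact ⟨Finset.subset_union_left, Finset.union_subset hT (hR.trans Finset.sdiff_subset)⟩
    · intro S hS
      rw [Finset.mem_Icc] at hS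
      exact Finset.mem_powerset.2 (Finset.sdiff_subset_sdiff hS.2 (Finset.Subset.refl _))
    · intro R hR
      rw [Finset.mem_powerset] at hR
      have hd : Disjoint T R := (Finset.disjoint_sdiff).mono_right hR
      show (T ∪ R) \ T = R
      rw [Finset.union_sdiff_cancel_left hd]
    · intro S hS
      rw [Finset.mem_Icc] at hS
      exact Finset.union_sdiff_of_subset hS.1
    · intro R hR
      rw [Finset.mem_powerset] at hR
      have hd : Disjoint T R := (Finset.disjoint_sdiff).mono_right hR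
      rw [Coef_mix_union, Finset.card_union_of_disjoint hd, Nat.add_sub_cancel_left]
  have hfull : cf ψ U V = cI h ∅ (dif U V) := by
    have h1 := hleft (dif U V) (Finset.Subset.refl _)
    rwa [mix_dif] at h1
  have he' : h ∅ = h (dif U V) := by
    show (if ψ (mix U V ∅) then (1 : ℤ) else 0) = if ψ (mix U V (dif U V)) then 1 else 0
    rw [mix_empty, mix_dif, he]
  obtain ⟨T, hT1, hT2, hT3, hT4⟩ := cI_split h hh (A := ∅) (B := dif U V)
    (Finset.empty_ssubset.2 hn) he' (hfull ▸ hc)
  exact ⟨T, hT2, Finset.empty_ssubset.1 hT1, by rw [hleft T hT2.subset]; exact hT3,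
    by rw [hright T hT2.subset]; exact hT4⟩

/-- `cfD` only depends on the cube. -/
theorem cfD_eq_cf (ψ : (ι → α) → Bool) {U V : ι → α} {D : Finset ι} (hD : D ⊆ dif U V) :
    cfD ψ U V D = cf ψ U (mix U V D) := by
  rw [cf, dif_left_mix hD, cfD, cfD]
  refine Finset.sum_congr rfl fun T hT => ?_
  rw [Coef_mix_mix (Finset.mem_powerset.1 hT)]

end Pool.Agent.H.MP_027d00_lc.AdvC
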