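import Pool.Agent.H.MP_027d00_lc.adv.Lower

/-!
# The expected number of cubes with nonzero top coefficient
-/

set_option autoImplicit false

namespace Pool.Agent.H.MP_027d00_lc.AdvC

variable {ι κ : Type} [Fintype ι] [DecidableEq ι] [Fintype κ] [DecidableEq κ]

/-- The weight of the random pair `(U, V)`. -/
noncomputable def prb (Γ : ι → (κ → Bool) → (κ → Bool) → ℝ) (e : ι → (κ → Bool) → ℝ) (lam : ℝ)
    (U V : ι → κ → Bool) : ℝ :=
  ∏ j, (Γ j (U j) (V j) * e j (U j) * e j (V j) / lam)

/-- The data of the random projection. -/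
structure IsAdv (Γ : ι → (κ → Bool) → (κ → Bool) → ℝ) (e : ι → (κ → Bool) → ℝ) (lam : ℝ) :
    Prop where
  lam_pos : 0 < lam
  gam_nonneg : ∀ j x y, 0 ≤ Γ j x y
  gam_symm : ∀ j x y, Γ j x y = Γ j y x
  gam_self : ∀ j x, Γ j x x = 0
  e_nonneg : ∀ j x, 0 ≤ e j x
  e_norm : ∀ j, ∑ x, e j x ^ 2 = 1
  eig : ∀ j x, ∑ y, Γ j x y * e j y = lam * e j x
  norm_le : ∀ (j : ι) (i : κ) (f : (κ → Bool) → ℝ),
    ∑ x, (∑ y, (if x i ≠ y i then Γ j x y else 0) * f y) ^ 2 ≤ ∑ x, f x ^ 2

section

variable {α : Type} [Fintype α] [DecidableEq α]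

theorem count_sum_pi_prod (p : ι → α → ℝ) : ∑ U : ι → α, ∏ j, p j (U j) = ∏ j, ∑ x, p j x := by
  rw [Finset.prod_univ_sum]
  simp

/-- Averaging over one coordinate. -/
theorem count_sum_update (F : (ι → α) → ℝ) (l : ι) :
    ∑ V : ι → α, ∑ y : α, F (Function.update V l y) = (Fintype.card α : ℝ) * ∑ V, F V := by
  have h1 : ∑ V : ι → α, ∑ y : α, F (Function.update V l y) =
      ∑ p : (ι → α) × α, F (Function.update p.1 l p.2) := by
    rw [Fintype.sum_prod_type]
  have h2 : ∑ V : ι → α, ∑ _y : α, F V = ∑ p : (ι → α) × α, F p.1 := by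
    rw [Fintype.sum_prod_type]
  let E : (ι → α) × α ≃ (ι → α) × α :=
    { toFun := fun p => (Function.update p.1 l p.2, p.1 l)
      invFun := fun p => (Function.update p.1 l p.2, p.1 l)
      left_inv := by
        rintro ⟨V, y⟩
        simp
      right_inv := by
        rintro ⟨V, y⟩
        simp }
  rw [h1]
  have h3 : ∑ p : (ι → α) × α, F (Function.update p.1 l p.2) = ∑ p : (ι → α) × α, F p.1 :=
    Fintype.sum_equiv E _ _ (fun p => rfl)
  rw [h3, ← h2]
  simp [Finset.sum_const, Finset.mul_sum]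

/-- The summand of a weight `p` times a function that does not depend on the coordinate `l` only
depends on the total mass of `p l`. -/
theorem count_marg_step [Nonempty α] (p p' : ι → α → ℝ) (l : ι) (hl : ∀ j, j ≠ l → p j = p' j)
    (hs : ∑ y, p l y = ∑ y, p' l y) (t : (ι → α) → ℝ)
    (ht : ∀ V y, t (Function.update V l y) = t V) :
    ∑ V, (∏ j, p j (V j)) * t V = ∑ V, (∏ j, p' j (V j)) * t V := by
  have hc : (0 : ℝ) < Fintype.card α := by exact_mod_cast Fintype.card_pos
  have key : ∀ q : ι → α → ℝ, ∑ V : ι → α, ∑ y : α,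
      (∏ j, q j (Function.update V l y j)) * t (Function.update V l y) =
      ∑ V : ι → α, (∑ y, q l y) * ((∏ j ∈ Finset.univ.erase l, q j (V j)) * t V) := by
    intro q
    refine Finset.sum_congr rfl fun V _ => ?_
    rw [Finset.sum_mul]
    refine Finset.sum_congr rfl fun y _ => ?_
    rw [ht, ← Finset.mul_prod_erase Finset.univ _ (Finset.mem_univ l), Function.update_self,
      mul_assoc]
    congr 2
    refine Finset.prod_congr rfl fun j hj => ?_
    rw [Function.update_of_ne (Finset.ne_of_mem_erase hj)]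
  have h1 := count_sum_update (fun V => (∏ j, p j (V j)) * t V) l
  have h2 := count_sum_update (fun V => (∏ j, p' j (V j)) * t V) l
  rw [key] at h1 h2
  have h3 : ∑ V : ι → α, (∑ y, p l y) * ((∏ j ∈ Finset.univ.erase l, p j (V j)) * t V) =
      ∑ V : ι → α, (∑ y, p' l y) * ((∏ j ∈ Finset.univ.erase l, p' j (V j)) * t V) := by
    refine Finset.sum_congr rfl fun V _ => ?_
    rw [hs]
    congr 2
    refine Finset.prod_congr rfl fun j hj => ?_
    rw [hl j (Finset.ne_of_mem_erase hj)]
  rw [h1, h2] at h3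
  exact mul_left_cancel₀ hc.ne' h3

theorem count_marg [Nonempty α] (φ : ι → α → ℝ) (U : ι → α) (D : Finset ι) (t : (ι → α) → ℝ) :
    ∑ V, (∏ j, φ j (V j)) * t (mix U V D) =
      ∑ V, (∏ j, (if j ∈ D then φ j (V j) else (if V j = U j then ∑ y, φ j y else 0))) *
        t (mix U V D) := by
  have key : ∀ E : Finset ι, Disjoint E D →
      ∑ V, (∏ j, φ j (V j)) * t (mix U V D) =
      ∑ V : ι → α, (∏ j, (if j ∈ E then (if V j = U j then ∑ y, φ j y else 0) else φ j (V j))) *
        t (mix U V D) := by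
    intro E
    induction E using Finset.induction_on with
    | empty => intro _; simp
    | insert l E hlE ih =>
      intro hd
      rw [Finset.disjoint_insert_left] at hd
      rw [ih hd.2]
      refine count_marg_step
        (fun j y => if j ∈ E then (if y = U j then ∑ y, φ j y else 0) else φ j y)
        (fun j y => if j ∈ insert l E then (if y = U j then ∑ y, φ j y else 0) else φ j y) l
        ?_ ?_ (fun V => t (mix U V D)) ?_
      · intro j hj
        funext y
        simp [Finset.mem_insert, hj]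
      · simp [hlE]
      · intro V y
        have : mix U (Function.update V l y) D = mix U V D := by
          funext j
          by_cases hj : j ∈ D
          · have : j ≠ l := fun h => hd.1 (h ▸ hj)
            simp [mix, hj, this]
          · simp [mix, hj]
        simp only [this]
  rw [key Dᶜ disjoint_compl_left]
  refine Finset.sum_congr rfl fun V _ => ?_
  congr 1
  refine Finset.prod_congr rfl fun j _ => ?_
  by_cases hj : j ∈ D <;> simp [hj]

end

theorem prb_nonneg {Γ : ι → (κ → Bool) → (κ → Bool) → ℝ} {e : ι → (κ → Bool) → ℝ} {lam : ℝ}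
    (h : IsAdv Γ e lam) (U V : ι → κ → Bool) : 0 ≤ prb Γ e lam U V := by
  refine Finset.prod_nonneg fun j _ => ?_
  exact div_nonneg (mul_nonneg (mul_nonneg (h.gam_nonneg j _ _) (h.e_nonneg j _)) (h.e_nonneg j _))
    h.lam_pos.le

theorem count_fiber {Γ : ι → (κ → Bool) → (κ → Bool) → ℝ} {e : ι → (κ → Bool) → ℝ} {lam : ℝ}
    (h : IsAdv Γ e lam) (j : ι) (x : κ → Bool) :
    ∑ y, Γ j x y * e j x * e j y / lam = e j x ^ 2 := by
  have h1 : ∀ y, Γ j x y * e j x * e j y / lam = e j x / lam * (Γ j x y * e j y) := fun y => by ring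
  rw [Finset.sum_congr rfl fun y _ => h1 y, ← Finset.mul_sum, h.eig]
  have := h.lam_pos.ne'
  field_simp

theorem sum_prb {Γ : ι → (κ → Bool) → (κ → Bool) → ℝ} {e : ι → (κ → Bool) → ℝ} {lam : ℝ}
    (h : IsAdv Γ e lam) : ∑ U, ∑ V, prb Γ e lam U V = 1 := by
  have h1 : ∀ U : ι → κ → Bool, ∑ V, prb Γ e lam U V = ∏ j, e j (U j) ^ 2 := by
    intro U
    unfold prb
    rw [count_sum_pi_prod (fun j y => Γ j (U j) y * e j (U j) * e j y / lam)]
    exact Finset.prod_congr rfl fun j _ => count_fiber h j (U j)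
  rw [Finset.sum_congr rfl fun U _ => h1 U, count_sum_pi_prod (fun j x => e j x ^ 2)]
  rw [Finset.prod_congr rfl fun j _ => h.e_norm j]
  simp

theorem count_mix_mix {α : Type} [DecidableEq α] (U V : ι → α) {T D : Finset ι} (hT : T ⊆ D) :
    mix U (mix U V D) T = mix U V T := by
  funext j
  by_cases hj : j ∈ T
  · simp [mix, hj, hT hj]
  · simp [mix, hj]

theorem count_cfD_mix {α : Type} [DecidableEq α] (ψ : (ι → α) → Bool) (U V : ι → α)
    (D : Finset ι) : cfD ψ U (mix U V D) D = cfD ψ U V D := by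
  unfold cfD
  refine Finset.sum_congr rfl fun T hT => ?_
  rw [count_mix_mix U V (Finset.mem_powerset.1 hT)]

/-- The term for one set `D`. -/
theorem count_term {ψ : (ι → κ → Bool) → Bool} {w : (ι → κ → Bool) → ι × κ → ℝ}
    {Γ : ι → (κ → Bool) → (κ → Bool) → ℝ} {e : ι → (κ → Bool) → ℝ} {lam : ℝ}
    (h : IsAdv Γ e lam) (hw : ∀ U v, 0 ≤ w U v) (hW : IsWt ψ w) (D : Finset ι)
    (U : ι → κ → Bool) :
    ∑ V, prb Γ e lam U V * (if cfD ψ U V D ≠ 0 then 1 else 0) ≤
      ∑ V, if dif U V = D then
        (∏ j, e j (U j)) * (ker w (gam Γ) D.card U V * (∏ j, e j (V j))) / lam ^ D.card else 0 := by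
  have h0 : ∀ V, prb Γ e lam U V * (if cfD ψ U V D ≠ 0 then (1 : ℝ) else 0) =
      (∏ j, (Γ j (U j) (V j) * e j (U j) * e j (V j) / lam)) *
        (fun W => if cfD ψ U W D ≠ 0 then (1 : ℝ) else 0) (mix U V D) := by
    intro V
    simp only [prb, count_cfD_mix]
  rw [Finset.sum_congr rfl fun V _ => h0 V]
  rw [count_marg (fun j y => Γ j (U j) y * e j (U j) * e j y / lam) U D
    (fun W => if cfD ψ U W D ≠ 0 then (1 : ℝ) else 0)]
  refine Finset.sum_le_sum fun V _ => ?_
  simp only [count_cfD_mix]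
  have hlam := h.lam_pos
  have hnn : 0 ≤ (∏ j, e j (U j)) * (ker w (gam Γ) D.card U V * (∏ j, e j (V j))) /
      lam ^ D.card := by
    refine div_nonneg (mul_nonneg (Finset.prod_nonneg fun j _ => h.e_nonneg j _) (mul_nonneg
      (ker_nonneg ?_ _ _ _) (Finset.prod_nonneg fun j _ => h.e_nonneg j _))) (pow_nonneg hlam.le _)
    intro v x y
    unfold gam
    split_ifs
    · exact h.gam_nonneg _ _ _
    · exact le_rfl
  by_cases hD : dif U V = D
  · rw [if_pos hD]
    by_cases hc : cfD ψ U V D = 0
    · simpa [hc] using hnn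
    · rw [if_pos hc, mul_one]
      have hc' : cf ψ U V ≠ 0 := by
        unfold cf
        rw [hD]
        exact hc
      have h1 := ker_lower h.gam_nonneg hw hW U V hc'
      rw [hD] at h1
      have h2 : (∏ j, (if j ∈ D then Γ j (U j) (V j) * e j (U j) * e j (V j) / lam else
          (if V j = U j then ∑ y, Γ j (U j) y * e j (U j) * e j y / lam else 0))) =
          (∏ j, e j (U j)) * ((∏ j ∈ D, Γ j (U j) (V j)) * (∏ j, e j (V j))) / lam ^ D.card := by
        have h3 : ∀ j, (if j ∈ D then Γ j (U j) (V j) * e j (U j) * e j (V j) / lam else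
            (if V j = U j then ∑ y, Γ j (U j) y * e j (U j) * e j y / lam else 0)) =
            e j (U j) * ((if j ∈ D then Γ j (U j) (V j) else 1) * e j (V j)) *
              (if j ∈ D then lam⁻¹ else 1) := by
          intro j
          by_cases hj : j ∈ D
          · simp only [hj, if_true]
            rw [div_eq_mul_inv]
            ring
          · have hUV : V j = U j := by
              by_contra hne
              exact hj (hD ▸ mem_dif.2 (Ne.symm hne))
            simp only [hj, if_false, hUV, if_true, count_fiber h]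
            ring
        rw [Finset.prod_congr rfl fun j _ => h3 j, Finset.prod_mul_distrib,
          Finset.prod_mul_distrib, Finset.prod_mul_distrib]
        have h4 : ∏ j, (if j ∈ D then Γ j (U j) (V j) else 1) = ∏ j ∈ D, Γ j (U j) (V j) := by
          rw [Finset.prod_ite_mem]
          simp
        have h5 : ∏ j, (if j ∈ D then lam⁻¹ else 1) = (lam ^ D.card)⁻¹ := by
          rw [Finset.prod_ite_mem]
          simp
        rw [h4, h5, div_eq_mul_inv]
      rw [h2]
      refine div_le_div_of_nonneg_right ?_ (pow_nonneg hlam.le _)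
      refine mul_le_mul_of_nonneg_left ?_ (Finset.prod_nonneg fun j _ => h.e_nonneg j _)
      exact mul_le_mul_of_nonneg_right h1 (Finset.prod_nonneg fun j _ => h.e_nonneg j _)
  · rw [if_neg hD]
    have hz : (∏ j, (if j ∈ D then Γ j (U j) (V j) * e j (U j) * e j (V j) / lam else
        (if V j = U j then ∑ y, Γ j (U j) y * e j (U j) * e j y / lam else 0))) = 0 := by
      have : ∃ j, ¬ (j ∈ dif U V ↔ j ∈ D) := by
        by_contra hcon
        push Not at hcon
        exact hD (Finset.ext hcon)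
      obtain ⟨j, hj⟩ := this
      refine Finset.prod_eq_zero (Finset.mem_univ j) ?_
      by_cases hjD : j ∈ D
      · have hUV : U j = V j := by
          by_contra hne
          exact hj ⟨fun _ => hjD, fun _ => mem_dif.2 hne⟩
        simp [hjD, hUV, h.gam_self]
      · have hUV : V j ≠ U j := by
          intro heq
          exact hj ⟨fun hm => absurd heq.symm (mem_dif.1 hm), fun hm => absurd hm hjD⟩
        simp [hjD, hUV]
    rw [hz, zero_mul]

/-- For each `D`, sum over `V` outside `D` first (`eig`); the rest is a sum over the pairs `(U, W)`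
with `dif U W = D`, weighted by `F U * F W * ∏_(j ∈ D) Γ_j / lam ^ |D|`, `F U = ∏ e_j (U_j)`; apply
`ker_lower` and `bd_ker'`. -/
theorem count_le {ψ : (ι → κ → Bool) → Bool} {w : (ι → κ → Bool) → ι × κ → ℝ}
    {Γ : ι → (κ → Bool) → (κ → Bool) → ℝ} {e : ι → (κ → Bool) → ℝ} {lam A : ℝ}
    (h : IsAdv Γ e lam) (hw : ∀ U v, 0 ≤ w U v) (hW : IsWt ψ w) (hA0 : 0 ≤ A)
    (hA : ∀ U, ∑ v, w U v ≤ A) (b : ℕ) :
    ∑ U, ∑ V, prb Γ e lam U V *
        ((Finset.univ.filter (fun D : Finset ι => D.card = b ∧ cfD ψ U V D ≠ 0)).card : ℝ) ≤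
      (16 * A / lam) ^ b := by
  have hlam := h.lam_pos
  have h1 : ∀ U V : ι → κ → Bool, prb Γ e lam U V *
      ((Finset.univ.filter (fun D : Finset ι => D.card = b ∧ cfD ψ U V D ≠ 0)).card : ℝ) =
      ∑ D ∈ Finset.univ.filter (fun D : Finset ι => D.card = b),
        prb Γ e lam U V * (if cfD ψ U V D ≠ 0 then 1 else 0) := by
    intro U V
    rw [← Finset.mul_sum, ← Finset.filter_filter, Finset.card_filter]
    push_cast
    rfl
  have h2 : ∑ U, ∑ V, prb Γ e lam U V *
      ((Finset.univ.filter (fun D : Finset ι => D.card = b ∧ cfD ψ U V D ≠ 0)).card : ℝ) =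
      ∑ U, ∑ D ∈ Finset.univ.filter (fun D : Finset ι => D.card = b),
        ∑ V, prb Γ e lam U V * (if cfD ψ U V D ≠ 0 then 1 else 0) := by
    refine Finset.sum_congr rfl fun U _ => ?_
    rw [Finset.sum_congr rfl fun V _ => h1 U V, Finset.sum_comm]
  rw [h2]
  have hgn : ∀ v x y, 0 ≤ gam Γ v x y := by
    intro v x y
    unfold gam
    split_ifs
    · exact h.gam_nonneg _ _ _
    · exact le_rfl
  have hke : ∀ U V, 0 ≤ (∏ j, e j (U j)) * (ker w (gam Γ) b U V * (∏ j, e j (V j))) / lam ^ b := by
    intro U V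
    exact div_nonneg (mul_nonneg (Finset.prod_nonneg fun j _ => h.e_nonneg j _) (mul_nonneg
      (ker_nonneg hgn _ _ _) (Finset.prod_nonneg fun j _ => h.e_nonneg j _))) (pow_nonneg hlam.le _)
  calc ∑ U, ∑ D ∈ Finset.univ.filter (fun D : Finset ι => D.card = b),
        ∑ V, prb Γ e lam U V * (if cfD ψ U V D ≠ 0 then 1 else 0)
      ≤ ∑ U, ∑ D ∈ Finset.univ.filter (fun D : Finset ι => D.card = b),
        ∑ V, if dif U V = D then
          (∏ j, e j (U j)) * (ker w (gam Γ) b U V * (∏ j, e j (V j))) / lam ^ b else 0 := by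
        refine Finset.sum_le_sum fun U _ => Finset.sum_le_sum fun D hD => ?_
        have hDb : D.card = b := (Finset.mem_filter.1 hD).2
        have := count_term h hw hW D U
        rw [hDb] at this
        exact this
    _ = ∑ U, ∑ V, ∑ D ∈ Finset.univ.filter (fun D : Finset ι => D.card = b),
          if dif U V = D then
          (∏ j, e j (U j)) * (ker w (gam Γ) b U V * (∏ j, e j (V j))) / lam ^ b else 0 := by
        refine Finset.sum_congr rfl fun U _ => ?_
        rw [Finset.sum_comm]
    _ ≤ ∑ U, ∑ V, (∏ j, e j (U j)) * (ker w (gam Γ) b U V * (∏ j, e j (V j))) / lam ^ b := by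
        refine Finset.sum_le_sum fun U _ => Finset.sum_le_sum fun V _ => ?_
        rw [Finset.sum_ite_eq]
        split_ifs
        · exact le_rfl
        · exact hke U V
    _ = (∑ U, (∏ j, e j (U j)) * ∑ V, ker w (gam Γ) b U V * (∏ j, e j (V j))) / lam ^ b := by
        rw [Finset.sum_div]
        refine Finset.sum_congr rfl fun U _ => ?_
        rw [Finset.mul_sum, Finset.sum_div]
    _ ≤ (16 * A) ^ b / lam ^ b := by
        refine div_le_div_of_nonneg_right ?_ (pow_nonneg hlam.le _)
        have hb := bd_ker' (w := w) (G := gam Γ) hw hA0 hA (fun v f => h.norm_le v.1 v.2 f) b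
          (fun U => ∏ j, e j (U j)) (fun U => ∏ j, e j (U j))
        have hn : nrm (fun U : ι → κ → Bool => ∏ j, e j (U j)) = 1 := by
          unfold nrm
          have : ∑ U : ι → κ → Bool, (∏ j, e j (U j)) ^ 2 = 1 := by
            rw [Finset.sum_congr rfl fun U _ => (Finset.prod_pow Finset.univ 2
              (fun j => e j (U j))).symm, count_sum_pi_prod (fun j x => e j x ^ 2),
              Finset.prod_congr rfl fun j _ => h.e_norm j]
            simp
          rw [this, Real.sqrt_one]
        rw [hn, mul_one, mul_one] at hb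
        exact hb
    _ = (16 * A / lam) ^ b := by rw [div_pow]

end Pool.Agent.H.MP_027d00_lc.AdvC
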