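import Pool.Agent.H.MP_027d00_lc.adv.Defs

/-!
# Cutting a formula into small pieces
-/

set_option autoImplicit false

namespace Pool.Agent.H.MP_027d00_lc.AdvC

open UComp

/-- `C` is a formula with a hole, of size `k`. -/
private def IsCtx {V : Type} (k : ℕ) (C : Fm V → Fm V) : Prop :=
  (∀ G, (C G).size = k + G.size) ∧
    ∀ G x, (C G).eval x = ((C (.const false)).eval x || (G.eval x && (C (.const true)).eval x))

private theorem isCtx_id {V : Type} : IsCtx 0 (fun G : Fm V => G) := by
  refine ⟨fun G => (zero_add _).symm, fun G x => ?_⟩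
  simp [Fm.eval]

private theorem isCtx_step {V : Type} {k : ℕ} {C : Fm V → Fm V} (h : IsCtx k C) (r : Fm V)
    (D : Fm V → Fm V) (hs : ∀ G, (D G).size = r.size + G.size)
    (he : (∀ G x, (D G).eval x = (G.eval x && r.eval x)) ∨
      ∀ G x, (D G).eval x = (G.eval x || r.eval x)) :
    IsCtx (k + r.size) (fun G => C (D G)) := by
  refine ⟨fun G => by show (C (D G)).size = _; rw [h.1, hs, add_assoc], fun G x => ?_⟩
  show (C (D G)).eval x = ((C (D (.const false))).eval x || (G.eval x && (C (D (.const true))).eval x))
  rw [h.2 (D G) x, h.2 (D (.const false)) x, h.2 (D (.const true)) x]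
  rcases he with he | he
  · rw [he, he, he]
    simp only [Fm.eval]
    cases (C (.const false)).eval x <;> cases (C (.const true)).eval x <;> cases G.eval x <;>
      cases r.eval x <;> rfl
  · rw [he, he, he]
    simp only [Fm.eval]
    cases (C (.const false)).eval x <;> cases (C (.const true)).eval x <;> cases G.eval x <;>
      cases r.eval x <;> rfl

section

variable {V : Type} (Φ : ((V → Bool) → Bool) → ℝ)
  (hand : ∀ f g, Φ (fun x => f x && g x) ≤ Φ f + Φ g)
  (hor : ∀ f g, Φ (fun x => f x || g x) ≤ Φ f + Φ g) (q : ℕ) (v0 : ℝ)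
  (hv : ∀ F : Fm V, F.size ≤ q → Φ (fun x => F.eval x) ≤ v0)

include hand hor hv

private theorem Ctx_plug {k : ℕ} {C : Fm V → Fm V} (h : IsCtx k C) (hk : k ≤ q) (G : Fm V) :
    Φ (fun x => (C G).eval x) ≤ 2 * v0 + Φ (fun x => G.eval x) := by
  have h1 : (fun x => (C G).eval x) =
      fun x => ((C (.const false)).eval x || (G.eval x && (C (.const true)).eval x)) :=
    funext fun x => h.2 G x
  have h2 := hor (fun x => (C (.const false)).eval x)
    (fun x => (G.eval x && (C (.const true)).eval x))
  have h3 := hand (fun x => G.eval x) (fun x => (C (.const true)).eval x)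
  have h4 := hv (C (.const false)) (by rw [h.1]; simpa [Fm.size] using hk)
  have h5 := hv (C (.const true)) (by rw [h.1]; simpa [Fm.size] using hk)
  rw [h1]
  linarith

private theorem Ctx_walk (hq : 1 ≤ q) : ∀ (F : Fm V) (k : ℕ) (C : Fm V → Fm V), IsCtx k C → k ≤ q →
    q < k + F.size →
    Φ (fun x => (C F).eval x) ≤ 3 * v0 ∨ ∃ (l r : Fm V) (k' : ℕ), r.size ≤ l.size ∧
      k' + l.size + r.size = k + F.size ∧ q < k' + r.size ∧
      Φ (fun x => (C F).eval x) ≤ 2 * v0 + Φ (fun x => l.eval x) + Φ (fun x => r.eval x) := by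
  -- one gate
  have gate : ∀ (F l r : Fm V), (∀ (k : ℕ) (C : Fm V → Fm V), IsCtx k C → k ≤ q → q < k + l.size →
      Φ (fun x => (C l).eval x) ≤ 3 * v0 ∨ ∃ (l' r' : Fm V) (k' : ℕ), r'.size ≤ l'.size ∧
        k' + l'.size + r'.size = k + l.size ∧ q < k' + r'.size ∧
        Φ (fun x => (C l).eval x) ≤ 2 * v0 + Φ (fun x => l'.eval x) + Φ (fun x => r'.eval x)) →
      r.size ≤ l.size → ∀ (D : Fm V → Fm V), D l = F → (∀ G, (D G).size = r.size + G.size) →
      ((∀ G x, (D G).eval x = (G.eval x && r.eval x)) ∨
        ∀ G x, (D G).eval x = (G.eval x || r.eval x)) →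
      ∀ (k : ℕ) (C : Fm V → Fm V), IsCtx k C → k ≤ q → q < k + F.size →
      Φ (fun x => (C F).eval x) ≤ 3 * v0 ∨ ∃ (l' r' : Fm V) (k' : ℕ), r'.size ≤ l'.size ∧
        k' + l'.size + r'.size = k + F.size ∧ q < k' + r'.size ∧
        Φ (fun x => (C F).eval x) ≤ 2 * v0 + Φ (fun x => l'.eval x) + Φ (fun x => r'.eval x) := by
    intro F l r ih hlr D hDF hs he k C hC hk hkF
    have hFs : F.size = r.size + l.size := by rw [← hDF, hs]
    by_cases h1 : q < k + r.size
    · right
      refine ⟨l, r, k, hlr, by omega, h1, ?_⟩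
      have h2 := Ctx_plug Φ hand hor q v0 hv hC hk F
      have h3 : Φ (fun x => F.eval x) ≤ Φ (fun x => l.eval x) + Φ (fun x => r.eval x) := by
        rw [← hDF]
        rcases he with he | he
        · have h4 := hand (fun x => l.eval x) (fun x => r.eval x)
          have h5 : (fun x => (D l).eval x) = fun x => (l.eval x && r.eval x) :=
            funext fun x => he l x
          rw [h5]
          exact h4
        · have h4 := hor (fun x => l.eval x) (fun x => r.eval x)
          have h5 : (fun x => (D l).eval x) = fun x => (l.eval x || r.eval x) :=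
            funext fun x => he l x
          rw [h5]
          exact h4
      linarith
    · have h2 := ih (k + r.size) (fun G => C (D G)) (isCtx_step hC r D hs he) (by omega) (by omega)
      rw [hDF] at h2
      rcases h2 with h2 | ⟨l', r', k', a1, a2, a3, a4⟩
      · exact Or.inl h2
      · exact Or.inr ⟨l', r', k', a1, by omega, a3, a4⟩
  intro F
  induction F with
  | const b =>
    intro k C hC hk hkF
    exfalso
    simp only [Fm.size] at hkF
    omega
  | lit v b =>
    intro k C hC hk hkF
    left
    have h1 := Ctx_plug Φ hand hor q v0 hv hC hk (.lit v b)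
    have h2 := hv (.lit v b) (by simpa [Fm.size] using hq)
    linarith
  | and F G ihF ihG =>
    rcases le_total G.size F.size with h | h
    · exact gate (.and F G) F G ihF h (fun H => .and H G) rfl
        (fun H => by simp only [Fm.size]; omega) (Or.inl fun H x => rfl)
    · exact gate (.and F G) G F ihG h (fun H => .and F H) rfl
        (fun H => by simp only [Fm.size]) (Or.inl fun H x => Bool.and_comm _ _)
  | or F G ihF ihG =>
    rcases le_total G.size F.size with h | h
    · exact gate (.or F G) F G ihF h (fun H => .or H G) rfl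
        (fun H => by simp only [Fm.size]; omega) (Or.inr fun H x => rfl)
    · exact gate (.or F G) G F ihG h (fun H => .or F H) rfl
        (fun H => by simp only [Fm.size]) (Or.inr fun H x => Bool.or_comm _ _)

end

/-- For a subadditive functional `Φ` which is at most `v0` on the formulas of size at most `q`. -/
theorem cut {V : Type} (Φ : ((V → Bool) → Bool) → ℝ) (h0 : ∀ f, 0 ≤ Φ f)
    (hand : ∀ f g, Φ (fun x => f x && g x) ≤ Φ f + Φ g)
    (hor : ∀ f g, Φ (fun x => f x || g x) ≤ Φ f + Φ g) (q : ℕ) (hq : 1 ≤ q) (v0 : ℝ)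
    (hv : ∀ F : Fm V, F.size ≤ q → Φ (fun x => F.eval x) ≤ v0) (F : Fm V) :
    Φ (fun x => F.eval x) ≤ v0 * max 1 (6 * F.size / q - 2) := by
  have hv0 : 0 ≤ v0 := (h0 _).trans (hv (.const true) (by simp [Fm.size]))
  have hq0 : 0 < q := hq
  -- comparison of multiples of `v0`
  have hmul : ∀ {a b : ℕ}, a ≤ b → (a : ℝ) * v0 ≤ v0 * (b : ℝ) := fun {a b} h => by
    rw [mul_comm]
    exact mul_le_mul_of_nonneg_left (by exact_mod_cast h) hv0
  obtain ⟨s, hs⟩ : ∃ s, s = F.size := ⟨_, rfl⟩
  induction s using Nat.strong_induction_on generalizing F with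
  | _ s ih =>
    by_cases hsq : s ≤ q
    · have h1 := hv F (by omega)
      have h2 : 1 ≤ max 1 (6 * F.size / q - 2) := le_max_left _ _
      have h3 := hmul h2
      rw [Nat.cast_one, one_mul] at h3
      exact h1.trans h3
    · have h4 : 6 ≤ 6 * F.size / q := by
        rw [Nat.le_div_iff_mul_le hq0]
        have : q ≤ F.size := by omega
        exact Nat.mul_le_mul_left 6 this
      have hw := Ctx_walk Φ hand hor q v0 hv hq F 0 (fun G => G) isCtx_id (Nat.zero_le _)
        (by omega)
      rcases hw with hw | ⟨l, r, k, a1, a2, a3, a4⟩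
      · refine hw.trans (hmul (a := 3) ?_)
        omega
      · have hl := ih l.size (by omega) l rfl
        have hr := ih r.size (by omega) r rfl
        have f1 : 6 * l.size / q + 6 * r.size / q ≤ 6 * F.size / q := by
          refine Nat.div_add_div_le_add_div.trans (Nat.div_le_div_right ?_)
          omega
        have f2 : 6 * l.size / q + 6 ≤ 6 * F.size / q := by
          rw [← Nat.add_mul_div_right _ _ hq0]
          exact Nat.div_le_div_right (by omega)
        have f3 : 6 * r.size / q ≤ 6 * l.size / q := Nat.div_le_div_right (by omega)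
        have hmain : 2 + max 1 (6 * l.size / q - 2) + max 1 (6 * r.size / q - 2) ≤
            max 1 (6 * F.size / q - 2) := by
          generalize 6 * l.size / q = L at *
          generalize 6 * r.size / q = R at *
          generalize 6 * F.size / q = T at *
          omega
        have h7 := hmul hmain
        rw [Nat.cast_add, Nat.cast_add, Nat.cast_ofNat] at h7
        refine le_trans ?_ h7
        linarith

end Pool.Agent.H.MP_027d00_lc.AdvC
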