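import Pool.Agent.H.MP_027d00_lc.ucomp.Defs

/-!
# Composition with inner functions that have a large quantum adversary bound: definitions
-/

set_option autoImplicit false

namespace Pool.Agent.H.MP_027d00_lc.AdvC

open UComp

/-- `HasAdv g lam`: the (nonnegative, weighted, spectral) quantum adversary bound of `g` is at least
`lam`. There is a symmetric nonnegative matrix `Γ` indexed by the inputs, with `Γ x y = 0` if
`g x = g y`, which has the eigenvalue `lam` with a nonnegative eigenvector `e ≠ 0` and is such that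
for each coordinate `i` the matrix `Γ x y [x i ≠ y i]` has operator norm at most one. (The largest
eigenvalue of a nonnegative symmetric matrix has such an eigenvector, so the largest `lam` is the
maximum of `‖Γ‖ / max_i ‖Γ_i‖`, the spectral adversary bound.) -/
def HasAdv {n : ℕ} (g : (Fin n → Bool) → Bool) (lam : ℝ) : Prop :=
  ∃ (Γ : (Fin n → Bool) → (Fin n → Bool) → ℝ) (e : (Fin n → Bool) → ℝ),
    (∀ x y, 0 ≤ Γ x y) ∧ (∀ x y, Γ x y = Γ y x) ∧ (∀ x y, g x = g y → Γ x y = 0) ∧
    (∀ x, 0 ≤ e x) ∧ (∃ x, e x ≠ 0) ∧ (∀ x, ∑ y, Γ x y * e y = lam * e x) ∧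
    ∀ (i : Fin n) (v : (Fin n → Bool) → ℝ),
      ∑ x, (∑ y, (if x i ≠ y i then Γ x y else 0) * v y) ^ 2 ≤ ∑ x, v x ^ 2

/-- The composed function `f (g₁ (X₁), ..., g_m (X_m))` of the `m * n` variables `X (j, i)`. -/
def comp {m n : ℕ} (f : (Fin m → Bool) → Bool) (g : Fin m → (Fin n → Bool) → Bool) :
    (Fin m × Fin n → Bool) → Bool :=
  fun X => f (fun j => g j (fun i => X (j, i)))

/-! ### Configurations -/

section

variable {ι α : Type} [Fintype ι] [DecidableEq ι] [DecidableEq α]

/-- `V` on the set `T`, `U` elsewhere. -/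
def mix (U V : ι → α) (T : Finset ι) : ι → α := fun j => if j ∈ T then V j else U j

/-- The set of the blocks in which `U` and `V` differ. -/
def dif (U V : ι → α) : Finset ι := Finset.univ.filter (fun j => U j ≠ V j)

/-- The alternating sum of `ψ` over the cube spanned by `U` in the directions `D` towards `V`. -/
def cfD (ψ : (ι → α) → Bool) (U V : ι → α) (D : Finset ι) : ℤ :=
  ∑ T ∈ D.powerset, (-1) ^ T.card * (if ψ (mix U V T) then 1 else 0)

/-- The top coefficient of `ψ` on the cube spanned by `U` and `V`. -/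
def cf (ψ : (ι → α) → Bool) (U V : ι → α) : ℤ := cfD ψ U V (dif U V)

end

/-! ### Kernels -/

section

variable {ι α κ : Type} [Fintype ι] [DecidableEq ι] [Fintype α] [DecidableEq α] [Fintype κ]

/-- The Euclidean norm. -/
noncomputable def nrm {Ω : Type} [Fintype Ω] (f : Ω → ℝ) : ℝ := Real.sqrt (∑ U, f U ^ 2)

/-- The kernel `K` has operator norm at most `M`. -/
def Bd {Ω : Type} [Fintype Ω] (K : Ω → Ω → ℝ) (M : ℝ) : Prop :=
  ∀ f g : Ω → ℝ, ∑ U, f U * (∑ V, K U V * g V) ≤ M * nrm f * nrm g

/-- Product of kernels. -/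
noncomputable def kmul {Ω : Type} [Fintype Ω] (K L : Ω → Ω → ℝ) : Ω → Ω → ℝ :=
  fun U V => ∑ W, K U W * L W V

/-- The kernel `G`, acting on the block `j`. -/
noncomputable def blk (G : α → α → ℝ) (j : ι) : (ι → α) → (ι → α) → ℝ :=
  fun U V => if ∀ l, l ≠ j → U l = V l then G (U j) (V j) else 0

/-- The kernels `K_b`. Here `w U v ≥ 0` are the weights and `G v` is a matrix for the block
`v.1`. -/
noncomputable def ker (w : (ι → α) → ι × κ → ℝ) (G : ι × κ → α → α → ℝ) :
    ℕ → (ι → α) → (ι → α) → ℝ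
  | 0 => fun U V => if U = V then 1 else 0
  | b + 1 => fun U V =>
      ∑ v : ι × κ, Real.sqrt (w U v) *
        (kmul (blk (G v) v.1) (ker w G b) U V + kmul (ker w G b) (blk (G v) v.1) U V) *
          Real.sqrt (w V v) +
      ∑ a : Fin b, kmul (ker w G (a.val + 1)) (ker w G (b - a.val)) U V
termination_by b => b
decreasing_by all_goals omega

end

end Pool.Agent.H.MP_027d00_lc.AdvC
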