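import Pool.Agent.H.MP_027d00_lc.adv.Defs

/-!
# Basic facts on the formula size
-/

set_option autoImplicit false

namespace Pool.Agent.H.MP_027d00_lc.AdvC

open UComp

section

variable {V : Type}

theorem fsize_le (F : Fm V) (h : (V → Bool) → Bool) (hF : ∀ x, F.eval x = h x) :
    fsize h ≤ F.size := Nat.sInf_le ⟨F, rfl, hF⟩

private theorem Fsize_ex [DecidableEq V] (S : Finset V) : ∀ h : (V → Bool) → Bool,
    (∀ x y, (∀ v ∈ S, x v = y v) → h x = h y) → ∃ F : Fm V, ∀ x, F.eval x = h x := by
  induction S using Finset.induction_on with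
  | empty =>
    intro h hh
    exact ⟨.const (h fun _ => false), fun x => hh _ _ (by simp)⟩
  | insert v S hv ih =>
    intro h hh
    have h1 : ∀ b, ∃ F : Fm V, ∀ x, F.eval x = h (Function.update x v b) := by
      intro b
      refine ih _ fun x y hxy => hh _ _ fun w hw => ?_
      by_cases hwv : w = v
      · subst hwv
        simp
      · rw [Function.update_of_ne hwv, Function.update_of_ne hwv]
        exact hxy w (Finset.mem_of_mem_insert_of_ne hw hwv)
    obtain ⟨F, hF⟩ := h1 true
    obtain ⟨G, hG⟩ := h1 false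
    refine ⟨.or (.and (.lit v true) F) (.and (.lit v false) G), fun x => ?_⟩
    show ((x v == true) && F.eval x || (x v == false) && G.eval x) = h x
    rw [hF, hG]
    have h2 : Function.update x v (x v) = x := Function.update_eq_self v x
    cases hx : x v
    · rw [hx] at h2
      simp [h2]
    · rw [hx] at h2
      simp [h2]

/-- Every Boolean function of finitely many variables has a formula of minimum size. -/
theorem exists_fm [Fintype V] [DecidableEq V] (h : (V → Bool) → Bool) :
    ∃ F : Fm V, F.size = fsize h ∧ ∀ x, F.eval x = h x := by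
  obtain ⟨F, hF⟩ := Fsize_ex Finset.univ h fun x y hxy => by
    have h1 : x = y := funext fun v => hxy v (Finset.mem_univ v)
    rw [h1]
  exact Nat.sInf_mem (s := {s : ℕ | ∃ F : Fm V, F.size = s ∧ ∀ x, F.eval x = h x})
    ⟨F.size, F, rfl, hF⟩

theorem fsize_const (c : Bool) : fsize (fun _ : V → Bool => c) = 0 :=
  Nat.le_zero.1 (fsize_le (.const c) _ fun _ => rfl)

theorem fsize_and [Fintype V] [DecidableEq V] (f g : (V → Bool) → Bool) :
    fsize (fun x => f x && g x) ≤ fsize f + fsize g := by
  obtain ⟨F, hF1, hF2⟩ := exists_fm f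
  obtain ⟨G, hG1, hG2⟩ := exists_fm g
  rw [← hF1, ← hG1]
  refine fsize_le (.and F G) _ fun x => ?_
  show (F.eval x && G.eval x) = _
  rw [hF2, hG2]

theorem fsize_or [Fintype V] [DecidableEq V] (f g : (V → Bool) → Bool) :
    fsize (fun x => f x || g x) ≤ fsize f + fsize g := by
  obtain ⟨F, hF1, hF2⟩ := exists_fm f
  obtain ⟨G, hG1, hG2⟩ := exists_fm g
  rw [← hF1, ← hG1]
  refine fsize_le (.or F G) _ fun x => ?_
  show (F.eval x || G.eval x) = _
  rw [hF2, hG2]

/-- The de Morgan dual. -/
private def Fsize_neg : Fm V → Fm V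
  | .const b => .const (!b)
  | .lit v b => .lit v (!b)
  | .and F G => .or (Fsize_neg F) (Fsize_neg G)
  | .or F G => .and (Fsize_neg F) (Fsize_neg G)

private theorem Fsize_neg_size (F : Fm V) : (Fsize_neg F).size = F.size := by
  induction F with
  | const b => rfl
  | lit v b => rfl
  | and F G h1 h2 =>
    show (Fsize_neg F).size + (Fsize_neg G).size = F.size + G.size
    rw [h1, h2]
  | or F G h1 h2 =>
    show (Fsize_neg F).size + (Fsize_neg G).size = F.size + G.size
    rw [h1, h2]

private theorem Fsize_neg_eval (F : Fm V) (x : V → Bool) :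
    (Fsize_neg F).eval x = !(F.eval x) := by
  induction F with
  | const b => rfl
  | lit v b =>
    show (x v == !b) = !(x v == b)
    cases x v <;> cases b <;> rfl
  | and F G h1 h2 =>
    show ((Fsize_neg F).eval x || (Fsize_neg G).eval x) = !(F.eval x && G.eval x)
    rw [h1, h2, Bool.not_and]
  | or F G h1 h2 =>
    show ((Fsize_neg F).eval x && (Fsize_neg G).eval x) = !(F.eval x || G.eval x)
    rw [h1, h2, Bool.not_or]

private theorem Fsize_not_le [Fintype V] [DecidableEq V] (f : (V → Bool) → Bool) :
    fsize (fun x => !f x) ≤ fsize f := by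
  obtain ⟨F, hF1, hF2⟩ := exists_fm f
  rw [← hF1, ← Fsize_neg_size F]
  refine fsize_le (Fsize_neg F) _ fun x => ?_
  rw [Fsize_neg_eval, hF2]

theorem fsize_not [Fintype V] [DecidableEq V] (f : (V → Bool) → Bool) :
    fsize (fun x => !f x) = fsize f := by
  refine le_antisymm (Fsize_not_le f) ?_
  have h1 := Fsize_not_le (fun x => !f x)
  simpa only [Bool.not_not] using h1

/-- Negated literals. -/
private def Fsize_fl (s : V → Bool) : Fm V → Fm V
  | .const b => .const b
  | .lit v b => .lit v (xor b (s v))
  | .and F G => .and (Fsize_fl s F) (Fsize_fl s G)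
  | .or F G => .or (Fsize_fl s F) (Fsize_fl s G)

private theorem Fsize_fl_size (s : V → Bool) (F : Fm V) : (Fsize_fl s F).size = F.size := by
  induction F with
  | const b => rfl
  | lit v b => rfl
  | and F G h1 h2 =>
    show (Fsize_fl s F).size + (Fsize_fl s G).size = F.size + G.size
    rw [h1, h2]
  | or F G h1 h2 =>
    show (Fsize_fl s F).size + (Fsize_fl s G).size = F.size + G.size
    rw [h1, h2]

private theorem Fsize_fl_eval (s : V → Bool) (F : Fm V) (x : V → Bool) :
    (Fsize_fl s F).eval x = F.eval (fun v => xor (x v) (s v)) := by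
  induction F with
  | const b => rfl
  | lit v b =>
    show (x v == xor b (s v)) = (xor (x v) (s v) == b)
    cases x v <;> cases b <;> cases s v <;> rfl
  | and F G h1 h2 =>
    show ((Fsize_fl s F).eval x && (Fsize_fl s G).eval x) = (F.eval _ && G.eval _)
    rw [h1, h2]
  | or F G h1 h2 =>
    show ((Fsize_fl s F).eval x || (Fsize_fl s G).eval x) = (F.eval _ || G.eval _)
    rw [h1, h2]

private theorem Fsize_flip_le [Fintype V] [DecidableEq V] (f : (V → Bool) → Bool) (s : V → Bool) :
    fsize (fun x => f (fun v => xor (x v) (s v))) ≤ fsize f := by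
  obtain ⟨F, hF1, hF2⟩ := exists_fm f
  rw [← hF1, ← Fsize_fl_size s F]
  refine fsize_le (Fsize_fl s F) _ fun x => ?_
  rw [Fsize_fl_eval, hF2]

theorem fsize_flip [Fintype V] [DecidableEq V] (f : (V → Bool) → Bool) (s : V → Bool) :
    fsize (fun x => f (fun v => xor (x v) (s v))) = fsize f := by
  refine le_antisymm (Fsize_flip_le f s) ?_
  have h1 := Fsize_flip_le (fun x => f (fun v => xor (x v) (s v))) s
  have h2 : ∀ x : V → Bool, (fun v => xor (xor (x v) (s v)) (s v)) = x := by
    intro x
    funext v
    cases x v <;> cases s v <;> rfl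
  simpa only [h2] using h1

private theorem Fsize_zero (F : Fm V) (h : F.size = 0) (x y : V → Bool) :
    F.eval x = F.eval y := by
  induction F with
  | const b => rfl
  | lit v b => exact absurd h one_ne_zero
  | and F G h1 h2 =>
    have h3 : F.size + G.size = 0 := h
    show (F.eval x && G.eval x) = (F.eval y && G.eval y)
    rw [h1 (by omega), h2 (by omega)]
  | or F G h1 h2 =>
    have h3 : F.size + G.size = 0 := h
    show (F.eval x || G.eval x) = (F.eval y || G.eval y)
    rw [h1 (by omega), h2 (by omega)]

/-- The formula size is zero only for constant functions. -/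
theorem const_of_fsize_eq_zero [Fintype V] [DecidableEq V] (f : (V → Bool) → Bool)
    (h : fsize f = 0) (x y : V → Bool) : f x = f y := by
  obtain ⟨F, hF1, hF2⟩ := exists_fm f
  rw [← hF2, ← hF2]
  exact Fsize_zero F (hF1.trans h) x y

end

/-- The substituted formula. -/
private def Fsize_sub {ι κ : Type} (U V : ι → κ → Bool) : Fm (ι × κ) → Fm ι
  | .const b => .const b
  | .lit v b => if U v.1 v.2 = V v.1 v.2 then .const (U v.1 v.2 == b)
      else .lit v.1 (V v.1 v.2 == b)
  | .and F G => .and (Fsize_sub U V F) (Fsize_sub U V G)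
  | .or F G => .or (Fsize_sub U V F) (Fsize_sub U V G)

private theorem Fsize_sub_size {ι κ : Type} (U V : ι → κ → Bool) (F : Fm (ι × κ)) :
    (Fsize_sub U V F).size ≤ F.size := by
  induction F with
  | const b => exact le_rfl
  | lit v b =>
    show (if U v.1 v.2 = V v.1 v.2 then (Fm.const (U v.1 v.2 == b) : Fm ι)
      else .lit v.1 (V v.1 v.2 == b)).size ≤ 1
    split_ifs
    · exact Nat.zero_le _
    · exact le_rfl
  | and F G h1 h2 =>
    show (Fsize_sub U V F).size + (Fsize_sub U V G).size ≤ F.size + G.size
    omega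
  | or F G h1 h2 =>
    show (Fsize_sub U V F).size + (Fsize_sub U V G).size ≤ F.size + G.size
    omega

private theorem Fsize_sub_eval {ι κ : Type} [Fintype ι] [DecidableEq ι]
    (U V : ι → κ → Bool) (F : Fm (ι × κ)) (z : ι → Bool) :
    (Fsize_sub U V F).eval z =
      F.eval (fun v => mix U V (Finset.univ.filter (fun j => z j = true)) v.1 v.2) := by
  induction F with
  | const b => rfl
  | lit v b =>
    show (if U v.1 v.2 = V v.1 v.2 then (Fm.const (U v.1 v.2 == b) : Fm ι)
      else .lit v.1 (V v.1 v.2 == b)).eval z =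
      (mix U V (Finset.univ.filter (fun j => z j = true)) v.1 v.2 == b)
    have h1 : mix U V (Finset.univ.filter (fun j => z j = true)) v.1 v.2 =
        if z v.1 = true then V v.1 v.2 else U v.1 v.2 := by
      unfold mix
      by_cases hz : z v.1 = true
      · rw [if_pos hz, if_pos (by simpa using hz)]
      · rw [if_neg hz, if_neg (by simpa using hz)]
    rw [h1]
    by_cases h : U v.1 v.2 = V v.1 v.2
    · rw [if_pos h, h, ite_self]
      rfl
    · rw [if_neg h]
      show (z v.1 == (V v.1 v.2 == b)) = _
      revert h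
      cases U v.1 v.2 <;> cases V v.1 v.2 <;> cases z v.1 <;> cases b <;> simp
  | and F G h1 h2 =>
    show ((Fsize_sub U V F).eval z && (Fsize_sub U V G).eval z) = (F.eval _ && G.eval _)
    rw [h1, h2]
  | or F G h1 h2 =>
    show ((Fsize_sub U V F).eval z || (Fsize_sub U V G).eval z) = (F.eval _ || G.eval _)
    rw [h1, h2]

/-- Substitution: `z ↦ F (mix U V {j : z_j = 1})` has formula size at most the size of `F`. -/
theorem fsize_mix_le {ι κ : Type} [Fintype ι] [DecidableEq ι] [Fintype κ] [DecidableEq κ]
    (F : Fm (ι × κ)) (U V : ι → κ → Bool) :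
    fsize (fun z : ι → Bool =>
      F.eval (fun v => mix U V (Finset.univ.filter (fun j => z j = true)) v.1 v.2)) ≤ F.size :=
  (fsize_le (Fsize_sub U V F) _ fun z => Fsize_sub_eval U V F z).trans (Fsize_sub_size U V F)

end Pool.Agent.H.MP_027d00_lc.AdvC
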