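import Pool.Agent.H.MP_027d00_lc.adv.Defs

/-!
# The numerical sequence of the norm bounds
-/

set_option autoImplicit false

namespace Pool.Agent.H.MP_027d00_lc.AdvC

/-- `s_0 = 1`, `s_(b+1) = 2 s_b + sum_(a < b) s_(a+1) s_(b-a)`. -/
def sq : ℕ → ℕ
  | 0 => 1
  | b + 1 => 2 * sq b + ∑ a : Fin b, sq (a.val + 1) * sq (b - a.val)
termination_by b => b
decreasing_by all_goals omega

private theorem seq_zero : sq 0 = 1 := by
  rw [sq]

private theorem seq_succ (b : ℕ) :
    sq (b + 1) = 2 * sq b + ∑ a : Fin b, sq (a.val + 1) * sq (b - a.val) := by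
  rw [sq]

private theorem seq_cat (n : ℕ) : catalan n ≤ catalan (n + 1) := by
  rw [catalan_succ]
  have h := Finset.single_le_sum (f := fun i : Fin n.succ => catalan i * catalan (n - i))
    (fun _ _ => Nat.zero_le _) (Finset.mem_univ (0 : Fin n.succ))
  simpa using h

private theorem seq_cat_le (n : ℕ) : catalan n ≤ 4 ^ n := by
  rw [catalan_eq_centralBinom_div]
  exact (Nat.div_le_self _ _).trans (Nat.centralBinom_le_four_pow n)

private theorem seq_main (b : ℕ) : 2 * sq (b + 1) ≤ 4 ^ (b + 1) * catalan b := by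
  induction b using Nat.strong_induction_on with
  | _ b ih =>
    rcases Nat.eq_zero_or_pos b with rfl | hb
    · rw [seq_succ, seq_zero]
      simp
    · obtain ⟨n, rfl⟩ : ∃ n, b = n + 1 := ⟨b - 1, by omega⟩
      rw [seq_succ]
      have h1 : 4 * ∑ a : Fin (n + 1), sq (a.val + 1) * sq (n + 1 - a.val) ≤
          4 ^ (n + 2) * catalan (n + 1) := by
        rw [catalan_succ, Finset.mul_sum, Finset.mul_sum]
        refine Finset.sum_le_sum fun a _ => ?_
        have ha : a.val ≤ n := Nat.lt_succ_iff.1 a.2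
        have h2 := ih a.val (by omega)
        have h3 := ih (n - a.val) (by omega)
        have e1 : n + 1 - a.val = n - a.val + 1 := by omega
        have e2 : 4 ^ (n + 2) = 4 ^ (a.val + 1) * 4 ^ (n - a.val + 1) := by
          rw [← pow_add]
          congr 1
          omega
        rw [e1, e2]
        calc 4 * (sq (a.val + 1) * sq (n - a.val + 1))
            = (2 * sq (a.val + 1)) * (2 * sq (n - a.val + 1)) := by ring
          _ ≤ (4 ^ (a.val + 1) * catalan a.val) *
              (4 ^ (n - a.val + 1) * catalan (n - a.val)) := Nat.mul_le_mul h2 h3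
          _ = 4 ^ (a.val + 1) * 4 ^ (n - a.val + 1) * (catalan a.val * catalan (n - a.val)) := by
              ring
      have h2 := ih n (by omega)
      have h3 : 4 ^ (n + 1) * catalan n ≤ 4 ^ (n + 1) * catalan (n + 1) :=
        Nat.mul_le_mul_left _ (seq_cat n)
      have e : 4 ^ (n + 2) * catalan (n + 1) = 4 * (4 ^ (n + 1) * catalan (n + 1)) := by ring
      have e' : 4 ^ (n + 1 + 1) * catalan (n + 1) = 4 * (4 ^ (n + 1) * catalan (n + 1)) := by ring
      rw [e] at h1
      rw [e']
      omega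

/-- Proof: `2 * s_b ≤ 4^b * catalan (b-1)` for `b ≥ 1`, `catalan n ≤ 4^n`. -/
theorem sq_le (b : ℕ) : sq b ≤ 16 ^ b := by
  rcases Nat.eq_zero_or_pos b with rfl | hb
  · rw [seq_zero]
    simp
  · obtain ⟨n, rfl⟩ : ∃ n, b = n + 1 := ⟨b - 1, by omega⟩
    have h1 := seq_main n
    have h2 : 4 ^ (n + 1) * catalan n ≤ 4 ^ (n + 1) * 4 ^ (n + 1) :=
      Nat.mul_le_mul_left _ ((seq_cat_le n).trans (Nat.pow_le_pow_right (by norm_num) (by omega)))
    have h3 : 4 ^ (n + 1) * 4 ^ (n + 1) = 16 ^ (n + 1) := by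
      rw [← mul_pow]
      norm_num
    rw [h3] at h2
    omega

end Pool.Agent.H.MP_027d00_lc.AdvC
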