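import Pool.Agent.H.MP_027d00_lc.adv.Norm
import Pool.Agent.H.MP_027d00_lc.adv.Seq

/-!
# The kernels `K_b`: nonnegativity and norm bound
-/

set_option autoImplicit false

namespace Pool.Agent.H.MP_027d00_lc.AdvC

variable {ι α κ : Type} [Fintype ι] [DecidableEq ι] [Fintype α] [DecidableEq α] [Fintype κ]

theorem ker_nonneg {w : (ι → α) → ι × κ → ℝ} {G : ι × κ → α → α → ℝ}
    (hG : ∀ v x y, 0 ≤ G v x y) (b : ℕ) (U V : ι → α) : 0 ≤ ker w G b U V := by
  induction b using Nat.strong_induction_on generalizing U V with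
  | _ b ih =>
    cases b with
    | zero =>
      rw [ker]
      dsimp only
      split_ifs <;> norm_num
    | succ b =>
      have hb : ∀ (v : ι × κ) (U V : ι → α), 0 ≤ blk (G v) v.1 U V := by
        intro v U V
        unfold blk
        split_ifs
        · exact hG _ _ _
        · exact le_rfl
      rw [ker]
      apply add_nonneg
      · apply Finset.sum_nonneg
        intro v _
        apply mul_nonneg (mul_nonneg (Real.sqrt_nonneg _) _) (Real.sqrt_nonneg _)
        apply add_nonneg
        · exact Finset.sum_nonneg fun W _ => mul_nonneg (hb v U W) (ih b (by omega) W V)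
        · exact Finset.sum_nonneg fun W _ => mul_nonneg (ih b (by omega) U W) (hb v W V)
      · apply Finset.sum_nonneg
        intro a _
        exact Finset.sum_nonneg fun W _ =>
          mul_nonneg (ih (a.val + 1) (by omega) U W) (ih (b - a.val) (by omega) W V)

theorem bd_ker {w : (ι → α) → ι × κ → ℝ} {G : ι × κ → α → α → ℝ} {A : ℝ}
    (hw : ∀ U v, 0 ≤ w U v) (hA0 : 0 ≤ A) (hA : ∀ U, ∑ v, w U v ≤ A)
    (hG1 : ∀ v (f : α → ℝ), ∑ x, (∑ y, G v x y * f y) ^ 2 ≤ ∑ x, f x ^ 2) (b : ℕ) :
    Bd (ker w G b) (sq b * A ^ b) := by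
  induction b using Nat.strong_induction_on with
  | _ b ih =>
    cases b with
    | zero =>
      have h : ker w G 0 = fun U V => if U = V then 1 else 0 := by
        funext U V
        rw [ker]
      have hs : sq 0 = 1 := by rw [sq]
      rw [h, hs, pow_zero, mul_one, Nat.cast_one]
      exact bd_one
    | succ b =>
      have h : ker w G (b + 1) = fun U V =>
          (∑ v : ι × κ, Real.sqrt (w U v) *
            (kmul (blk (G v) v.1) (ker w G b) U V + kmul (ker w G b) (blk (G v) v.1) U V) *
              Real.sqrt (w V v)) +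
          ∑ a : Fin b, kmul (ker w G (a.val + 1)) (ker w G (b - a.val)) U V := by
        funext U V
        rw [ker]
      have h0 : ∀ n : ℕ, (0 : ℝ) ≤ sq n * A ^ n := fun n => by positivity
      have hb := ih b (by omega)
      have h1 : ∀ v : ι × κ, Bd (fun U V => kmul (blk (G v) v.1) (ker w G b) U V +
          kmul (ker w G b) (blk (G v) v.1) U V) (2 * (sq b * A ^ b)) := by
        intro v
        have h2 := (bd_blk v.1 (hG1 v)).kmul hb zero_le_one (h0 b)
        have h3 := hb.kmul (bd_blk v.1 (hG1 v)) (h0 b) zero_le_one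
        exact (h2.add h3).mono (by linarith)
      have h4 := bd_sandwich hw hA (by have := h0 b; linarith) h1
      have h5 : Bd (fun U V => ∑ a : Fin b, kmul (ker w G (a.val + 1))
          (ker w G (b - a.val)) U V)
          (∑ a : Fin b, (sq (a.val + 1) * A ^ (a.val + 1)) *
            (sq (b - a.val) * A ^ (b - a.val))) :=
        Bd.sum fun a => (ih (a.val + 1) (by omega)).kmul (ih (b - a.val) (by omega))
          (h0 _) (h0 _)
      rw [h]
      refine (h4.add h5).mono (le_of_eq ?_)
      have h6 : ((sq (b + 1) : ℕ) : ℝ) = 2 * sq b +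
          ∑ a : Fin b, (sq (a.val + 1) : ℝ) * sq (b - a.val) := by
        rw [sq]
        push_cast
        rfl
      rw [h6, add_mul, Finset.sum_mul]
      congr 1
      · ring
      · apply Finset.sum_congr rfl
        intro a _
        have h7 : A ^ (b + 1) = A ^ (a.val + 1) * A ^ (b - a.val) := by
          rw [← pow_add]
          congr 1
          have := a.isLt
          omega
        rw [h7]
        ring

theorem bd_ker' {w : (ι → α) → ι × κ → ℝ} {G : ι × κ → α → α → ℝ} {A : ℝ}
    (hw : ∀ U v, 0 ≤ w U v) (hA0 : 0 ≤ A) (hA : ∀ U, ∑ v, w U v ≤ A)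
    (hG1 : ∀ v (f : α → ℝ), ∑ x, (∑ y, G v x y * f y) ^ 2 ≤ ∑ x, f x ^ 2) (b : ℕ) :
    Bd (ker w G b) ((16 * A) ^ b) := by
  refine (bd_ker hw hA0 hA hG1 b).mono ?_
  rw [mul_pow]
  have h : ((sq b : ℕ) : ℝ) ≤ 16 ^ b := by exact_mod_cast sq_le b
  exact mul_le_mul_of_nonneg_right h (pow_nonneg hA0 b)

end Pool.Agent.H.MP_027d00_lc.AdvC
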