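import Pool.Agent.H.MP_027d00_lc.adv.KerUp
import Pool.Agent.H.MP_027d00_lc.adv.Coef

/-!
# The lower bound for the kernels
-/

set_option autoImplicit false

namespace Pool.Agent.H.MP_027d00_lc.AdvC

variable {ι κ : Type} [Fintype ι] [DecidableEq ι] [Fintype κ] [DecidableEq κ]

/-- The matrices of the variables `v = (j, i)`: `Γ_j(x, y)` if `x_i ≠ y_i`. -/
noncomputable def gam (Γ : ι → (κ → Bool) → (κ → Bool) → ℝ) :
    ι × κ → (κ → Bool) → (κ → Bool) → ℝ :=
  fun v x y => if x v.2 ≠ y v.2 then Γ v.1 x y else 0

/-- The property of adversary weights. -/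
def IsWt (ψ : (ι → κ → Bool) → Bool) (w : (ι → κ → Bool) → ι × κ → ℝ) : Prop :=
  ∀ U V, ψ U ≠ ψ V →
    1 ≤ ∑ v : ι × κ, if U v.1 v.2 ≠ V v.1 v.2 then Real.sqrt (w U v * w V v) else 0

private theorem Lower_blk_nn {Γ : ι → (κ → Bool) → (κ → Bool) → ℝ} (hΓ : ∀ j x y, 0 ≤ Γ j x y)
    (v : ι × κ) (U V : ι → κ → Bool) : 0 ≤ blk (gam Γ v) v.1 U V := by
  unfold blk gam
  split_ifs
  · exact hΓ _ _ _
  · exact le_rfl
  · exact le_rfl

private theorem Lower_gam_nn {Γ : ι → (κ → Bool) → (κ → Bool) → ℝ} (hΓ : ∀ j x y, 0 ≤ Γ j x y)
    (v : ι × κ) (x y : κ → Bool) : 0 ≤ gam Γ v x y := by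
  unfold gam
  split_ifs
  · exact hΓ _ _ _
  · exact le_rfl

private theorem Lower_blk {Γ : ι → (κ → Bool) → (κ → Bool) → ℝ}
    (v : ι × κ) (U V : ι → κ → Bool) (h : ∀ l, l ≠ v.1 → U l = V l)
    (hne : U v.1 v.2 ≠ V v.1 v.2) : blk (gam Γ v) v.1 U V = Γ v.1 (U v.1) (V v.1) := by
  unfold blk gam
  rw [if_pos h, if_pos hne]

private theorem Lower_kmul_ge {Ω : Type} [Fintype Ω] {K L : Ω → Ω → ℝ} (hK : ∀ U V, 0 ≤ K U V)
    (hL : ∀ U V, 0 ≤ L U V) (U V W : Ω) : K U W * L W V ≤ kmul K L U V := by
  unfold kmul
  exact Finset.single_le_sum (f := fun W => K U W * L W V)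
    (fun W _ => mul_nonneg (hK U W) (hL W V)) (Finset.mem_univ W)

private theorem Lower_kmul_nn {Ω : Type} [Fintype Ω] {K L : Ω → Ω → ℝ} (hK : ∀ U V, 0 ≤ K U V)
    (hL : ∀ U V, 0 ≤ L U V) (U V : Ω) : 0 ≤ kmul K L U V :=
  Finset.sum_nonneg fun W _ => mul_nonneg (hK U W) (hL W V)

/-- Strong induction on the number of blocks in which `U` and `V` differ. -/
theorem ker_lower {ψ : (ι → κ → Bool) → Bool} {w : (ι → κ → Bool) → ι × κ → ℝ}
    {Γ : ι → (κ → Bool) → (κ → Bool) → ℝ} (hΓ : ∀ j x y, 0 ≤ Γ j x y)
    (hw : ∀ U v, 0 ≤ w U v) (hW : IsWt ψ w) (U V : ι → κ → Bool) (hc : cf ψ U V ≠ 0) :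
    ∏ j ∈ dif U V, Γ j (U j) (V j) ≤ ker w (gam Γ) (dif U V).card U V := by
  have hknn : ∀ (b : ℕ) (U V : ι → κ → Bool), 0 ≤ ker w (gam Γ) b U V := fun b U V =>
    ker_nonneg (Lower_gam_nn hΓ) b U V
  have hbnn : ∀ (v : ι × κ) (U V : ι → κ → Bool), 0 ≤ blk (gam Γ v) v.1 U V := fun v U V =>
    Lower_blk_nn hΓ v U V
  generalize hb : (dif U V).card = b
  induction b using Nat.strong_induction_on generalizing U V with
  | _ b ih =>
    cases b with
    | zero =>
      rw [Finset.card_eq_zero] at hb
      have hUV : U = V := by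
        funext j
        by_contra hj
        have h1 : j ∈ dif U V := mem_dif.2 hj
        rw [hb] at h1
        exact absurd h1 (Finset.notMem_empty j)
      rw [hb, Finset.prod_empty, ker]
      dsimp only
      rw [if_pos hUV]
    | succ b =>
      have hP0 : 0 ≤ ∏ j ∈ dif U V, Γ j (U j) (V j) := Finset.prod_nonneg fun j _ => hΓ _ _ _
      have hs1 : 0 ≤ ∑ v : ι × κ, Real.sqrt (w U v) *
          (kmul (blk (gam Γ v) v.1) (ker w (gam Γ) b) U V +
            kmul (ker w (gam Γ) b) (blk (gam Γ v) v.1) U V) * Real.sqrt (w V v) :=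
        Finset.sum_nonneg fun v _ => mul_nonneg (mul_nonneg (Real.sqrt_nonneg _)
          (add_nonneg (Lower_kmul_nn (hbnn v) (hknn b) U V)
            (Lower_kmul_nn (hknn b) (hbnn v) U V))) (Real.sqrt_nonneg _)
      have hs2 : ∀ a ∈ (Finset.univ : Finset (Fin b)), 0 ≤
          kmul (ker w (gam Γ) (a.val + 1)) (ker w (gam Γ) (b - a.val)) U V := fun a _ =>
        Lower_kmul_nn (hknn _) (hknn _) U V
      rw [ker]
      dsimp only
      by_cases hψ : ψ U = ψ V
      · have hn : (dif U V).Nonempty := by
          rw [← Finset.card_pos, hb]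
          omega
        obtain ⟨T, hT, hTn, hc1, hc2⟩ := cf_split ψ hc hψ hn
        have hd1 := dif_left_mix hT.subset
        have hd2 := dif_mix_right hT.subset
        have ht1 : 1 ≤ T.card := Finset.card_pos.2 hTn
        have ht2 : T.card < b + 1 := by
          rw [← hb]
          exact Finset.card_lt_card hT
        have ht3 : (dif U V \ T).card = b + 1 - T.card := by
          rw [Finset.card_sdiff_of_subset hT.subset, hb]
        have h1 := ih T.card ht2 U (mix U V T) hc1 (by rw [hd1])
        have h2 := ih (b + 1 - T.card) (by omega) (mix U V T) V hc2 (by rw [hd2, ht3])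
        rw [hd1] at h1
        rw [hd2] at h2
        have h3 : ∏ j ∈ T, Γ j (U j) (mix U V T j) = ∏ j ∈ T, Γ j (U j) (V j) := by
          refine Finset.prod_congr rfl fun j hj => ?_
          unfold mix
          rw [if_pos hj]
        have h4 : ∏ j ∈ dif U V \ T, Γ j (mix U V T j) (V j) =
            ∏ j ∈ dif U V \ T, Γ j (U j) (V j) := by
          refine Finset.prod_congr rfl fun j hj => ?_
          unfold mix
          rw [if_neg (Finset.mem_sdiff.1 hj).2]
        rw [h3] at h1
        rw [h4] at h2
        have h5 : ∏ j ∈ dif U V, Γ j (U j) (V j) =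
            (∏ j ∈ T, Γ j (U j) (V j)) * ∏ j ∈ dif U V \ T, Γ j (U j) (V j) := by
          rw [mul_comm]
          exact (Finset.prod_sdiff hT.subset).symm
        have h6 := Finset.single_le_sum hs2 (Finset.mem_univ (⟨T.card - 1, by omega⟩ : Fin b))
        have h7 : T.card - 1 + 1 = T.card := by omega
        have h8 : b - (T.card - 1) = b + 1 - T.card := by omega
        simp only [h7, h8] at h6
        have h9 := Lower_kmul_ge (hknn T.card) (hknn (b + 1 - T.card)) U V (mix U V T)
        have h10 : ∏ j ∈ dif U V, Γ j (U j) (V j) ≤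
            ker w (gam Γ) T.card U (mix U V T) * ker w (gam Γ) (b + 1 - T.card) (mix U V T) V := by
          rw [h5]
          exact mul_le_mul h1 h2 (Finset.prod_nonneg fun j _ => hΓ _ _ _) (hknn _ _ _)
        linarith
      · have hv : ∀ v : ι × κ, (if U v.1 v.2 ≠ V v.1 v.2 then Real.sqrt (w U v * w V v) else 0) *
            (∏ j ∈ dif U V, Γ j (U j) (V j)) ≤ Real.sqrt (w U v) *
          (kmul (blk (gam Γ v) v.1) (ker w (gam Γ) b) U V +
            kmul (ker w (gam Γ) b) (blk (gam Γ v) v.1) U V) * Real.sqrt (w V v) := by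
          intro v
          have hA := Lower_kmul_nn (hbnn v) (hknn b) U V
          have hB := Lower_kmul_nn (hknn b) (hbnn v) U V
          by_cases hne : U v.1 v.2 ≠ V v.1 v.2
          · rw [if_pos hne, Real.sqrt_mul (hw U v)]
            have hj : v.1 ∈ dif U V := mem_dif.2 fun h => hne (by rw [h])
            have hcard : ((dif U V).erase v.1).card = b := by
              rw [Finset.card_erase_of_mem hj, hb]
              omega
            have hprod : ∏ j ∈ dif U V, Γ j (U j) (V j) =
                Γ v.1 (U v.1) (V v.1) * ∏ j ∈ (dif U V).erase v.1, Γ j (U j) (V j) :=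
              (Finset.mul_prod_erase _ _ hj).symm
            have hΓ0 := hΓ v.1 (U v.1) (V v.1)
            have hmain : ∏ j ∈ dif U V, Γ j (U j) (V j) ≤
                kmul (blk (gam Γ v) v.1) (ker w (gam Γ) b) U V +
                  kmul (ker w (gam Γ) b) (blk (gam Γ v) v.1) U V := by
              have hf := cf_facet ψ hj
              by_cases hc1 : cf ψ (Function.update U v.1 (V v.1)) V = 0
              · have hc2 : cf ψ U (Function.update V v.1 (U v.1)) ≠ 0 := by
                  intro h
                  rw [hc1, h] at hf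
                  exact hc (by rw [hf]; norm_num)
                have h1 := ih b (by omega) U (Function.update V v.1 (U v.1)) hc2
                  (by rw [dif_update_right, hcard])
                rw [dif_update_right] at h1
                have h2 : ∏ j ∈ (dif U V).erase v.1, Γ j (U j) (Function.update V v.1 (U v.1) j) =
                    ∏ j ∈ (dif U V).erase v.1, Γ j (U j) (V j) := by
                  refine Finset.prod_congr rfl fun j hj' => ?_
                  rw [Function.update_of_ne (Finset.ne_of_mem_erase hj')]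
                rw [h2] at h1
                have h3 := Lower_kmul_ge (hknn b) (hbnn v) U V (Function.update V v.1 (U v.1))
                have h4 : blk (gam Γ v) v.1 (Function.update V v.1 (U v.1)) V =
                    Γ v.1 (U v.1) (V v.1) := by
                  rw [Lower_blk v _ _ (fun l hl => Function.update_of_ne hl _ _)
                    (by rw [Function.update_self]; exact hne), Function.update_self]
                rw [h4] at h3
                rw [hprod]
                have h5 := mul_le_mul_of_nonneg_left h1 hΓ0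
                linarith
              · have h1 := ih b (by omega) (Function.update U v.1 (V v.1)) V hc1
                  (by rw [dif_update_left, hcard])
                rw [dif_update_left] at h1
                have h2 : ∏ j ∈ (dif U V).erase v.1, Γ j (Function.update U v.1 (V v.1) j) (V j) =
                    ∏ j ∈ (dif U V).erase v.1, Γ j (U j) (V j) := by
                  refine Finset.prod_congr rfl fun j hj' => ?_
                  rw [Function.update_of_ne (Finset.ne_of_mem_erase hj')]
                rw [h2] at h1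
                have h3 := Lower_kmul_ge (hbnn v) (hknn b) U V (Function.update U v.1 (V v.1))
                have h4 : blk (gam Γ v) v.1 U (Function.update U v.1 (V v.1)) =
                    Γ v.1 (U v.1) (V v.1) := by
                  rw [Lower_blk v _ _ (fun l hl => (Function.update_of_ne hl _ _).symm)
                    (by rw [Function.update_self]; exact hne), Function.update_self]
                rw [h4] at h3
                rw [hprod]
                have h5 := mul_le_mul_of_nonneg_left h1 hΓ0
                linarith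
            have h6 := mul_le_mul_of_nonneg_left hmain
              (mul_nonneg (Real.sqrt_nonneg (w U v)) (Real.sqrt_nonneg (w V v)))
            linarith
          · rw [if_neg hne, zero_mul]
            exact mul_nonneg (mul_nonneg (Real.sqrt_nonneg _) (add_nonneg hA hB))
              (Real.sqrt_nonneg _)
        have h1 := Finset.sum_le_sum fun v (_ : v ∈ (Finset.univ : Finset (ι × κ))) => hv v
        rw [← Finset.sum_mul] at h1
        have h2 := mul_le_mul_of_nonneg_right (hW U V hψ) hP0
        have h3 := Finset.sum_nonneg hs2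
        linarith

end Pool.Agent.H.MP_027d00_lc.AdvC
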