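import Pool.Agent.H.MP_027d00_lc.adv.Small
import Pool.Agent.H.MP_027d00_lc.adv.Ctx

/-!
# The composition theorem
-/

set_option autoImplicit false

namespace Pool.Agent.H.MP_027d00_lc.AdvC

open UComp

/-- Normalised data from `HasAdv`. -/
theorem exists_isAdv {m n : ℕ} {g : Fin m → (Fin n → Bool) → Bool} {lam : ℝ} (hl : 0 < lam)
    (hg : ∀ j, HasAdv (g j) lam) :
    ∃ (Γ : Fin m → (Fin n → Bool) → (Fin n → Bool) → ℝ) (e : Fin m → (Fin n → Bool) → ℝ),
      IsAdv Γ e lam ∧ ∀ j x y, g j x = g j y → Γ j x y = 0 := by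
  choose Γ e h1 h2 h3 h4 h5 h6 h7 using hg
  have hN : ∀ j, 0 < ∑ x, e j x ^ 2 := by
    intro j
    obtain ⟨x, hx⟩ := h5 j
    refine lt_of_lt_of_le (by positivity : 0 < e j x ^ 2) ?_
    exact Finset.single_le_sum (f := fun x => e j x ^ 2) (fun i _ => sq_nonneg _)
      (Finset.mem_univ x)
  refine ⟨Γ, fun j x => e j x / Real.sqrt (∑ x, e j x ^ 2), ⟨hl, h1, h2, fun j x => h3 j x x rfl,
    fun j x => div_nonneg (h4 j x) (Real.sqrt_nonneg _), ?_, ?_, fun j i f => h7 j i f⟩, h3⟩
  · intro j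
    simp only [div_pow]
    rw [← Finset.sum_div, Real.sq_sqrt (hN j).le, div_self (hN j).ne']
  · intro j x
    have h8 : ∀ y, Γ j x y * (e j y / Real.sqrt (∑ x, e j x ^ 2)) =
        Γ j x y * e j y / Real.sqrt (∑ x, e j x ^ 2) := fun y => by ring
    rw [Finset.sum_congr rfl fun y _ => h8 y, ← Finset.sum_div, h6]
    ring

private theorem main_ex_nonneg {m n : ℕ} {Γ : Fin m → (Fin n → Bool) → (Fin n → Bool) → ℝ}
    {e : Fin m → (Fin n → Bool) → ℝ} {lam : ℝ} (h : IsAdv Γ e lam)
    (ψ : (Fin m × Fin n → Bool) → Bool) : 0 ≤ ex Γ e lam ψ :=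
  Finset.sum_nonneg fun U _ => Finset.sum_nonneg fun V _ =>
    mul_nonneg (prb_nonneg h U V) (Nat.cast_nonneg _)

private theorem main_ex_add {m n : ℕ} {Γ : Fin m → (Fin n → Bool) → (Fin n → Bool) → ℝ}
    {e : Fin m → (Fin n → Bool) → ℝ} {lam : ℝ} (h : IsAdv Γ e lam)
    (ψ ψ₁ ψ₂ : (Fin m × Fin n → Bool) → Bool)
    (hle : ∀ U V, fsize (proj (fun X => ψ (fun v => X v.1 v.2)) U V) ≤
      fsize (proj (fun X => ψ₁ (fun v => X v.1 v.2)) U V) +
      fsize (proj (fun X => ψ₂ (fun v => X v.1 v.2)) U V)) :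
    ex Γ e lam ψ ≤ ex Γ e lam ψ₁ + ex Γ e lam ψ₂ := by
  unfold ex
  rw [← Finset.sum_add_distrib]
  refine Finset.sum_le_sum fun U _ => ?_
  rw [← Finset.sum_add_distrib]
  refine Finset.sum_le_sum fun V _ => ?_
  rw [← mul_add]
  refine mul_le_mul_of_nonneg_left ?_ (prb_nonneg h U V)
  exact_mod_cast hle U V

private theorem main_ex_le {m n : ℕ} {Γ : Fin m → (Fin n → Bool) → (Fin n → Bool) → ℝ}
    {e : Fin m → (Fin n → Bool) → ℝ} {lam : ℝ} (h : IsAdv Γ e lam) (F : Fm (Fin m × Fin n)) :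
    ex Γ e lam (fun X => F.eval X) ≤ F.size := by
  have h1 : ex Γ e lam (fun X => F.eval X) ≤ ∑ U, ∑ V, prb Γ e lam U V * (F.size : ℝ) := by
    unfold ex
    refine Finset.sum_le_sum fun U _ => Finset.sum_le_sum fun V _ => ?_
    refine mul_le_mul_of_nonneg_left ?_ (prb_nonneg h U V)
    exact_mod_cast fsize_mix_le F U V
  refine h1.trans (le_of_eq ?_)
  simp only [← Finset.sum_mul]
  rw [sum_prb h, one_mul]

private theorem main_ex_comp {m n : ℕ} {Γ : Fin m → (Fin n → Bool) → (Fin n → Bool) → ℝ}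
    {e : Fin m → (Fin n → Bool) → ℝ} {lam : ℝ} (h : IsAdv Γ e lam) (f : (Fin m → Bool) → Bool)
    (g : Fin m → (Fin n → Bool) → Bool) (hΓ : ∀ j x y, g j x = g j y → Γ j x y = 0) :
    ex Γ e lam (comp f g) = fsize f := by
  have h1 : ∀ U V, prb Γ e lam U V *
      (fsize (proj (fun X => comp f g (fun v => X v.1 v.2)) U V) : ℝ) =
      prb Γ e lam U V * (fsize f : ℝ) := by
    intro U V
    by_cases hp : prb Γ e lam U V = 0
    · rw [hp, zero_mul, zero_mul]
    · have h2 : ∀ j, g j (U j) ≠ g j (V j) := by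
        intro j hj
        apply hp
        unfold prb
        refine Finset.prod_eq_zero (Finset.mem_univ j) ?_
        rw [hΓ j _ _ hj, zero_mul, zero_mul, zero_div]
      have h3 : proj (fun X => comp f g (fun v => X v.1 v.2)) U V =
          fun z => f (fun j => xor (z j) (g j (U j))) := by
        funext z
        show f (fun j => g j (fun i => mix U V (Finset.univ.filter (fun j => z j = true)) j i)) = _
        congr 1
        funext j
        have h4 : (fun i => mix U V (Finset.univ.filter (fun j => z j = true)) j i) =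
            if z j = true then V j else U j := by
          unfold mix
          by_cases hz : z j = true
          · rw [if_pos hz, if_pos (by simpa using hz)]
          · rw [if_neg hz, if_neg (by simpa using hz)]
        rw [h4]
        have h5 := h2 j
        by_cases hz : z j = true
        · rw [if_pos hz, hz]
          revert h5
          cases g j (U j) <;> cases g j (V j) <;> simp
        · rw [if_neg hz]
          have hz' : z j = false := by simpa using hz
          rw [hz']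
          simp
      rw [h3, fsize_flip]
  unfold ex
  simp only [h1, ← Finset.sum_mul]
  rw [sum_prb h, one_mul]

theorem main {m n : ℕ} (f : (Fin m → Bool) → Bool) (g : Fin m → (Fin n → Bool) → Bool) (lam : ℝ)
    (hg : ∀ j, HasAdv (g j) lam) :
    (fsize f : ℝ) * lam ^ 2 ≤ 6 * 28800 ^ 2 * fsize (comp f g) := by
  by_cases hf0 : fsize f = 0
  · rw [hf0, Nat.cast_zero, zero_mul]
    positivity
  have hf1 : (1 : ℝ) ≤ fsize f := by
    exact_mod_cast Nat.one_le_iff_ne_zero.2 hf0
  have hm : 0 < m := by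
    rcases Nat.eq_zero_or_pos m with h0 | h0
    · exfalso
      subst h0
      apply hf0
      have h1 : f = fun _ => f (fun j => j.elim0) := by
        funext x
        congr 1
        funext j
        exact j.elim0
      rw [h1]
      exact fsize_const _
    · exact h0
  have hl0 : 0 ≤ lam := by
    obtain ⟨Γ, e, h1, _, _, h4, ⟨x, hx⟩, h6, _⟩ := hg ⟨0, hm⟩
    have h8 : 0 < e x := lt_of_le_of_ne (h4 x) (Ne.symm hx)
    have h9 : 0 ≤ lam * e x := by
      rw [← h6]
      exact Finset.sum_nonneg fun y _ => mul_nonneg (h1 x y) (h4 y)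
    exact nonneg_of_mul_nonneg_left h9 h8
  rcases hl0.eq_or_lt with hl | hl
  · rw [← hl]
    have h1 : (0 : ℝ) ≤ 6 * 28800 ^ 2 * fsize (comp f g) := by positivity
    simpa using h1
  obtain ⟨Γ, e, h, hΓ⟩ := exists_isAdv hl hg
  obtain ⟨F, hF1, hF2⟩ := exists_fm (comp f g)
  have hFe : (fun X => F.eval X) = comp f g := funext hF2
  have hex : ex Γ e lam (fun X => F.eval X) = fsize f := by
    rw [hFe]
    exact main_ex_comp h f g hΓ
  rw [← hF1]
  have hs0 : (0 : ℝ) ≤ F.size := Nat.cast_nonneg _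
  obtain ⟨q, hq⟩ : ∃ q : ℕ, q = ⌊(lam / 28800) ^ 2⌋₊ := ⟨_, rfl⟩
  have hq1 : (lam / 28800) ^ 2 < q + 1 := by
    rw [hq]
    exact Nat.lt_floor_add_one _
  have hq2 : (q : ℝ) ≤ (lam / 28800) ^ 2 := by
    rw [hq]
    exact Nat.floor_le (by positivity)
  have hlam : lam ^ 2 = 28800 ^ 2 * (lam / 28800) ^ 2 := by
    field_simp
  rw [hlam]
  rcases Nat.eq_zero_or_pos q with h0 | h0
  · have h1 := main_ex_le h F
    rw [hex] at h1
    rw [h0, Nat.cast_zero, zero_add] at hq1
    have h2 : (fsize f : ℝ) * (28800 ^ 2 * (lam / 28800) ^ 2) ≤ F.size * (28800 ^ 2 * 1) := by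
      gcongr
    refine h2.trans ?_
    nlinarith
  · have hq3 : (1 : ℝ) ≤ q := by exact_mod_cast h0
    have h1 := cut (ex Γ e lam) (main_ex_nonneg h)
      (fun ψ₁ ψ₂ => main_ex_add h _ ψ₁ ψ₂ fun U V =>
        fsize_and (proj (fun X => ψ₁ (fun v => X v.1 v.2)) U V)
          (proj (fun X => ψ₂ (fun v => X v.1 v.2)) U V))
      (fun ψ₁ ψ₂ => main_ex_add h _ ψ₁ ψ₂ fun U V =>
        fsize_or (proj (fun X => ψ₁ (fun v => X v.1 v.2)) U V)
          (proj (fun X => ψ₂ (fun v => X v.1 v.2)) U V))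
      q h0 (1 / 2) (fun F' hF' => ex_small h F' (by
        have h2 : Real.sqrt F'.size ≤ lam / 28800 := by
          rw [show lam / 28800 = Real.sqrt ((lam / 28800) ^ 2) from
            (Real.sqrt_sq (by positivity)).symm]
          refine Real.sqrt_le_sqrt ?_
          refine le_trans ?_ hq2
          exact_mod_cast hF'
        rw [le_div_iff₀ (by norm_num)] at h2
        linarith)) F
    rw [hex] at h1
    have h2 : (fsize f : ℝ) * q ≤ 3 * (F.size : ℝ) := by
      rcases Nat.lt_or_ge 1 (6 * F.size / q - 2) with h3 | h3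
      · rw [max_eq_right h3.le] at h1
        have h4 : (6 * F.size / q - 2) * q ≤ 6 * F.size :=
          (Nat.mul_le_mul_right q (Nat.sub_le _ _)).trans (Nat.div_mul_le_self _ _)
        have h5 : (((6 * F.size / q - 2 : ℕ)) : ℝ) * q ≤ 6 * F.size := by exact_mod_cast h4
        have h6 : (fsize f : ℝ) * q ≤ 1 / 2 * ((6 * F.size / q - 2 : ℕ) : ℝ) * q :=
          mul_le_mul_of_nonneg_right h1 (by linarith)
        linarith
      · rw [max_eq_left h3, Nat.cast_one] at h1
        linarith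
    have h4 : (lam / 28800) ^ 2 ≤ 2 * q := by linarith
    calc (fsize f : ℝ) * (28800 ^ 2 * (lam / 28800) ^ 2)
        ≤ (fsize f : ℝ) * (28800 ^ 2 * (2 * (q : ℝ))) := by gcongr
      _ = 2 * 28800 ^ 2 * ((fsize f : ℝ) * (q : ℝ)) := by ring
      _ ≤ 2 * 28800 ^ 2 * (3 * (F.size : ℝ)) := by gcongr
      _ = 6 * 28800 ^ 2 * (F.size : ℝ) := by ring

end Pool.Agent.H.MP_027d00_lc.AdvC
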