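import Pool.Agent.H.MP_027d00_lc.adv.Poly
import Pool.Agent.H.MP_027d00_lc.adv.Fsize

/-!
# Boolean functions of degree `d` have formula size at most `4 * 200 ^ d`
-/

set_option autoImplicit false

namespace Pool.Agent.H.MP_027d00_lc.AdvC

open UComp

variable {ι : Type} [Fintype ι] [DecidableEq ι]

private theorem XorF_mix (z : ι → Bool) :
    mix (fun _ : ι => false) (fun _ => true) (Finset.univ.filter (fun i => z i = true)) = z := by
  funext j
  unfold mix
  by_cases hj : z j = true <;> simp [hj]

private theorem XorF_inner (T S : Finset ι) (hTS : T ⊆ S) :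
    ((Finset.Icc T S).card : ZMod 2) = if T = S then 1 else 0 := by
  rw [Finset.card_Icc_finset hTS]
  by_cases h : T = S
  · subst h
    simp
  · rw [if_neg h]
    have h1 : T.card < S.card := Finset.card_lt_card (hTS.ssubset_of_ne h)
    have h2 : S.card - T.card ≠ 0 := by omega
    push_cast
    have h3 : (2 : ZMod 2) = 0 := by decide
    rw [h3, zero_pow h2]

private theorem XorF_co (h : (ι → Bool) → Bool) (D : Finset ι) :
    ((co h D : ℤ) : ZMod 2) = ∑ T ∈ D.powerset,
      (if h (mix (fun _ => false) (fun _ => true) T) then (1 : ZMod 2) else 0) := by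
  unfold co cfD
  push_cast
  refine Finset.sum_congr rfl fun T _ => ?_
  have h3 : (-1 : ZMod 2) = 1 := by decide
  rw [h3, one_pow, one_mul]

private theorem XorF_sum (h : (ι → Bool) → Bool) (S : Finset ι) :
    ∑ D ∈ S.powerset, ((co h D : ℤ) : ZMod 2) =
      (if h (mix (fun _ => false) (fun _ => true) S) then (1 : ZMod 2) else 0) := by
  simp only [XorF_co]
  rw [Finset.sum_comm' (t' := S.powerset) (s' := fun T => Finset.Icc T S)]
  · have h1 : ∀ T ∈ S.powerset, (∑ _D ∈ Finset.Icc T S,
        (if h (mix (fun _ => false) (fun _ => true) T) then (1 : ZMod 2) else 0)) =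
        if T = S then (if h (mix (fun _ => false) (fun _ => true) S) then (1 : ZMod 2) else 0)
          else 0 := by
      intro T hT
      rw [Finset.sum_const, nsmul_eq_mul, XorF_inner T S (Finset.mem_powerset.1 hT)]
      by_cases hTS : T = S
      · subst hTS
        simp
      · simp [hTS]
    rw [Finset.sum_congr rfl h1, Finset.sum_ite_eq' S.powerset S, if_pos (Finset.mem_powerset.2 (Finset.Subset.refl S))]
  · intro D T
    simp only [Finset.mem_powerset, Finset.mem_Icc]
    constructor
    · rintro ⟨h1, h2⟩
      exact ⟨⟨h2, h1⟩, h2.trans h1⟩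
    · rintro ⟨⟨h1, h2⟩, _⟩
      exact ⟨h2, h1⟩

private theorem XorF_ind (a : ℤ) :
    ((a : ℤ) : ZMod 2) = if a % 2 ≠ 0 then 1 else 0 := by
  by_cases h : a % 2 = 0
  · rw [if_neg (by simpa using h)]
    exact ZMod.intCast_eq_zero_iff_even.2 (Int.even_iff.2 h)
  · rw [if_pos h]
    refine ZMod.intCast_eq_one_iff_odd.2 (Int.odd_iff.2 ?_)
    omega

/-- `h` is the parity of the monomials with odd coefficient. -/
theorem eq_xor (h : (ι → Bool) → Bool) (z : ι → Bool) :
    h z = decide (Odd (Finset.univ.filter
      (fun D : Finset ι => co h D % 2 ≠ 0 ∧ ∀ i ∈ D, z i = true)).card) := by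
  have h1 := XorF_sum h (Finset.univ.filter (fun i => z i = true))
  rw [XorF_mix z] at h1
  have h2 : (Finset.univ.filter
      (fun D : Finset ι => co h D % 2 ≠ 0 ∧ ∀ i ∈ D, z i = true)) =
      (Finset.univ.filter (fun i => z i = true)).powerset.filter (fun D => co h D % 2 ≠ 0) := by
    ext D
    simp only [Finset.mem_filter, Finset.mem_univ, true_and, Finset.mem_powerset,
      Finset.subset_iff]
    exact and_comm
  have h3 : (((Finset.univ.filter
      (fun D : Finset ι => co h D % 2 ≠ 0 ∧ ∀ i ∈ D, z i = true)).card : ℕ) : ZMod 2) =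
      if h z then 1 else 0 := by
    rw [← h1, h2, Finset.card_filter]
    push_cast
    refine Finset.sum_congr rfl fun D _ => ?_
    rw [XorF_ind]
  by_cases hz : h z = true
  · rw [if_pos hz] at h3
    rw [hz, decide_eq_true (ZMod.natCast_eq_one_iff_odd.1 h3)]
  · rw [if_neg hz] at h3
    have h4 : h z = false := by simpa using hz
    rw [h4]
    symm
    refine decide_eq_false ?_
    rw [Nat.not_odd_iff_even]
    exact ZMod.natCast_eq_zero_iff_even.1 h3

private theorem XorF_xor2 {V : Type} [Fintype V] [DecidableEq V] (p q : (V → Bool) → Bool) :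
    fsize (fun x => xor (p x) (q x)) ≤ 2 * (fsize p + fsize q) := by
  have h1 : (fun x => xor (p x) (q x)) = fun x => (p x && !q x) || (!p x && q x) := by
    funext x
    cases p x <;> cases q x <;> rfl
  rw [h1]
  have h2 := fsize_or (fun x => p x && !q x) (fun x => !p x && q x)
  have h3 := fsize_and p (fun x => !q x)
  have h4 := fsize_and (fun x => !p x) q
  rw [fsize_not] at h3 h4
  omega

private theorem XorF_step {V I : Type} [Fintype V] [DecidableEq V]
    (a : I → (V → Bool) → Bool) (d : ℕ) (k : ℕ) : ∀ S : Finset I, S.card ≤ 2 ^ k →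
    (∀ i ∈ S, fsize (a i) ≤ d) →
    fsize (fun x => decide (Odd (S.filter (fun i => a i x = true)).card)) ≤ 4 ^ k * d := by
  classical
  induction k with
  | zero =>
    intro S hS hd
    rcases Nat.lt_or_ge 0 S.card with h0 | h0
    · have h1 : S.card = 1 := by
        simp only [pow_zero] at hS
        omega
      obtain ⟨i, rfl⟩ := Finset.card_eq_one.1 h1
      have h2 : (fun x => decide (Odd (({i} : Finset I).filter (fun i => a i x = true)).card)) =
          a i := by
        funext x
        by_cases hx : a i x = true
        · rw [Finset.filter_singleton, if_pos hx, hx]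
          simp
        · rw [Finset.filter_singleton, if_neg hx]
          have h4 : a i x = false := by simpa using hx
          rw [h4]
          simp
      rw [h2]
      simpa using hd i (Finset.mem_singleton_self i)
    · have h1 : S = ∅ := Finset.card_eq_zero.1 (by omega)
      subst h1
      have h2 : (fun x => decide (Odd ((∅ : Finset I).filter (fun i => a i x = true)).card)) =
          fun _ : V → Bool => false := by
        funext x
        simp
      rw [h2, fsize_const]
      exact Nat.zero_le _
  | succ k ih =>
    intro S hS hd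
    obtain ⟨T, hTS, hT⟩ := Finset.exists_subset_card_eq (s := S) (n := min S.card (2 ^ k))
      (min_le_left _ _)
    have hT1 : T.card ≤ 2 ^ k := by
      rw [hT]
      exact min_le_right _ _
    have hT2 : (S \ T).card ≤ 2 ^ k := by
      rw [Finset.card_sdiff_of_subset hTS, hT]
      rw [pow_succ] at hS
      omega
    have h1 := ih T hT1 (fun i hi => hd i (hTS hi))
    have h2 := ih (S \ T) hT2 (fun i hi => hd i (Finset.sdiff_subset hi))
    have h3 : (fun x => decide (Odd (S.filter (fun i => a i x = true)).card)) =
        fun x => xor (decide (Odd (T.filter (fun i => a i x = true)).card))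
          (decide (Odd ((S \ T).filter (fun i => a i x = true)).card)) := by
      funext x
      have h4 : (S.filter (fun i => a i x = true)).card =
          (T.filter (fun i => a i x = true)).card +
            ((S \ T).filter (fun i => a i x = true)).card := by
        rw [← Finset.card_union_of_disjoint
          (Finset.disjoint_filter_filter Finset.disjoint_sdiff),
          ← Finset.filter_union, Finset.union_sdiff_of_subset hTS]
      rw [h4]
      by_cases h5 : Odd (T.filter (fun i => a i x = true)).card <;>
        by_cases h6 : Odd ((S \ T).filter (fun i => a i x = true)).card <;>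
        simp [Nat.odd_add, h5, h6, Nat.not_odd_iff_even.1, Nat.not_even_iff_odd]
    rw [h3]
    refine (XorF_xor2 _ _).trans ?_
    rw [pow_succ]
    nlinarith

/-- The parity of the functions `a_i`, `i ∈ S`. -/
theorem fsize_xor {V I : Type} [Fintype V] [DecidableEq V] (S : Finset I)
    (a : I → (V → Bool) → Bool) (d : ℕ) (hd : ∀ i ∈ S, fsize (a i) ≤ d) :
    fsize (fun x => decide (Odd (S.filter (fun i => a i x = true)).card)) ≤ 4 * S.card ^ 2 * d := by
  have h1 : ∃ k, S.card ≤ 2 ^ k ∧ 4 ^ k ≤ 4 * S.card ^ 2 ∨ S.card = 0 := by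
    rcases Nat.lt_or_ge 1 S.card with h | h
    · refine ⟨Nat.clog 2 S.card, Or.inl ⟨Nat.le_pow_clog (by norm_num) _, ?_⟩⟩
      have h2 := Nat.pow_pred_clog_lt_self (b := 2) (by norm_num) h
      have h3 : 0 < Nat.clog 2 S.card := Nat.clog_pos (by norm_num) h
      obtain ⟨k, hk⟩ := Nat.exists_eq_succ_of_ne_zero h3.ne'
      rw [hk] at h2 ⊢
      simp only [Nat.pred_succ, Nat.succ_eq_add_one] at h2 ⊢
      have h4 : (4 : ℕ) ^ (k + 1) = 4 * (2 ^ k) ^ 2 := by
        rw [pow_succ, ← pow_mul, mul_comm k 2, pow_mul]
        norm_num
        ring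
      rw [h4]
      have h5 : (2 ^ k) ^ 2 ≤ S.card ^ 2 := Nat.pow_le_pow_left h2.le 2
      omega
    · rcases Nat.lt_or_ge 0 S.card with h0 | h0
      · refine ⟨0, Or.inl ⟨by simpa using h, ?_⟩⟩
        have h2 : S.card = 1 := by omega
        rw [h2]
        norm_num
      · exact ⟨0, Or.inr (by omega)⟩
  obtain ⟨k, h1 | h1⟩ := h1
  · exact (XorF_step a d k S h1.1 hd).trans (Nat.mul_le_mul_right d h1.2)
  · have h2 := XorF_step a d 0 S (by rw [h1]; simp) hd
    have h3 : S = ∅ := Finset.card_eq_zero.1 h1
    subst h3
    have h4 : (fun x => decide (Odd ((∅ : Finset I).filter (fun i => a i x = true)).card)) =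
        fun _ : V → Bool => false := by
      funext x
      simp
    rw [h4, fsize_const]
    exact Nat.zero_le _

private theorem XorF_mon (D : Finset ι) :
    fsize (fun z : ι → Bool => decide (∀ i ∈ D, z i = true)) ≤ D.card := by
  induction D using Finset.induction_on with
  | empty =>
    have h1 : (fun z : ι → Bool => decide (∀ i ∈ (∅ : Finset ι), z i = true)) =
        fun _ => true := by
      funext z
      simp
    rw [h1, fsize_const]
    exact Nat.zero_le _
  | insert i D hi ih =>
    have h1 : (fun z : ι → Bool => decide (∀ j ∈ insert i D, z j = true)) =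
        fun z => z i && decide (∀ j ∈ D, z j = true) := by
      funext z
      simp
    rw [h1, Finset.card_insert_of_notMem hi]
    have h2 := fsize_and (fun z : ι → Bool => z i) (fun z => decide (∀ j ∈ D, z j = true))
    have h3 : fsize (fun z : ι → Bool => z i) ≤ (Fm.lit i true).size :=
      fsize_le (Fm.lit i true) _ (fun x => by simp [Fm.eval])
    simp only [Fm.size] at h3
    omega

theorem fsize_le_deg (h : (ι → Bool) → Bool) (d : ℕ)
    (hd : ∀ D : Finset ι, d < D.card → co h D = 0) :
    fsize h ≤ 4 * 200 ^ d * (if d = 0 then 0 else 1) := by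
  by_cases h0 : d = 0
  · subst h0
    have h1 : h = fun _ => h (fun _ => false) := by
      funext z
      rw [eq_xor h z, eq_xor h (fun _ => false)]
      have h2 : ∀ y : ι → Bool, Finset.univ.filter
          (fun D : Finset ι => co h D % 2 ≠ 0 ∧ ∀ i ∈ D, y i = true) =
          Finset.univ.filter (fun D : Finset ι => co h D % 2 ≠ 0) := by
        intro y
        ext D
        simp only [Finset.mem_filter, Finset.mem_univ, true_and]
        constructor
        · exact fun h3 => h3.1
        · intro h3
          refine ⟨h3, ?_⟩
          have h4 : D = ∅ := by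
            by_contra h5
            have h6 : 0 < D.card := Finset.card_pos.2 (Finset.nonempty_iff_ne_empty.2 h5)
            rw [hd D h6] at h3
            simp at h3
          subst h4
          simp
      rw [h2 z, h2 (fun _ => false)]
    rw [h1, fsize_const]
    exact Nat.zero_le _
  · rw [if_neg h0, mul_one]
    have h1 : h = fun z => decide (Odd ((Finset.univ.filter
        (fun D : Finset ι => co h D % 2 ≠ 0)).filter
          (fun D => decide (∀ i ∈ D, z i = true) = true)).card) := by
      funext z
      rw [eq_xor h z, Finset.filter_filter]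
      simp only [decide_eq_true_eq]
    have h2 : (Finset.univ.filter (fun D : Finset ι => co h D % 2 ≠ 0)).card ≤ 10 ^ d := by
      refine (Finset.card_le_card ?_).trans (card_co_le h d hd)
      intro D hD
      rw [Finset.mem_filter] at hD ⊢
      refine ⟨hD.1, fun h3 => hD.2 ?_⟩
      rw [h3]
      simp
    have h3 := fsize_xor (Finset.univ.filter (fun D : Finset ι => co h D % 2 ≠ 0))
      (fun D (z : ι → Bool) => decide (∀ i ∈ D, z i = true)) d (fun D hD => by
        refine (XorF_mon D).trans ?_
        by_contra h4
        rw [Finset.mem_filter] at hD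
        apply hD.2
        rw [hd D (by omega)]
        simp)
    rw [← h1] at h3
    refine h3.trans ?_
    have h4 : (Finset.univ.filter (fun D : Finset ι => co h D % 2 ≠ 0)).card ^ 2 ≤ 100 ^ d := by
      refine (Nat.pow_le_pow_left h2 2).trans ?_
      rw [← pow_mul, mul_comm d 2, pow_mul]
      norm_num
    have h5 : d ≤ 2 ^ d := Nat.lt_two_pow_self.le
    have h6 : (200 : ℕ) ^ d = 100 ^ d * 2 ^ d := by
      rw [← mul_pow]
      norm_num
    rw [h6, ← mul_assoc]
    exact Nat.mul_le_mul (Nat.mul_le_mul_left 4 h4) h5

end Pool.Agent.H.MP_027d00_lc.AdvC
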