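import Pool.Agent.H.MP_027d00_lc.adv.PDefs
import Pool.Agent.H.MP_027d00_lc.adv.XorF

/-!
# The adversary bound and the formula size of AND-OR trees of parities
-/

set_option autoImplicit false

namespace Pool.Agent.H.MP_027d00_lc.AdvC

open UComp

/-- The claim of the induction. -/
private def PTreeP {n : ℕ} (g : (Fin n → Bool) → Bool) (S : Finset (Fin n)) (lam : ℝ) : Prop :=
  ∃ (Γ : (Fin n → Bool) → (Fin n → Bool) → ℝ) (e : (Fin n → Bool) → ℝ),
    (∀ x y, 0 ≤ Γ x y) ∧ (∀ x y, Γ x y = Γ y x) ∧ (∀ x y, g x = g y → Γ x y = 0) ∧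
    (∀ x y, Γ x y ≠ 0 → ∀ i, i ∉ S → x i = y i) ∧
    (∀ x, 0 ≤ e x) ∧ (∀ x y, (∀ i ∈ S, x i = y i) → e x = e y) ∧
    (∃ x, e x ≠ 0) ∧ (∀ x, ∑ y, Γ x y * e y = lam * e x) ∧
    ∀ (i : Fin n) (v : (Fin n → Bool) → ℝ),
      ∑ x, (∑ y, (if x i ≠ y i then Γ x y else 0) * v y) ^ 2 ≤ ∑ x, v x ^ 2

private theorem PTree_not {n : ℕ} {g g' : (Fin n → Bool) → Bool} {S : Finset (Fin n)} {lam : ℝ}
    (hg : ∀ x, g' x = !(g x)) (H : PTreeP g S lam) : PTreeP g' S lam := by
  obtain ⟨Γ, e, h1, h2, h3, h4, h5, h6, h7, h8, h9⟩ := H
  refine ⟨Γ, e, h1, h2, fun x y hxy => h3 x y ?_, h4, h5, h6, h7, h8, h9⟩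
  rw [hg, hg] at hxy
  exact Bool.not_inj hxy

private theorem PTree_true {n : ℕ} {g : (Fin n → Bool) → Bool} {a : ℝ} (ha : 0 < a)
    {Γ : (Fin n → Bool) → (Fin n → Bool) → ℝ} {e : (Fin n → Bool) → ℝ}
    (h3 : ∀ x y, g x = g y → Γ x y = 0) (h7 : ∃ x, e x ≠ 0)
    (h8 : ∀ x, ∑ y, Γ x y * e y = a * e x) : ∃ x, g x = true ∧ e x ≠ 0 := by
  obtain ⟨x, hx⟩ := h7
  by_cases hgx : g x = true
  · exact ⟨x, hgx, hx⟩
  · have h1 : ∑ y, Γ x y * e y ≠ 0 := by
      rw [h8]
      exact mul_ne_zero ha.ne' hx
    obtain ⟨y, -, hy⟩ := Finset.exists_ne_zero_of_sum_ne_zero h1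
    refine ⟨y, ?_, right_ne_zero_of_mul hy⟩
    by_contra hgy
    apply left_ne_zero_of_mul hy
    apply h3
    rw [Bool.not_eq_true] at hgx hgy
    rw [hgx, hgy]

private theorem PTree_and {n : ℕ} {g h : (Fin n → Bool) → Bool} {S T : Finset (Fin n)}
    {a b c : ℝ} (ha : 0 < a) (hb : 0 < b) (hc : 0 < c) (habc : c ^ 2 = a ^ 2 + b ^ 2)
    (hg : ∀ x y, (∀ i ∈ S, x i = y i) → g x = g y) (hh : ∀ x y, (∀ i ∈ T, x i = y i) → h x = h y)
    (hST : Disjoint S T) (H1 : PTreeP g S a) (H2 : PTreeP h T b) :
    PTreeP (fun x => g x && h x) (S ∪ T) c := by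
  obtain ⟨Γ, e, p1, p2, p3, p4, p5, p6, p7, p8, p9⟩ := H1
  obtain ⟨Δ, d, r1, r2, r3, r4, r5, r6, r7, r8, r9⟩ := H2
  have hS : ∀ i ∈ T, i ∉ S := fun i hi hi' => Finset.disjoint_left.1 hST hi' hi
  have hT : ∀ i ∈ S, i ∉ T := fun i hi hi' => Finset.disjoint_left.1 hST hi hi'
  have k1 : ∀ x y, Γ x y ≠ 0 → h x = h y := fun x y hxy =>
    hh x y fun i hi => p4 x y hxy i (hS i hi)
  have k2 : ∀ x y, Γ x y ≠ 0 → d x = d y := fun x y hxy =>
    r6 x y fun i hi => p4 x y hxy i (hS i hi)
  have l1 : ∀ x y, Δ x y ≠ 0 → g x = g y := fun x y hxy =>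
    hg x y fun i hi => r4 x y hxy i (hT i hi)
  have l2 : ∀ x y, Δ x y ≠ 0 → e x = e y := fun x y hxy =>
    p6 x y fun i hi => r4 x y hxy i (hT i hi)
  refine ⟨fun x y => (if h x = true then Γ x y else 0) + (if g x = true then Δ x y else 0),
    fun x => (if g x = true then (if h x = true then c else b) else
      (if h x = true then a else 0)) * (e x * d x), ?_, ?_, ?_, ?_, ?_, ?_, ?_, ?_, ?_⟩
  · intro x y
    refine add_nonneg ?_ ?_
    · split_ifs
      · exact p1 x y
      · exact le_rfl
    · split_ifs
      · exact r1 x y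
      · exact le_rfl
  · intro x y
    have e1 : (if h x = true then Γ x y else 0) = if h y = true then Γ y x else 0 := by
      by_cases h0 : Γ x y = 0
      · rw [← p2 x y, h0]
        simp
      · rw [k1 x y h0, p2]
    have e2 : (if g x = true then Δ x y else 0) = if g y = true then Δ y x else 0 := by
      by_cases h0 : Δ x y = 0
      · rw [← r2 x y, h0]
        simp
      · rw [l1 x y h0, r2]
    beta_reduce
    rw [e1, e2]
  · intro x y hxy
    simp only at hxy
    have e1 : (if h x = true then Γ x y else 0) = 0 := by
      split_ifs with h0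
      · by_contra h1
        apply h1
        apply p3
        rw [h0, ← k1 x y h1, h0, Bool.and_true, Bool.and_true] at hxy
        exact hxy
      · rfl
    have e2 : (if g x = true then Δ x y else 0) = 0 := by
      split_ifs with h0
      · by_contra h1
        apply h1
        apply r3
        rw [h0, ← l1 x y h1, h0, Bool.true_and, Bool.true_and] at hxy
        exact hxy
      · rfl
    beta_reduce
    rw [e1, e2, add_zero]
  · intro x y hxy i hi
    rw [Finset.mem_union, not_or] at hi
    by_contra hne
    apply hxy
    have e1 : Γ x y = 0 := by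
      by_contra h1
      exact hne (p4 x y h1 i hi.1)
    have e2 : Δ x y = 0 := by
      by_contra h1
      exact hne (r4 x y h1 i hi.2)
    beta_reduce
    rw [e1, e2]
    simp
  · intro x
    refine mul_nonneg ?_ (mul_nonneg (p5 x) (r5 x))
    split_ifs
    · exact hc.le
    · exact hb.le
    · exact ha.le
    · exact le_rfl
  · intro x y hxy
    have e1 : ∀ i ∈ S, x i = y i := fun i hi => hxy i (Finset.mem_union_left _ hi)
    have e2 : ∀ i ∈ T, x i = y i := fun i hi => hxy i (Finset.mem_union_right _ hi)
    simp only
    rw [hg x y e1, hh x y e2, p6 x y e1, r6 x y e2]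
  · obtain ⟨x, hx1, hx2⟩ := PTree_true ha p3 p7 p8
    obtain ⟨y, hy1, hy2⟩ := PTree_true hb r3 r7 r8
    obtain ⟨z, hz⟩ : ∃ z : Fin n → Bool, z = fun i => if i ∈ S then x i else y i := ⟨_, rfl⟩
    have e1 : ∀ i ∈ S, z i = x i := by
      intro i hi
      rw [hz]
      simp [hi]
    have e2 : ∀ i ∈ T, z i = y i := by
      intro i hi
      rw [hz]
      simp [hS i hi]
    refine ⟨z, ?_⟩
    simp only
    rw [hg z x e1, hh z y e2, p6 z x e1, r6 z y e2, hx1, hy1]
    simp only [if_true]
    exact mul_ne_zero hc.ne' (mul_ne_zero hx2 hy2)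
  · intro x
    have A : h x = true → ∑ y, Γ x y * ((if g y = true then (if h y = true then c else b) else
        (if h y = true then a else 0)) * (e y * d y)) =
        (if g x = true then a else c) * d x * (a * e x) := by
      intro hx
      rw [← p8, Finset.mul_sum]
      refine Finset.sum_congr rfl fun y _ => ?_
      by_cases h0 : Γ x y = 0
      · rw [h0]
        ring
      · have h1 := k1 x y h0
        have h2 := k2 x y h0
        have h3 : g y = !(g x) := by
          rcases hgx : g x with _ | _ <;> rcases hgy : g y with _ | _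
          · exact absurd (p3 x y (by rw [hgx, hgy])) h0
          · rfl
          · rfl
          · exact absurd (p3 x y (by rw [hgx, hgy])) h0
        rw [← h1, hx, h3, ← h2]
        rcases g x with _ | _
        · simp only [Bool.not_false, if_true, Bool.false_eq_true, if_false]
          ring
        · simp only [Bool.not_true, if_true, Bool.false_eq_true, if_false]
          ring
    have B : g x = true → ∑ y, Δ x y * ((if g y = true then (if h y = true then c else b) else
        (if h y = true then a else 0)) * (e y * d y)) =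
        (if h x = true then b else c) * e x * (b * d x) := by
      intro hx
      rw [← r8, Finset.mul_sum]
      refine Finset.sum_congr rfl fun y _ => ?_
      by_cases h0 : Δ x y = 0
      · rw [h0]
        ring
      · have h1 := l1 x y h0
        have h2 := l2 x y h0
        have h3 : h y = !(h x) := by
          rcases hgx : h x with _ | _ <;> rcases hgy : h y with _ | _
          · exact absurd (r3 x y (by rw [hgx, hgy])) h0
          · rfl
          · rfl
          · exact absurd (r3 x y (by rw [hgx, hgy])) h0
        rw [← h1, hx, h3, ← h2]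
        rcases h x with _ | _
        · simp only [Bool.not_false, if_true, Bool.false_eq_true, if_false]
          ring
        · simp only [Bool.not_true, if_true, Bool.false_eq_true, if_false]
          ring
    simp only
    simp only [add_mul, Finset.sum_add_distrib]
    rcases hgx : g x with _ | _ <;> rcases hhx : h x with _ | _
    · simp
    · simp only [if_true, Bool.false_eq_true, if_false, zero_mul, Finset.sum_const_zero, add_zero]
      rw [A hhx, hgx]
      simp only [Bool.false_eq_true, if_false]
      ring
    · simp only [if_true, Bool.false_eq_true, if_false, zero_mul, Finset.sum_const_zero, zero_add]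
      rw [B hgx, hhx]
      simp only [Bool.false_eq_true, if_false]
      ring
    · simp only [if_true]
      rw [A hhx, B hgx, hgx, hhx]
      simp only [if_true]
      linear_combination (-(e x * d x)) * habc
  · intro i v
    by_cases hi : i ∈ S
    · refine le_trans (Finset.sum_le_sum fun x _ => ?_) (p9 i v)
      have e1 : ∑ y, (if x i ≠ y i then (if h x = true then Γ x y else 0) +
          (if g x = true then Δ x y else 0) else 0) * v y =
          if h x = true then ∑ y, (if x i ≠ y i then Γ x y else 0) * v y else 0 := by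
        have e2 : ∀ y, (if x i ≠ y i then (if h x = true then Γ x y else 0) +
          (if g x = true then Δ x y else 0) else 0) =
          if h x = true then (if x i ≠ y i then Γ x y else 0) else 0 := by
          intro y
          by_cases hxy : x i = y i
          · simp [hxy]
          · have h0 : Δ x y = 0 := by
              by_contra h1
              exact hxy (r4 x y h1 i (hT i hi))
            rw [h0]
            simp [hxy]
        simp only [e2]
        split_ifs
        · rfl
        · simp
      rw [e1]
      split_ifs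
      · exact le_rfl
      · rw [zero_pow two_ne_zero]
        exact sq_nonneg _
    · refine le_trans (Finset.sum_le_sum fun x _ => ?_) (r9 i v)
      have e1 : ∑ y, (if x i ≠ y i then (if h x = true then Γ x y else 0) +
          (if g x = true then Δ x y else 0) else 0) * v y =
          if g x = true then ∑ y, (if x i ≠ y i then Δ x y else 0) * v y else 0 := by
        have e2 : ∀ y, (if x i ≠ y i then (if h x = true then Γ x y else 0) +
          (if g x = true then Δ x y else 0) else 0) =
          if g x = true then (if x i ≠ y i then Δ x y else 0) else 0 := by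
          intro y
          by_cases hxy : x i = y i
          · simp [hxy]
          · have h0 : Γ x y = 0 := by
              by_contra h1
              exact hxy (p4 x y h1 i hi)
            rw [h0]
            simp [hxy]
        simp only [e2]
        split_ifs
        · rfl
        · simp
      rw [e1]
      split_ifs
      · exact le_rfl
      · rw [zero_pow two_ne_zero]
        exact sq_nonneg _

/-- Flipping a coordinate. -/
private def PTreeFl {n : ℕ} (v : Fin n) (x : Fin n → Bool) : Fin n → Bool :=
  Function.update x v (!(x v))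

private theorem PTreeFl_self {n : ℕ} (v : Fin n) (x : Fin n → Bool) :
    PTreeFl v x v = !(x v) := by
  rw [PTreeFl, Function.update_self]

private theorem PTreeFl_ne {n : ℕ} {v i : Fin n} (hi : i ≠ v) (x : Fin n → Bool) :
    PTreeFl v x i = x i := by
  rw [PTreeFl, Function.update_of_ne hi]

private theorem PTreeFl_flip {n : ℕ} (v : Fin n) (x : Fin n → Bool) :
    PTreeFl v (PTreeFl v x) = x := by
  funext i
  by_cases hi : i = v
  · rw [hi, PTreeFl_self, PTreeFl_self, Bool.not_not]
  · rw [PTreeFl_ne hi, PTreeFl_ne hi]


private theorem PTreeFl_symm {n : ℕ} (i : Fin n) (x y : Fin n → Bool) :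
    y = PTreeFl i x ↔ x = PTreeFl i y := by
  constructor
  · rintro rfl
    rw [PTreeFl_flip]
  · rintro rfl
    rw [PTreeFl_flip]

private theorem PTreeFl_iff {n : ℕ} (i j : Fin n) (x : Fin n → Bool) :
    x i ≠ PTreeFl j x i ↔ j = i := by
  unfold PTreeFl
  by_cases h : i = j
  · subst h
    simp
  · simp [Function.update_of_ne h, Ne.symm h]

/-- The parity of the variables in `S`. -/
private def PTreePar {n : ℕ} (S : Finset (Fin n)) (x : Fin n → Bool) : Bool :=
  decide (Odd (S.filter (fun i => x i = true)).card)

private theorem PTreePar_flip {n : ℕ} {S : Finset (Fin n)} {i : Fin n} (hi : i ∈ S)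
    (x : Fin n → Bool) : PTreePar S (PTreeFl i x) ≠ PTreePar S x := by
  have key : ∀ y : Fin n → Bool, (S.filter (fun j => y j = true)).card =
      (if y i = true then 1 else 0) + ∑ j ∈ S.erase i, if y j = true then 1 else 0 := by
    intro y
    rw [Finset.card_filter, ← Finset.add_sum_erase S _ hi]
  have h1 := key x
  have h2 := key (PTreeFl i x)
  have h3 : (∑ j ∈ S.erase i, if PTreeFl i x j = true then 1 else 0) =
      ∑ j ∈ S.erase i, if x j = true then 1 else 0 := by
    refine Finset.sum_congr rfl fun j hj => ?_
    have h4 : PTreeFl i x j = x j := Function.update_of_ne (Finset.ne_of_mem_erase hj) _ _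
    rw [h4]
  have h4 : PTreeFl i x i = !x i := Function.update_self _ _ _
  rw [h3, h4] at h2
  unfold PTreePar
  rw [h1, h2]
  intro h
  rw [decide_eq_decide] at h
  cases hx : x i
  · rw [hx] at h
    simp only [Bool.not_false, if_true, Bool.false_eq_true, if_false, zero_add] at h
    rw [Nat.odd_add, Nat.odd_iff, Nat.even_iff] at h
    rw [Nat.odd_iff] at h
    omega
  · rw [hx] at h
    simp only [Bool.not_true, if_true, Bool.false_eq_true, if_false, zero_add] at h
    rw [Nat.odd_add, Nat.odd_iff, Nat.even_iff] at h
    rw [Nat.odd_iff] at h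
    omega

private theorem PTree_par {n : ℕ} (S : Finset (Fin n)) (b : Bool) :
    PTreeP (fun x => (PTree.par S b).eval x) S (S.card : ℝ) := by
  refine ⟨fun x y => ∑ i ∈ S, if y = PTreeFl i x then 1 else 0, fun _ => 1, ?_, ?_, ?_, ?_,
    fun _ => zero_le_one, fun _ _ _ => rfl, ⟨fun _ => false, one_ne_zero⟩, ?_, ?_⟩
  · intro x y
    refine Finset.sum_nonneg fun i _ => ?_
    split_ifs <;> norm_num
  · intro x y
    refine Finset.sum_congr rfl fun i _ => ?_
    simp only [PTreeFl_symm i x y]
  · intro x y hxy
    refine Finset.sum_eq_zero fun i hi => ?_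
    rw [if_neg]
    rintro rfl
    have h1 := PTreePar_flip hi x
    unfold PTreePar at h1
    simp only [PTree.eval] at hxy
    apply h1
    rcases b with _ | _
    · simpa using hxy.symm
    · simpa using hxy.symm
  · intro x y hxy i hi
    by_contra hne
    apply hxy
    refine Finset.sum_eq_zero fun j hj => ?_
    rw [if_neg]
    rintro rfl
    have h1 := (PTreeFl_iff i j x).1 hne
    exact hi (h1 ▸ hj)
  · intro x
    simp only [mul_one]
    rw [Finset.sum_comm]
    simp
  · intro i v
    by_cases hiS : i ∈ S
    · have h1 : ∀ x, (∑ y, (if x i ≠ y i then ∑ j ∈ S, (if y = PTreeFl j x then (1 : ℝ) else 0)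
          else 0) * v y) = v (PTreeFl i x) := by
        intro x
        have h2 : ∀ y, (if x i ≠ y i then ∑ j ∈ S, (if y = PTreeFl j x then (1 : ℝ) else 0)
            else 0) = if y = PTreeFl i x then 1 else 0 := by
          intro y
          by_cases h : y = PTreeFl i x
          · subst h
            rw [if_pos ((PTreeFl_iff i i x).2 rfl), if_pos rfl, Finset.sum_eq_single i]
            · rw [if_pos rfl]
            · intro j _ hji
              rw [if_neg]
              intro h3
              have h4 : x i ≠ PTreeFl j x i := by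
                rw [← h3]
                exact (PTreeFl_iff i i x).2 rfl
              exact hji ((PTreeFl_iff i j x).1 h4)
            · intro h3
              exact absurd hiS h3
          · rw [if_neg h]
            split_ifs with h3
            · refine Finset.sum_eq_zero fun j _ => ?_
              rw [if_neg]
              rintro rfl
              have h4 := (PTreeFl_iff i j x).1 h3
              subst h4
              exact h rfl
            · rfl
        simp only [h2]
        simp
      simp only [h1]
      have h5 : (∑ x, v (PTreeFl i x) ^ 2) = ∑ x, v x ^ 2 :=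
        Equiv.sum_comp (⟨PTreeFl i, PTreeFl i, PTreeFl_flip i, PTreeFl_flip i⟩ :
          (Fin n → Bool) ≃ (Fin n → Bool)) (fun x => v x ^ 2)
      exact h5.le
    · have h1 : ∀ x, (∑ y, (if x i ≠ y i then ∑ j ∈ S, (if y = PTreeFl j x then (1 : ℝ) else 0)
          else 0) * v y) = 0 := by
        intro x
        refine Finset.sum_eq_zero fun y _ => ?_
        split_ifs with h3
        · have h6 : ∑ j ∈ S, (if y = PTreeFl j x then (1 : ℝ) else 0) = 0 := by
            refine Finset.sum_eq_zero fun j hj => ?_
            rw [if_neg]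
            rintro rfl
            exact hiS ((PTreeFl_iff i j x).1 h3 ▸ hj)
          rw [h6, zero_mul]
        · rw [zero_mul]
      simp only [h1]
      rw [zero_pow two_ne_zero, Finset.sum_const_zero]
      exact Finset.sum_nonneg fun x _ => sq_nonneg _

private theorem PTree_dep {n : ℕ} (T : PTree n) : ∀ x y : Fin n → Bool,
    (∀ i ∈ T.vars, x i = y i) → T.eval x = T.eval y := by
  induction T with
  | par S b =>
    intro x y hxy
    simp only [PTree.eval]
    have : S.filter (fun i => x i = true) = S.filter (fun i => y i = true) := by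
      refine Finset.filter_congr fun i hi => ?_
      rw [hxy i hi]
    rw [this]
  | and F G ihF ihG =>
    intro x y hxy
    simp only [PTree.eval]
    rw [ihF x y fun i hi => hxy i (Finset.mem_union_left _ hi),
      ihG x y fun i hi => hxy i (Finset.mem_union_right _ hi)]
  | or F G ihF ihG =>
    intro x y hxy
    simp only [PTree.eval]
    rw [ihF x y fun i hi => hxy i (Finset.mem_union_left _ hi),
      ihG x y fun i hi => hxy i (Finset.mem_union_right _ hi)]

private theorem PTree_main {n : ℕ} (F : PTree n) : F.OK →
    0 < F.weight ∧ PTreeP (fun x => F.eval x) F.vars (Real.sqrt F.weight) := by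
  induction F with
  | par S b =>
    intro h
    have hc : 0 < S.card := Finset.card_pos.2 h
    refine ⟨by simp only [PTree.weight]; positivity, ?_⟩
    have h1 : Real.sqrt ((PTree.par S b).weight : ℝ) = S.card := by
      simp [PTree.weight]
    rw [h1]
    exact PTree_par S b
  | and F G ihF ihG =>
    rintro ⟨hF, hG, hd⟩
    obtain ⟨sF, pF⟩ := ihF hF
    obtain ⟨sG, pG⟩ := ihG hG
    have tF : (0 : ℝ) < F.weight := Nat.cast_pos.2 sF
    have tG : (0 : ℝ) < G.weight := Nat.cast_pos.2 sG
    have e1 : ((PTree.and F G).weight : ℝ) = F.weight + G.weight := by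
      simp [PTree.weight]
    refine ⟨Nat.add_pos_left sF _, ?_⟩
    rw [e1]
    refine PTree_and (Real.sqrt_pos.2 tF) (Real.sqrt_pos.2 tG) (Real.sqrt_pos.2 (by linarith)) ?_
      (PTree_dep F) (PTree_dep G) hd pF pG
    rw [Real.sq_sqrt tF.le, Real.sq_sqrt tG.le, Real.sq_sqrt (by linarith)]
  | or F G ihF ihG =>
    rintro ⟨hF, hG, hd⟩
    obtain ⟨sF, pF⟩ := ihF hF
    obtain ⟨sG, pG⟩ := ihG hG
    have tF : (0 : ℝ) < F.weight := Nat.cast_pos.2 sF
    have tG : (0 : ℝ) < G.weight := Nat.cast_pos.2 sG
    have e1 : ((PTree.or F G).weight : ℝ) = F.weight + G.weight := by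
      simp [PTree.weight]
    refine ⟨Nat.add_pos_left sF _, ?_⟩
    rw [e1]
    have h1 := PTree_and (Real.sqrt_pos.2 tF) (Real.sqrt_pos.2 tG)
      (Real.sqrt_pos.2 (show (0 : ℝ) < F.weight + G.weight by linarith))
      (by rw [Real.sq_sqrt tF.le, Real.sq_sqrt tG.le, Real.sq_sqrt (by linarith)])
      (g := fun x => !(F.eval x)) (h := fun x => !(G.eval x))
      (fun x y hxy => by simp only [PTree_dep F x y hxy])
      (fun x y hxy => by simp only [PTree_dep G x y hxy]) hd
      (PTree_not (fun _ => rfl) pF) (PTree_not (fun _ => rfl) pG)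
    refine PTree_not (fun x => ?_) h1
    simp only [PTree.eval]
    rcases F.eval x with _ | _ <;> rcases G.eval x with _ | _ <;> rfl

theorem hasAdv_pTree {n : ℕ} (T : PTree n) (hT : T.OK) :
    HasAdv (fun x => T.eval x) (Real.sqrt T.weight) := by
  obtain ⟨-, Γ, e, h1, h2, h3, h4, h5, h6, h7, h8, h9⟩ := PTree_main T hT
  exact ⟨Γ, e, h1, h2, h3, h5, h7, h8, h9⟩

theorem fsize_pTree {n : ℕ} (T : PTree n) : fsize (fun x => T.eval x) ≤ 4 * T.weight := by
  induction T with
  | par S b =>
    have h1 := fsize_xor S (fun i (x : Fin n → Bool) => x i) 1 (fun i _ =>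
      fsize_le (Fm.lit i true) _ (fun x => by simp [Fm.eval]))
    rw [mul_one] at h1
    rcases b with _ | _
    · simpa [PTree.eval, PTree.weight] using h1
    · have h2 := fsize_not (fun x : Fin n → Bool =>
        decide (Odd (S.filter (fun i => x i = true)).card))
      rw [← h2] at h1
      simpa [PTree.eval, PTree.weight] using h1
  | and T R ihT ihR =>
    have h1 := fsize_and (fun x => T.eval x) (fun x => R.eval x)
    simp only [PTree.eval, PTree.weight]
    omega
  | or T R ihT ihR =>
    have h1 := fsize_or (fun x => T.eval x) (fun x => R.eval x)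
    simp only [PTree.eval, PTree.weight]
    omega

end Pool.Agent.H.MP_027d00_lc.AdvC
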