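import Pool.Agent.H.MP_027d00_lc.adv.Main
import Pool.Agent.H.MP_027d00_lc.adv.PTree

/-!
# Monotonicity of the adversary bound; composition with AND-OR trees of parities
-/

set_option autoImplicit false

namespace Pool.Agent.H.MP_027d00_lc.AdvC

open UComp

theorem HasAdv.nonneg {n : ℕ} {g : (Fin n → Bool) → Bool} {lam : ℝ} (h : HasAdv g lam) :
    0 ≤ lam := by
  obtain ⟨Γ, e, h1, -, -, h4, ⟨x, hx⟩, h6, -⟩ := h
  by_contra hlam
  push Not at hlam
  have h7 := h6 x
  have h8 : 0 ≤ ∑ y, Γ x y * e y := Finset.sum_nonneg fun y _ => mul_nonneg (h1 x y) (h4 y)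
  have h9 : lam * e x < 0 := mul_neg_of_neg_of_pos hlam (lt_of_le_of_ne (h4 x) (Ne.symm hx))
  linarith

/-- `HasAdv g lam` means that the adversary bound of `g` is at least `lam`. -/
theorem HasAdv.mono {n : ℕ} {g : (Fin n → Bool) → Bool} {lam mu : ℝ} (h : HasAdv g lam)
    (hmu : 0 ≤ mu) (hle : mu ≤ lam) : HasAdv g mu := by
  rcases eq_or_lt_of_le (le_trans hmu hle) with h0 | h0
  · have : mu = lam := by linarith
    rwa [this]
  obtain ⟨Γ, e, h1, h2, h3, h4, h5, h6, h7⟩ := h
  refine ⟨fun x y => mu / lam * Γ x y, e, ?_, ?_, ?_, h4, h5, ?_, ?_⟩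
  · exact fun x y => mul_nonneg (div_nonneg hmu h0.le) (h1 x y)
  · intro x y
    show mu / lam * Γ x y = mu / lam * Γ y x
    rw [h2 x y]
  · intro x y hxy
    simp [h3 x y hxy]
  · intro x
    have : ∀ y, mu / lam * Γ x y * e y = mu / lam * (Γ x y * e y) := fun y => by ring
    rw [Finset.sum_congr rfl fun y _ => this y, ← Finset.mul_sum, h6 x]
    field_simp
  · intro i v
    have hc : (mu / lam) ^ 2 ≤ 1 := by
      rw [div_pow, div_le_one (by positivity)]
      exact pow_le_pow_left₀ hmu hle 2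
    have h8 : ∀ x, (∑ y, (if x i ≠ y i then mu / lam * Γ x y else 0) * v y) ^ 2 =
        (mu / lam) ^ 2 * (∑ y, (if x i ≠ y i then Γ x y else 0) * v y) ^ 2 := by
      intro x
      rw [← mul_pow, Finset.mul_sum]
      congr 1
      refine Finset.sum_congr rfl fun y _ => ?_
      split_ifs <;> ring
    rw [Finset.sum_congr rfl fun x _ => h8 x, ← Finset.mul_sum]
    have h9 : 0 ≤ ∑ x, (∑ y, (if x i ≠ y i then Γ x y else 0) * v y) ^ 2 :=
      Finset.sum_nonneg fun x _ => sq_nonneg _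
    nlinarith [h7 i v]

theorem main_pTree {m n k : ℕ} (f : (Fin m → Bool) → Bool) (T : Fin m → PTree n)
    (hT : ∀ j, (T j).OK ∧ k ≤ fsize (fun x => (T j).eval x)) :
    (fsize f : ℝ) * k ≤ 24 * 28800 ^ 2 * fsize (comp f (fun j x => (T j).eval x)) := by
  have h := main f (fun j x => (T j).eval x) (Real.sqrt (k / 4)) (fun j =>
    (hasAdv_pTree (T j) (hT j).1).mono (Real.sqrt_nonneg _) (Real.sqrt_le_sqrt (by
      have h1 : k ≤ 4 * (T j).weight := (hT j).2.trans (fsize_pTree (T j))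
      have h2 : (k : ℝ) ≤ 4 * (T j).weight := by exact_mod_cast h1
      linarith)))
  rw [Real.sq_sqrt (by positivity)] at h
  linarith

end Pool.Agent.H.MP_027d00_lc.AdvC
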