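import Pool.Agent.H.MP_027d00_lc.adv.Defs

/-!
# Operator norms of kernels
-/

set_option autoImplicit false

namespace Pool.Agent.H.MP_027d00_lc.AdvC

section general

variable {Ω : Type} [Fintype Ω]

theorem nrm_nonneg (f : Ω → ℝ) : 0 ≤ nrm f := Real.sqrt_nonneg _

theorem nrm_sq (f : Ω → ℝ) : nrm f ^ 2 = ∑ U, f U ^ 2 :=
  Real.sq_sqrt (Finset.sum_nonneg fun _ _ => sq_nonneg _)

theorem sum_mul_le_nrm (f g : Ω → ℝ) : ∑ U, f U * g U ≤ nrm f * nrm g :=
  Real.sum_mul_le_sqrt_mul_sqrt Finset.univ f g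

theorem Bd.apply {K : Ω → Ω → ℝ} {M : ℝ} (h : Bd K M) (hM : 0 ≤ M) (g : Ω → ℝ) :
    nrm (fun U => ∑ V, K U V * g V) ≤ M * nrm g := by
  have h1 := h (fun U => ∑ V, K U V * g V) g
  have h2 := nrm_sq (fun U => ∑ V, K U V * g V)
  have h3 := nrm_nonneg (fun U => ∑ V, K U V * g V)
  have h4 := nrm_nonneg g
  set N := nrm (fun U => ∑ V, K U V * g V) with hN
  have h5 : N ^ 2 ≤ M * N * nrm g := by
    rw [h2]
    refine le_trans (le_of_eq ?_) h1
    exact Finset.sum_congr rfl fun U _ => sq _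
  rcases h3.eq_or_lt with h6 | h6
  · rw [← h6]
    exact mul_nonneg hM h4
  · have h7 : N * N ≤ N * (M * nrm g) := by nlinarith
    exact le_of_mul_le_mul_left h7 h6

theorem bd_of_apply {K : Ω → Ω → ℝ} {M : ℝ}
    (h : ∀ g : Ω → ℝ, nrm (fun U => ∑ V, K U V * g V) ≤ M * nrm g) : Bd K M := by
  intro f g
  refine (sum_mul_le_nrm f (fun U => ∑ V, K U V * g V)).trans ?_
  have h1 := mul_le_mul_of_nonneg_left (h g) (nrm_nonneg f)
  refine h1.trans (le_of_eq ?_)
  ring

theorem Bd.mono {K : Ω → Ω → ℝ} {M N : ℝ} (h : Bd K M) (hMN : M ≤ N) : Bd K N := by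
  intro f g
  refine (h f g).trans ?_
  exact mul_le_mul_of_nonneg_right (mul_le_mul_of_nonneg_right hMN (nrm_nonneg f)) (nrm_nonneg g)

theorem Bd.kmul {K L : Ω → Ω → ℝ} {M N : ℝ} (hK : Bd K M) (hL : Bd L N) (hM : 0 ≤ M)
    (hN : 0 ≤ N) : Bd (kmul K L) (M * N) := by
  intro f g
  have h1 := hK f (fun W => ∑ V, L W V * g V)
  have h2 := hL.apply hN g
  have h3 : ∑ U, f U * (∑ V, AdvC.kmul K L U V * g V) =
      ∑ U, f U * (∑ W, K U W * (∑ V, L W V * g V)) := by
    refine Finset.sum_congr rfl fun U _ => ?_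
    congr 1
    simp only [AdvC.kmul, Finset.sum_mul, Finset.mul_sum]
    rw [Finset.sum_comm]
    refine Finset.sum_congr rfl fun W _ => Finset.sum_congr rfl fun V _ => ?_
    ring
  rw [h3]
  refine h1.trans ?_
  have h4 := mul_le_mul_of_nonneg_left h2 (mul_nonneg hM (nrm_nonneg f))
  refine h4.trans (le_of_eq ?_)
  ring

theorem Bd.add {K L : Ω → Ω → ℝ} {M N : ℝ} (hK : Bd K M) (hL : Bd L N) :
    Bd (fun U V => K U V + L U V) (M + N) := by
  intro f g
  have h1 := hK f g
  have h2 := hL f g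
  have h3 : ∑ U, f U * (∑ V, (K U V + L U V) * g V) =
      ∑ U, f U * (∑ V, K U V * g V) + ∑ U, f U * (∑ V, L U V * g V) := by
    rw [← Finset.sum_add_distrib]
    refine Finset.sum_congr rfl fun U _ => ?_
    rw [← mul_add, ← Finset.sum_add_distrib]
    congr 1
    refine Finset.sum_congr rfl fun V _ => ?_
    ring
  rw [h3]
  linarith

theorem Bd.sum {I : Type} [Fintype I] {K : I → Ω → Ω → ℝ} {M : I → ℝ} (hK : ∀ i, Bd (K i) (M i)) :
    Bd (fun U V => ∑ i, K i U V) (∑ i, M i) := by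
  intro f g
  have h3 : ∑ U, f U * (∑ V, (∑ i, K i U V) * g V) =
      ∑ i, ∑ U, f U * (∑ V, K i U V * g V) := by
    rw [Finset.sum_comm]
    refine Finset.sum_congr rfl fun U _ => ?_
    rw [← Finset.mul_sum]
    congr 1
    rw [Finset.sum_comm]
    refine Finset.sum_congr rfl fun V _ => ?_
    rw [Finset.sum_mul]
  rw [h3, Finset.sum_mul, Finset.sum_mul]
  exact Finset.sum_le_sum fun i _ => hK i f g

theorem bd_one [DecidableEq Ω] : Bd (fun U V : Ω => if U = V then 1 else 0) 1 := by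
  intro f g
  have h1 : ∀ U : Ω, ∑ V, (if U = V then (1 : ℝ) else 0) * g V = g U := by
    intro U
    rw [Finset.sum_eq_single U]
    · simp
    · intro V _ hV
      rw [if_neg (fun h => hV h.symm), zero_mul]
    · intro h
      exact absurd (Finset.mem_univ U) h
  simp only [h1, one_mul]
  exact sum_mul_le_nrm f g

/-- Sandwich: `∑_v D_v K_v D_v` with `D_v` the multiplication by the square root of `w · v`. -/
theorem bd_sandwich {I : Type} [Fintype I] {w : Ω → I → ℝ} {K : I → Ω → Ω → ℝ} {A M : ℝ}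
    (hw : ∀ U v, 0 ≤ w U v) (hA : ∀ U, ∑ v, w U v ≤ A) (hM : 0 ≤ M) (hK : ∀ v, Bd (K v) M) :
    Bd (fun U V => ∑ v, Real.sqrt (w U v) * K v U V * Real.sqrt (w V v)) (M * A) := by
  intro f g
  rcases isEmpty_or_nonempty Ω with hΩ | ⟨⟨U0⟩⟩
  · have h1 : nrm f = 0 := by
      unfold nrm
      simp
    rw [h1]
    simp
  have hA0 : 0 ≤ A := (Finset.sum_nonneg fun v _ => hw U0 v).trans (hA U0)
  have key : ∀ φ : Ω → ℝ, ∑ v, nrm (fun U => Real.sqrt (w U v) * φ U) ^ 2 ≤ A * nrm φ ^ 2 := by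
    intro φ
    have h1 : ∀ v, nrm (fun U => Real.sqrt (w U v) * φ U) ^ 2 = ∑ U, w U v * φ U ^ 2 := by
      intro v
      rw [nrm_sq]
      refine Finset.sum_congr rfl fun U _ => ?_
      rw [mul_pow, Real.sq_sqrt (hw U v)]
    rw [Finset.sum_congr rfl fun v _ => h1 v, Finset.sum_comm, nrm_sq, Finset.mul_sum]
    refine Finset.sum_le_sum fun U _ => ?_
    rw [← Finset.sum_mul]
    exact mul_le_mul_of_nonneg_right (hA U) (sq_nonneg _)
  have h3 : ∑ U, f U * (∑ V, (∑ v, Real.sqrt (w U v) * K v U V * Real.sqrt (w V v)) * g V) =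
      ∑ v, ∑ U, (Real.sqrt (w U v) * f U) * (∑ V, K v U V * (Real.sqrt (w V v) * g V)) := by
    rw [Finset.sum_comm]
    refine Finset.sum_congr rfl fun U _ => ?_
    have h4 : ∀ v, Real.sqrt (w U v) * f U * (∑ V, K v U V * (Real.sqrt (w V v) * g V)) =
        f U * (∑ V, Real.sqrt (w U v) * K v U V * Real.sqrt (w V v) * g V) := by
      intro v
      rw [Finset.mul_sum, Finset.mul_sum]
      refine Finset.sum_congr rfl fun V _ => ?_
      ring
    rw [Finset.sum_congr rfl fun v _ => h4 v, ← Finset.mul_sum]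
    congr 1
    rw [Finset.sum_comm]
    refine Finset.sum_congr rfl fun V _ => ?_
    rw [Finset.sum_mul]
  rw [h3]
  have h5 : ∑ v, ∑ U, (Real.sqrt (w U v) * f U) * (∑ V, K v U V * (Real.sqrt (w V v) * g V)) ≤
      ∑ v, M * (nrm (fun U => Real.sqrt (w U v) * f U) *
        nrm (fun U => Real.sqrt (w U v) * g U)) := by
    refine Finset.sum_le_sum fun v _ => ?_
    refine (hK v (fun U => Real.sqrt (w U v) * f U) (fun U => Real.sqrt (w U v) * g U)).trans
      (le_of_eq ?_)
    ring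
  refine h5.trans ?_
  rw [← Finset.mul_sum]
  have h6 : ∑ v, nrm (fun U => Real.sqrt (w U v) * f U) *
      nrm (fun U => Real.sqrt (w U v) * g U) ≤ A * nrm f * nrm g := by
    have h7 := sum_mul_le_nrm (fun v => nrm (fun U => Real.sqrt (w U v) * f U))
      (fun v => nrm (fun U => Real.sqrt (w U v) * g U))
    refine h7.trans ?_
    have h8 := nrm_sq (fun v => nrm (fun U => Real.sqrt (w U v) * f U))
    have h9 := nrm_sq (fun v => nrm (fun U => Real.sqrt (w U v) * g U))
    have h10 := key f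
    have h11 := key g
    have h12 := nrm_nonneg (fun v => nrm (fun U => Real.sqrt (w U v) * f U))
    have h13 := nrm_nonneg (fun v => nrm (fun U => Real.sqrt (w U v) * g U))
    have h14 := nrm_nonneg f
    have h15 := nrm_nonneg g
    refine abs_le_of_sq_le_sq' ?_ (mul_nonneg (mul_nonneg hA0 h14) h15) |>.2
    rw [mul_pow, h8, h9]
    have h16 : (∑ v, nrm (fun U => Real.sqrt (w U v) * f U) ^ 2) *
        (∑ v, nrm (fun U => Real.sqrt (w U v) * g U) ^ 2) ≤ (A * nrm f ^ 2) * (A * nrm g ^ 2) :=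
      mul_le_mul h10 h11 (Finset.sum_nonneg fun _ _ => sq_nonneg _)
        (mul_nonneg hA0 (sq_nonneg _))
    refine h16.trans (le_of_eq ?_)
    ring
  have h17 := mul_le_mul_of_nonneg_left h6 hM
  refine h17.trans (le_of_eq ?_)
  ring

end general

/-- A matrix of norm at most one, acting on one block. -/
theorem bd_blk {ι α : Type} [Fintype ι] [DecidableEq ι] [Fintype α] [DecidableEq α]
    {G : α → α → ℝ} (j : ι)
    (hG : ∀ v : α → ℝ, ∑ x, (∑ y, G x y * v y) ^ 2 ≤ ∑ x, v x ^ 2) : Bd (blk G j) 1 := by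
  refine bd_of_apply fun g => ?_
  rw [one_mul]
  have hap : ∀ U : ι → α, ∑ V, blk G j U V * g V =
      ∑ y, G (U j) y * g (Function.update U j y) := by
    intro U
    have h1 : ∀ y : α, G (U j) y * g (Function.update U j y) =
        blk G j U (Function.update U j y) * g (Function.update U j y) := by
      intro y
      unfold blk
      rw [if_pos (fun l hl => by rw [Function.update_of_ne hl]), Function.update_self]
    rw [Finset.sum_congr rfl fun y _ => h1 y]
    rw [← Finset.sum_image (s := Finset.univ) (g := fun y => Function.update U j y)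
      (f := fun V => blk G j U V * g V)
      (fun a _ b _ hab => by
        have h2 := congrFun hab j
        simpa using h2)]
    symm
    refine Finset.sum_subset (Finset.subset_univ _) fun V _ hV => ?_
    have h3 : ¬ ∀ l, l ≠ j → U l = V l := by
      intro h4
      refine hV (Finset.mem_image.2 ⟨V j, Finset.mem_univ _, ?_⟩)
      funext l
      by_cases hl : l = j
      · subst hl
        rw [Function.update_self]
      · rw [Function.update_of_ne hl, h4 l hl]
    unfold blk
    rw [if_neg h3, zero_mul]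
  unfold nrm
  refine Real.sqrt_le_sqrt ?_
  have h5 : ∀ F : (ι → α) → ℝ, ∑ U, F U =
      ∑ r : ({i // i ≠ j} → α), ∑ x : α, F ((Equiv.funSplitAt j α).symm (x, r)) := by
    intro F
    rw [← (Equiv.funSplitAt j α).symm.sum_comp F, Fintype.sum_prod_type_right]
  rw [h5, h5 (fun U => g U ^ 2)]
  refine Finset.sum_le_sum fun r _ => ?_
  refine le_trans (le_of_eq ?_) (hG fun y => g ((Equiv.funSplitAt j α).symm (y, r)))
  refine Finset.sum_congr rfl fun x _ => ?_
  have h8 := hap ((Equiv.funSplitAt j α).symm (x, r))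
  show (∑ V, blk G j ((Equiv.funSplitAt j α).symm (x, r)) V * g V) ^ 2 = _
  rw [h8]
  congr 1
  refine Finset.sum_congr rfl fun y _ => ?_
  have h6 : (Equiv.funSplitAt j α).symm (x, r) j = x := by
    simp [Equiv.funSplitAt]
  have h7 : Function.update ((Equiv.funSplitAt j α).symm (x, r)) j y =
      (Equiv.funSplitAt j α).symm (y, r) := by
    funext l
    by_cases hl : l = j
    · subst hl
      simp [Equiv.funSplitAt]
    · rw [Function.update_of_ne hl]
      simp [Equiv.funSplitAt, hl]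
  rw [h6, h7]

end Pool.Agent.H.MP_027d00_lc.AdvC
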