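import Pool.Agent.H.MP_027d00_lc.adv.Defs

/-!
# AND-OR trees of parities: definitions
-/

set_option autoImplicit false

namespace Pool.Agent.H.MP_027d00_lc.AdvC

/-- Trees with fan-in two AND and OR gates whose leaves are parities of sets of variables or
their negations. -/
inductive PTree (n : ℕ) : Type
  | par (S : Finset (Fin n)) (b : Bool)
  | and (T R : PTree n)
  | or (T R : PTree n)

/-- The value of a tree: the leaf `par S b` is the parity of the variables in `S`, negated if
`b = true`. -/
def PTree.eval {n : ℕ} (x : Fin n → Bool) : PTree n → Bool
  | .par S b => xor (decide (Odd (S.filter (fun i => x i = true)).card)) b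
  | .and T R => T.eval x && R.eval x
  | .or T R => T.eval x || R.eval x

/-- The set of the variables of a tree. -/
def PTree.vars {n : ℕ} : PTree n → Finset (Fin n)
  | .par S _ => S
  | .and T R => T.vars ∪ R.vars
  | .or T R => T.vars ∪ R.vars

/-- The parities are of nonempty, pairwise disjoint sets of variables. -/
def PTree.OK {n : ℕ} : PTree n → Prop
  | .par S _ => S.Nonempty
  | .and T R => T.OK ∧ R.OK ∧ Disjoint T.vars R.vars
  | .or T R => T.OK ∧ R.OK ∧ Disjoint T.vars R.vars

/-- The sum of the squares of the numbers of variables of the parities. -/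
def PTree.weight {n : ℕ} : PTree n → ℕ
  | .par S _ => S.card ^ 2
  | .and T R => T.weight + R.weight
  | .or T R => T.weight + R.weight

end Pool.Agent.H.MP_027d00_lc.AdvC
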