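import Pool.Agent.H.MP_027d00_lc.adv.Defs

/-!
# Boolean functions of degree `d` have at most `10 ^ d` nonzero coefficients
-/

set_option autoImplicit false

namespace Pool.Agent.H.MP_027d00_lc.AdvC

variable {ι : Type} [Fintype ι] [DecidableEq ι]

/-- The coefficient (up to sign) of the monomial `∏_(i ∈ D) z_i` of `h`. -/
def co (h : (ι → Bool) → Bool) (D : Finset ι) : ℤ :=
  cfD h (fun _ => false) (fun _ => true) D

open Finset

private def polyCc (F : Finset ι → ℤ) (D : Finset ι) : ℤ := ∑ T ∈ D.powerset, (-1) ^ T.card * F T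

private def polyG (T : Finset ι) (i : ι) : ℤ := if i ∈ T then -1 else 1

private def polyC (F : Finset ι → ℤ) (T : Finset ι) : ℤ := ∑ S : Finset ι, F S * ∏ i ∈ S, polyG T i

omit [Fintype ι] in
private theorem poly_indic (A D S : Finset ι) (hD : D ⊆ A) :
    ∏ i ∈ A \ S, (if i ∈ D then (0 : ℤ) else 1) = if D ⊆ S then 1 else 0 := by
  split_ifs with h
  · refine prod_eq_one fun i hi => ?_
    rw [if_neg]
    exact fun hiD => (mem_sdiff.1 hi).2 (h hiD)
  · obtain ⟨i, hi, hiS⟩ := not_subset.1 h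
    exact prod_eq_zero (mem_sdiff.2 ⟨hD hi, hiS⟩) (if_pos hi)

omit [Fintype ι] in
private theorem poly_mobius (F : Finset ι → ℤ) (S : Finset ι) :
    ∑ D ∈ S.powerset, (-1) ^ D.card * polyCc F D = F S := by
  have h1 : ∀ D ∈ S.powerset, (-1 : ℤ) ^ D.card * polyCc F D =
      ∑ T ∈ S.powerset, ((-1) ^ T.card * F T) * ((-1) ^ D.card * if T ⊆ D then 1 else 0) := by
    intro D hD
    unfold polyCc
    rw [mul_sum]
    have h2 : D.powerset = S.powerset.filter fun T => T ⊆ D := by
      ext T
      rw [mem_powerset, mem_filter, mem_powerset]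
      exact ⟨fun h => ⟨h.trans (mem_powerset.1 hD), h⟩, fun h => h.2⟩
    rw [h2, sum_filter]
    refine sum_congr rfl fun T _ => ?_
    split_ifs <;> ring
  rw [sum_congr rfl h1, sum_comm]
  have h3 : ∀ T ∈ S.powerset, ∑ D ∈ S.powerset, ((-1 : ℤ) ^ T.card * F T) *
      ((-1) ^ D.card * if T ⊆ D then 1 else 0) = if T = S then F S else 0 := by
    intro T hT
    rw [← mul_sum]
    have hTS := mem_powerset.1 hT
    have h4 : ∑ D ∈ S.powerset, ((-1 : ℤ) ^ D.card * if T ⊆ D then 1 else 0) =
        ∏ i ∈ S, (-1 + if i ∈ T then (0 : ℤ) else 1) := by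
      rw [prod_add]
      refine sum_congr rfl fun D _ => ?_
      rw [poly_indic S T D hTS, prod_const]
    rw [h4]
    split_ifs with h
    · subst h
      have h5 : ∏ i ∈ T, (-1 + if i ∈ T then (0 : ℤ) else 1) = (-1) ^ T.card := by
        rw [← prod_const]
        refine prod_congr rfl fun i hi => ?_
        rw [if_pos hi]; norm_num
      rw [h5]
      have h6 : ((-1 : ℤ) ^ T.card) * (-1) ^ T.card = 1 := by
        rw [← mul_pow]; norm_num
      calc (-1 : ℤ) ^ T.card * F T * (-1) ^ T.card = ((-1 : ℤ) ^ T.card * (-1) ^ T.card) * F T := by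
            ring
        _ = F T := by rw [h6, one_mul]
    · obtain ⟨i, hi, hiT⟩ := exists_of_ssubset (lt_of_le_of_ne hTS h)
      rw [prod_eq_zero hi, mul_zero]
      rw [if_neg hiT]; norm_num
  rw [sum_congr rfl h3, sum_ite_eq' S.powerset S fun _ => F S, if_pos (mem_powerset_self S)]

private theorem poly_w (D T : Finset ι) :
    ∑ S : Finset ι, (if D ⊆ S then ∏ i ∈ S, polyG T i else 0) =
      ∏ i, (polyG T i + if i ∈ D then (0 : ℤ) else 1) := by
  rw [prod_add, powerset_univ]
  refine sum_congr rfl fun S _ => ?_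
  rw [poly_indic univ D S (subset_univ D)]
  split_ifs <;> simp

private theorem poly_c (F : Finset ι → ℤ) (T : Finset ι) :
    polyC F T = ∑ D : Finset ι, (-1) ^ D.card * polyCc F D *
      ∏ i, (polyG T i + if i ∈ D then (0 : ℤ) else 1) := by
  unfold polyC
  have h1 : ∀ S : Finset ι, F S * ∏ i ∈ S, polyG T i =
      ∑ D : Finset ι, (-1) ^ D.card * polyCc F D * (if D ⊆ S then ∏ i ∈ S, polyG T i else 0) := by
    intro S
    conv_lhs => rw [← poly_mobius F S]
    rw [sum_mul]
    have h2 : S.powerset = univ.filter fun D => D ⊆ S := by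
      ext D; simp
    rw [h2, sum_filter]
    refine sum_congr rfl fun D _ => ?_
    split_ifs <;> simp
  rw [sum_congr rfl fun S _ => h1 S, sum_comm]
  refine sum_congr rfl fun D _ => ?_
  rw [← mul_sum, poly_w]

private theorem poly_zero (F : Finset ι → ℤ) (d : ℕ) (hd : ∀ D : Finset ι, d < D.card → polyCc F D = 0)
    (T : Finset ι) (hT : d < T.card) : polyC F T = 0 := by
  rw [poly_c]
  refine sum_eq_zero fun D _ => ?_
  by_cases h : T ⊆ D
  · rw [hd D (hT.trans_le (card_le_card h))]
    ring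
  · obtain ⟨i, hi, hiD⟩ := not_subset.1 h
    have h2 : polyG T i + (if i ∈ D then (0 : ℤ) else 1) = 0 := by
      unfold polyG
      rw [if_pos hi, if_neg hiD]; norm_num
    have h3 : ∏ i, (polyG T i + if i ∈ D then (0 : ℤ) else 1) = 0 := prod_eq_zero (mem_univ i) h2
    rw [h3, mul_zero]

private theorem poly_dvd (F : Finset ι → ℤ) (d : ℕ) (hd : ∀ D : Finset ι, d < D.card → polyCc F D = 0)
    (T : Finset ι) : (2 : ℤ) ^ (Fintype.card ι - d) ∣ polyC F T := by
  rw [poly_c]
  refine dvd_sum fun D _ => ?_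
  by_cases h : d < D.card
  · rw [hd D h]; simp
  · refine Dvd.dvd.mul_left ?_ _
    have h1 : (2 : ℤ) ^ Dᶜ.card ∣ ∏ i ∈ Dᶜ, (polyG T i + if i ∈ D then (0 : ℤ) else 1) := by
      rw [← prod_const]
      refine prod_dvd_prod_of_dvd _ _ fun i hi => ?_
      rw [if_neg (mem_compl.1 hi)]
      unfold polyG
      split_ifs <;> norm_num
    have h2 : (2 : ℤ) ^ (Fintype.card ι - d) ∣ 2 ^ Dᶜ.card := by
      refine pow_dvd_pow 2 ?_
      rw [card_compl]
      omega
    rw [← prod_mul_prod_compl D]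
    exact (h2.trans h1).mul_left _

private theorem poly_orth (A B : Finset ι) :
    ∑ S : Finset ι, (∏ i ∈ S, polyG A i) * (∏ i ∈ S, polyG B i) =
      if A = B then (2 : ℤ) ^ Fintype.card ι else 0 := by
  have h1 : ∑ S : Finset ι, (∏ i ∈ S, polyG A i) * (∏ i ∈ S, polyG B i) =
      ∏ i, (polyG A i * polyG B i + 1) := by
    rw [prod_add, powerset_univ]
    refine sum_congr rfl fun S _ => ?_
    rw [prod_mul_distrib]; simp
  rw [h1]
  split_ifs with h
  · subst h
    have h2 : ∀ i ∈ (univ : Finset ι), polyG A i * polyG A i + 1 = 2 := by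
      intro i _
      unfold polyG
      split_ifs <;> norm_num
    rw [prod_congr rfl h2, prod_const, card_univ]
  · obtain ⟨i, hi⟩ : ∃ i, ¬ (i ∈ A ↔ i ∈ B) := by
      by_contra hc
      push Not at hc
      exact h (Finset.ext hc)
    refine prod_eq_zero (mem_univ i) ?_
    unfold polyG
    by_cases hA : i ∈ A <;> by_cases hB : i ∈ B <;> simp_all

omit [Fintype ι] in
private theorem poly_symm (A S : Finset ι) : ∏ i ∈ S, polyG A i = ∏ i ∈ A, polyG S i := by
  have h : ∀ A S : Finset ι, ∏ i ∈ S, polyG A i = (-1) ^ (S ∩ A).card := by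
    intro A S
    unfold polyG
    rw [prod_ite, prod_const, prod_const, one_pow, mul_one, filter_mem_eq_inter]
  rw [h, h, inter_comm]

private theorem poly_inv (F : Finset ι → ℤ) (S : Finset ι) :
    ∑ T : Finset ι, polyC F T * ∏ i ∈ S, polyG T i = 2 ^ Fintype.card ι * F S := by
  unfold polyC
  have h1 : ∀ T : Finset ι, (∑ S' : Finset ι, F S' * ∏ i ∈ S', polyG T i) * ∏ i ∈ S, polyG T i =
      ∑ S' : Finset ι, F S' * ((∏ i ∈ T, polyG S' i) * ∏ i ∈ T, polyG S i) := by
    intro T
    rw [sum_mul]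
    refine sum_congr rfl fun S' _ => ?_
    rw [poly_symm T S', poly_symm T S, mul_assoc]
  rw [sum_congr rfl fun T _ => h1 T, sum_comm]
  have h2 : ∀ S' : Finset ι, ∑ T : Finset ι, F S' * ((∏ i ∈ T, polyG S' i) * ∏ i ∈ T, polyG S i) =
      if S' = S then 2 ^ Fintype.card ι * F S else 0 := by
    intro S'
    rw [← mul_sum, poly_orth]
    split_ifs with h
    · rw [h]; ring
    · ring
  rw [sum_congr rfl fun S' _ => h2 S', sum_ite_eq' univ S, if_pos (mem_univ S)]

private theorem poly_parseval (F : Finset ι → ℤ) :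
    ∑ T : Finset ι, polyC F T ^ 2 = 2 ^ Fintype.card ι * ∑ S : Finset ι, F S ^ 2 := by
  have h1 : ∀ T : Finset ι, polyC F T ^ 2 =
      ∑ S : Finset ι, F S * (polyC F T * ∏ i ∈ S, polyG T i) := by
    intro T
    rw [sq]
    conv_lhs =>
      arg 1
      unfold polyC
    rw [sum_mul]
    refine sum_congr rfl fun S _ => ?_
    ring
  rw [sum_congr rfl fun T _ => h1 T, sum_comm, mul_sum]
  refine sum_congr rfl fun S _ => ?_
  rw [← mul_sum, poly_inv]
  ring

private theorem poly_co (F : Finset ι → ℤ) (D : Finset ι) (hD : polyCc F D ≠ 0) :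
    ∃ T : Finset ι, D ⊆ T ∧ polyC F T ≠ 0 := by
  by_contra hc
  push Not at hc
  apply hD
  have h1 : (2 : ℤ) ^ Fintype.card ι * polyCc F D =
      ∑ T : Finset ι, polyC F T * ∏ i ∈ D, (-polyG T i + 1) := by
    unfold polyCc
    rw [mul_sum]
    have h2 : ∀ S ∈ D.powerset, (2 : ℤ) ^ Fintype.card ι * ((-1) ^ S.card * F S) =
        ∑ T : Finset ι, polyC F T * ∏ i ∈ S, (-polyG T i) := by
      intro S _
      have h3 := poly_inv F S
      calc (2 : ℤ) ^ Fintype.card ι * ((-1) ^ S.card * F S) =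
          (-1) ^ S.card * (2 ^ Fintype.card ι * F S) := by ring
        _ = ∑ T : Finset ι, polyC F T * ∏ i ∈ S, (-polyG T i) := by
          rw [← h3, mul_sum]
          refine sum_congr rfl fun T _ => ?_
          rw [prod_neg]
          ring
    rw [sum_congr rfl h2, sum_comm]
    refine sum_congr rfl fun T _ => ?_
    rw [← mul_sum, prod_add]
    congr 1
    refine sum_congr rfl fun S _ => ?_
    simp
  have h4 : ∑ T : Finset ι, polyC F T * ∏ i ∈ D, (-polyG T i + 1) = 0 := by
    refine sum_eq_zero fun T _ => ?_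
    by_cases h : D ⊆ T
    · rw [hc T h, zero_mul]
    · obtain ⟨i, hi, hiT⟩ := not_subset.1 h
      rw [prod_eq_zero hi, mul_zero]
      unfold polyG
      rw [if_neg hiT]; norm_num
  rw [h4] at h1
  have h5 : (2 : ℤ) ^ Fintype.card ι ≠ 0 := by positivity
  exact (mul_eq_zero.1 h1).resolve_left h5

private theorem poly_count (F : Finset ι → ℤ) (hF : ∀ S, F S ^ 2 ≤ 1) (d : ℕ)
    (hdN : d ≤ Fintype.card ι) (hd : ∀ D : Finset ι, d < D.card → polyCc F D = 0) :
    (univ.filter fun T : Finset ι => polyC F T ≠ 0).card ≤ 4 ^ d := by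
  have h1 := poly_parseval F
  have h2 : ∑ S : Finset ι, F S ^ 2 ≤ 2 ^ Fintype.card ι := by
    calc ∑ S : Finset ι, F S ^ 2 ≤ ∑ _S : Finset ι, (1 : ℤ) := sum_le_sum fun S _ => hF S
      _ = 2 ^ Fintype.card ι := by simp
  have h3 : ∑ T : Finset ι, polyC F T ^ 2 ≥
      ∑ T ∈ univ.filter (fun T : Finset ι => polyC F T ≠ 0), ((2 : ℤ) ^ (Fintype.card ι - d)) ^ 2 := by
    calc ∑ T ∈ univ.filter (fun T : Finset ι => polyC F T ≠ 0),
          ((2 : ℤ) ^ (Fintype.card ι - d)) ^ 2 ≤
          ∑ T ∈ univ.filter (fun T : Finset ι => polyC F T ≠ 0), polyC F T ^ 2 := by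
          refine sum_le_sum fun T hT => ?_
          have hT' : polyC F T ≠ 0 := (mem_filter.1 hT).2
          have h4 := Int.le_of_dvd (abs_pos.2 hT') ((dvd_abs _ _).2 (poly_dvd F d hd T))
          rw [← sq_abs (polyC F T)]
          exact pow_le_pow_left₀ (by positivity) h4 2
      _ ≤ ∑ T : Finset ι, polyC F T ^ 2 :=
          sum_le_sum_of_subset_of_nonneg (filter_subset _ _) fun T _ _ => sq_nonneg _
  rw [sum_const, nsmul_eq_mul] at h3
  have h5 : ((univ.filter fun T : Finset ι => polyC F T ≠ 0).card : ℤ) *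
      ((2 : ℤ) ^ (Fintype.card ι - d)) ^ 2 ≤ 4 ^ d * ((2 : ℤ) ^ (Fintype.card ι - d)) ^ 2 := by
    calc _ ≤ ∑ T : Finset ι, polyC F T ^ 2 := h3
      _ = 2 ^ Fintype.card ι * ∑ S : Finset ι, F S ^ 2 := h1
      _ ≤ 2 ^ Fintype.card ι * 2 ^ Fintype.card ι := by
          exact mul_le_mul_of_nonneg_left h2 (by positivity)
      _ = 4 ^ d * ((2 : ℤ) ^ (Fintype.card ι - d)) ^ 2 := by
          obtain ⟨e, he⟩ := Nat.exists_eq_add_of_le hdN
          rw [he, Nat.add_sub_cancel_left, pow_add, show (4 : ℤ) = 2 * 2 by norm_num, mul_pow]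
          ring
  have h6 := le_of_mul_le_mul_right h5 (by positivity)
  exact_mod_cast h6

/-- For `f : (ι → Bool) → ℤ` of degree at most `d` (all the derivatives in more than `d` directions
vanish): the `2 ^ d`-multiples of the Fourier coefficients are integers, so by Parseval at most
`4 ^ d` of them are nonzero, and each nonzero coefficient of a monomial has a nonzero Fourier
coefficient above it. -/
theorem card_co_le (h : (ι → Bool) → Bool) (d : ℕ) (hd : ∀ D : Finset ι, d < D.card → co h D = 0) :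
    (Finset.univ.filter (fun D : Finset ι => co h D ≠ 0)).card ≤ 10 ^ d := by
  classical
  by_cases hN : Fintype.card ι < d
  · calc (Finset.univ.filter (fun D : Finset ι => co h D ≠ 0)).card ≤
        (Finset.univ : Finset (Finset ι)).card := card_filter_le _ _
      _ = 2 ^ Fintype.card ι := by simp
      _ ≤ 2 ^ d := Nat.pow_le_pow_right (by norm_num) hN.le
      _ ≤ 10 ^ d := Nat.pow_le_pow_left (by norm_num) d
  · push Not at hN
    obtain ⟨F, hFdef⟩ : ∃ F : Finset ι → ℤ,
        F = fun S => if h (mix (fun _ => false) (fun _ => true) S) then 1 else 0 := ⟨_, rfl⟩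
    have hF : ∀ S, F S ^ 2 ≤ 1 := by
      intro S
      rw [hFdef]
      show (if h (mix (fun _ => false) (fun _ => true) S) then (1 : ℤ) else 0) ^ 2 ≤ 1
      split_ifs <;> norm_num
    have hco : ∀ D, co h D = polyCc F D := by
      intro D
      rw [hFdef]
      rfl
    have hd' : ∀ D : Finset ι, d < D.card → polyCc F D = 0 := fun D hD => by
      rw [← hco]; exact hd D hD
    have h1 := poly_count F hF d hN hd'
    have h2 : (Finset.univ.filter (fun D : Finset ι => co h D ≠ 0)) ⊆
        (univ.filter fun T : Finset ι => polyC F T ≠ 0).biUnion fun T => T.powerset := by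
      intro D hD
      rw [mem_filter, hco] at hD
      obtain ⟨T, hDT, hT⟩ := poly_co F D hD.2
      exact mem_biUnion.2 ⟨T, mem_filter.2 ⟨mem_univ _, hT⟩, mem_powerset.2 hDT⟩
    calc (Finset.univ.filter (fun D : Finset ι => co h D ≠ 0)).card ≤ _ := card_le_card h2
      _ ≤ (univ.filter fun T : Finset ι => polyC F T ≠ 0).card * 2 ^ d := by
          refine card_biUnion_le_card_mul _ _ _ fun T hT => ?_
          rw [card_powerset]
          refine Nat.pow_le_pow_right (by norm_num) ?_
          by_contra hc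
          push Not at hc
          exact (mem_filter.1 hT).2 (poly_zero F d hd' T hc)
      _ ≤ 4 ^ d * 2 ^ d := Nat.mul_le_mul_right _ h1
      _ = 8 ^ d := by rw [← mul_pow]; norm_num
      _ ≤ 10 ^ d := Nat.pow_le_pow_left (by norm_num) d

end Pool.Agent.H.MP_027d00_lc.AdvC
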