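import Pool.Agent.H.MP_027d00_lc.adv.Defs

/-!
# Adversary weights of a formula
-/

set_option autoImplicit false

namespace Pool.Agent.H.MP_027d00_lc.AdvC

open UComp

/-- the Boolean function `p` has weights of total mass at most `√q` -/
private def WeightsB {V : Type} [Fintype V] [DecidableEq V] (p : (V → Bool) → Bool) (q : ℕ) :
    Prop :=
  ∃ w : (V → Bool) → V → ℝ, (∀ X v, 0 ≤ w X v) ∧ (∀ X, ∑ v, w X v ≤ Real.sqrt q) ∧
    ∀ X Y, p X ≠ p Y → 1 ≤ ∑ v, if X v ≠ Y v then Real.sqrt (w X v * w Y v) else 0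

private theorem Weights_not {V : Type} [Fintype V] [DecidableEq V] {p : (V → Bool) → Bool} {q : ℕ}
    (h : WeightsB p q) : WeightsB (fun X => !p X) q := by
  obtain ⟨w, h1, h2, h3⟩ := h
  refine ⟨w, h1, h2, fun X Y hXY => h3 X Y fun he => hXY ?_⟩
  simp only [he]

private theorem Weights_const {V : Type} : ∀ F : Fm V, F.size = 0 → ∀ X Y, F.eval X = F.eval Y
  | .const b, _, X, Y => rfl
  | .lit v b, h, X, Y => absurd h one_ne_zero
  | .and F G, h, X, Y => by
    have h' : F.size + G.size = 0 := h
    have h1 := Weights_const F (by omega) X Y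
    have h2 := Weights_const G (by omega) X Y
    change (F.eval X && G.eval X) = (F.eval Y && G.eval Y)
    rw [h1, h2]
  | .or F G, h, X, Y => by
    have h' : F.size + G.size = 0 := h
    have h1 := Weights_const F (by omega) X Y
    have h2 := Weights_const G (by omega) X Y
    change (F.eval X || G.eval X) = (F.eval Y || G.eval Y)
    rw [h1, h2]

/-- comparison of two sums -/
private theorem Weights_le {V : Type} [Fintype V] {X Y : V → Bool} {a b c d : V → ℝ}
    (h : ∀ v, a v * b v ≤ c v * d v)
    (h1 : 1 ≤ ∑ v, if X v ≠ Y v then Real.sqrt (a v * b v) else 0) :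
    1 ≤ ∑ v, if X v ≠ Y v then Real.sqrt (c v * d v) else 0 := by
  refine h1.trans (Finset.sum_le_sum fun v _ => ?_)
  split_ifs
  · exact Real.sqrt_le_sqrt (h v)
  · exact le_rfl

private theorem Weights_symm {V : Type} [Fintype V] {w : (V → Bool) → V → ℝ} {X Y : V → Bool}
    (h1 : 1 ≤ ∑ v, if X v ≠ Y v then Real.sqrt (w X v * w Y v) else 0) :
    1 ≤ ∑ v, if Y v ≠ X v then Real.sqrt (w Y v * w X v) else 0 := by
  refine h1.trans (Finset.sum_le_sum fun v _ => ?_)
  by_cases h : X v = Y v
  · rw [if_neg (not_not.2 h), if_neg (not_not.2 h.symm)]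
  · rw [if_pos h, if_pos (Ne.symm h), mul_comm]

private theorem Weights_and {V : Type} [Fintype V] [DecidableEq V] {p₁ p₂ : (V → Bool) → Bool}
    {q₁ q₂ : ℕ} (hq₁ : 0 < q₁) (hq₂ : 0 < q₂) (h₁ : WeightsB p₁ q₁) (h₂ : WeightsB p₂ q₂) :
    WeightsB (fun X => p₁ X && p₂ X) (q₁ + q₂) := by
  obtain ⟨w₁, a₁, b₁, c₁⟩ := h₁
  obtain ⟨w₂, a₂, b₂, c₂⟩ := h₂
  have hs1 : 0 < Real.sqrt q₁ := Real.sqrt_pos.2 (Nat.cast_pos.2 hq₁)
  have hs2 : 0 < Real.sqrt q₂ := Real.sqrt_pos.2 (Nat.cast_pos.2 hq₂)
  have hs : 0 < Real.sqrt ((q₁ + q₂ : ℕ) : ℝ) := Real.sqrt_pos.2 (by exact_mod_cast by omega)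
  have e1 : Real.sqrt q₁ ^ 2 = q₁ := Real.sq_sqrt (Nat.cast_nonneg _)
  have e2 : Real.sqrt q₂ ^ 2 = q₂ := Real.sq_sqrt (Nat.cast_nonneg _)
  have e : Real.sqrt ((q₁ + q₂ : ℕ) : ℝ) ^ 2 = q₁ + q₂ := by
    rw [Real.sq_sqrt (Nat.cast_nonneg _), Nat.cast_add]
  set s₁ : ℝ := Real.sqrt q₁
  set s₂ : ℝ := Real.sqrt q₂
  set s : ℝ := Real.sqrt ((q₁ + q₂ : ℕ) : ℝ)
  have key : ∀ X Y, (p₁ X && p₂ X) = true → (p₁ Y && p₂ Y) = false →
      1 ≤ ∑ v, if X v ≠ Y v then Real.sqrt
        ((if p₁ X && p₂ X then s₁ / s * w₁ X v + s₂ / s * w₂ X v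
          else if p₁ X then s / s₂ * w₂ X v else s / s₁ * w₁ X v) *
        (if p₁ Y && p₂ Y then s₁ / s * w₁ Y v + s₂ / s * w₂ Y v
          else if p₁ Y then s / s₂ * w₂ Y v else s / s₁ * w₁ Y v)) else 0 := by
    intro X Y hX hY
    have hX1 : p₁ X = true := (Bool.and_eq_true_iff.1 hX).1
    have hX2 : p₂ X = true := (Bool.and_eq_true_iff.1 hX).2
    by_cases hY1 : p₁ Y = true
    · have hY2 : p₂ Y = false := by
        rw [hY1, Bool.true_and] at hY
        exact hY
      refine Weights_le (a := w₂ X) (b := w₂ Y) (fun v => ?_) (c₂ X Y (by rw [hX2, hY2]; decide))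
      rw [if_pos hX, if_neg (by rw [hY]; decide), if_pos hY1]
      have h3 : s₂ / s * w₂ X v * (s / s₂ * w₂ Y v) = w₂ X v * w₂ Y v := by
        field_simp
      rw [add_mul, h3]
      have h4 : 0 ≤ s₁ / s * w₁ X v * (s / s₂ * w₂ Y v) :=
        mul_nonneg (mul_nonneg (by positivity) (a₁ X v)) (mul_nonneg (by positivity) (a₂ Y v))
      linarith
    · refine Weights_le (a := w₁ X) (b := w₁ Y) (fun v => ?_) (c₁ X Y (by rw [hX1]; exact Ne.symm hY1))
      rw [if_pos hX, if_neg (by rw [hY]; decide), if_neg hY1]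
      have h3 : s₁ / s * w₁ X v * (s / s₁ * w₁ Y v) = w₁ X v * w₁ Y v := by
        field_simp
      rw [add_mul, h3]
      have h4 : 0 ≤ s₂ / s * w₂ X v * (s / s₁ * w₁ Y v) :=
        mul_nonneg (mul_nonneg (by positivity) (a₂ X v)) (mul_nonneg (by positivity) (a₁ Y v))
      linarith
  refine ⟨fun X v => if p₁ X && p₂ X then s₁ / s * w₁ X v + s₂ / s * w₂ X v
    else if p₁ X then s / s₂ * w₂ X v else s / s₁ * w₁ X v, fun X v => ?_, fun X => ?_,
    fun X Y hXY => ?_⟩
  · have h3 := a₁ X v
    have h4 := a₂ X v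
    beta_reduce
    split_ifs <;> positivity
  · by_cases h3 : (p₁ X && p₂ X) = true
    · simp only [h3, if_true]
      rw [Finset.sum_add_distrib, ← Finset.mul_sum, ← Finset.mul_sum]
      calc s₁ / s * ∑ v, w₁ X v + s₂ / s * ∑ v, w₂ X v ≤ s₁ / s * s₁ + s₂ / s * s₂ := by
            have h5 := mul_le_mul_of_nonneg_left (b₁ X) (by positivity : 0 ≤ s₁ / s)
            have h6 := mul_le_mul_of_nonneg_left (b₂ X) (by positivity : 0 ≤ s₂ / s)
            linarith
        _ = s := by
            field_simp
            rw [e, ← e1, ← e2]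
    · by_cases h4 : p₁ X = true
      · simp only [if_neg h3, if_pos h4]
        rw [← Finset.mul_sum]
        calc s / s₂ * ∑ v, w₂ X v ≤ s / s₂ * s₂ :=
              mul_le_mul_of_nonneg_left (b₂ X) (by positivity)
          _ = s := by field_simp
      · simp only [if_neg h3, if_neg h4]
        rw [← Finset.mul_sum]
        calc s / s₁ * ∑ v, w₁ X v ≤ s / s₁ * s₁ :=
              mul_le_mul_of_nonneg_left (b₁ X) (by positivity)
          _ = s := by field_simp
  · by_cases h3 : (p₁ X && p₂ X) = true
    · have h4 : (p₁ Y && p₂ Y) = false := by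
        rw [← Bool.not_eq_true]
        exact fun hc => hXY (h3.trans hc.symm)
      exact key X Y h3 h4
    · have h4 : (p₁ Y && p₂ Y) = true := by
        by_contra hc
        rw [Bool.not_eq_true] at h3 hc
        exact hXY (h3.trans hc.symm)
      rw [Bool.not_eq_true] at h3
      exact Weights_symm (w := fun X v => if p₁ X && p₂ X then s₁ / s * w₁ X v + s₂ / s * w₂ X v
        else if p₁ X then s / s₂ * w₂ X v else s / s₁ * w₁ X v) (key Y X h4 h3)

private theorem Weights_all {V : Type} [Fintype V] [DecidableEq V] :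
    ∀ F : Fm V, WeightsB (fun X => F.eval X) F.size
  | .const b => by
    refine ⟨fun _ _ => 0, fun _ _ => le_rfl, fun X => ?_, fun X Y h => absurd rfl h⟩
    simp
  | .lit v b => by
    refine ⟨fun _ u => if u = v then 1 else 0, fun _ u => ?_, fun X => ?_, fun X Y h => ?_⟩
    · beta_reduce
      split_ifs <;> norm_num
    · rw [Finset.sum_ite_eq' Finset.univ v]
      simp [Fm.size]
    · have h1 : X v ≠ Y v := by
        intro hc
        apply h
        change (X v == b) = (Y v == b)
        rw [hc]
      have h2 : (1 : ℝ) = if X v ≠ Y v then Real.sqrt ((if v = v then 1 else 0) *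
          (if v = v then 1 else 0)) else 0 := by
        rw [if_pos h1, if_pos rfl, mul_one, Real.sqrt_one]
      refine h2.le.trans (Finset.single_le_sum (f := fun u => if X u ≠ Y u then
        Real.sqrt ((if u = v then (1 : ℝ) else 0) * (if u = v then 1 else 0)) else 0)
        (fun u _ => ?_) (Finset.mem_univ v))
      split_ifs <;> positivity
  | .and F G => by
    have hF := Weights_all F
    have hG := Weights_all G
    rcases Nat.eq_zero_or_pos F.size with h1 | h1
    · obtain ⟨w, a, b, c⟩ := hG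
      refine ⟨w, a, fun X => ?_, fun X Y h => c X Y fun hc => h ?_⟩
      · have e : (Fm.and F G).size = G.size := by
          change F.size + G.size = G.size
          omega
        rw [e]
        exact b X
      · change (F.eval X && G.eval X) = (F.eval Y && G.eval Y)
        have hc' : G.eval X = G.eval Y := hc
        rw [hc', Weights_const F h1 X Y]
    · rcases Nat.eq_zero_or_pos G.size with h2 | h2
      · obtain ⟨w, a, b, c⟩ := hF
        refine ⟨w, a, fun X => ?_, fun X Y h => c X Y fun hc => h ?_⟩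
        · have e : (Fm.and F G).size = F.size := by
            change F.size + G.size = F.size
            omega
          rw [e]
          exact b X
        · change (F.eval X && G.eval X) = (F.eval Y && G.eval Y)
          have hc' : F.eval X = F.eval Y := hc
          rw [hc', Weights_const G h2 X Y]
      · exact Weights_and h1 h2 hF hG
  | .or F G => by
    have hF := Weights_all F
    have hG := Weights_all G
    rcases Nat.eq_zero_or_pos F.size with h1 | h1
    · obtain ⟨w, a, b, c⟩ := hG
      refine ⟨w, a, fun X => ?_, fun X Y h => c X Y fun hc => h ?_⟩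
      · have e : (Fm.or F G).size = G.size := by
          change F.size + G.size = G.size
          omega
        rw [e]
        exact b X
      · change (F.eval X || G.eval X) = (F.eval Y || G.eval Y)
        have hc' : G.eval X = G.eval Y := hc
        rw [hc', Weights_const F h1 X Y]
    · rcases Nat.eq_zero_or_pos G.size with h2 | h2
      · obtain ⟨w, a, b, c⟩ := hF
        refine ⟨w, a, fun X => ?_, fun X Y h => c X Y fun hc => h ?_⟩
        · have e : (Fm.or F G).size = F.size := by
            change F.size + G.size = F.size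
            omega
          rw [e]
          exact b X
        · change (F.eval X || G.eval X) = (F.eval Y || G.eval Y)
          have hc' : F.eval X = F.eval Y := hc
          rw [hc', Weights_const G h2 X Y]
      · have h3 := Weights_not (Weights_and h1 h2 (Weights_not hF) (Weights_not hG))
        obtain ⟨w, a, b, c⟩ := h3
        refine ⟨w, a, b, fun X Y h => c X Y fun hc => h ?_⟩
        change (F.eval X || G.eval X) = (F.eval Y || G.eval Y)
        have hc' : (!(!F.eval X && !G.eval X)) = (!(!F.eval Y && !G.eval Y)) := hc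
        rw [Bool.not_and, Bool.not_and, Bool.not_not, Bool.not_not, Bool.not_not,
          Bool.not_not] at hc'
        exact hc'

theorem exists_weights {V : Type} [Fintype V] [DecidableEq V] (F : Fm V) :
    ∃ w : (V → Bool) → V → ℝ, (∀ X v, 0 ≤ w X v) ∧ (∀ X, ∑ v, w X v ≤ Real.sqrt F.size) ∧
      ∀ X Y, F.eval X ≠ F.eval Y →
        1 ≤ ∑ v, if X v ≠ Y v then Real.sqrt (w X v * w Y v) else 0 :=
  Weights_all F

end Pool.Agent.H.MP_027d00_lc.AdvC
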