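import Pool.Agent.H.MP_027d00_lc.adv.Count
import Pool.Agent.H.MP_027d00_lc.adv.XorF
import Pool.Agent.H.MP_027d00_lc.adv.Weights

/-!
# Small formulas become trivial under the random projection
-/

set_option autoImplicit false

namespace Pool.Agent.H.MP_027d00_lc.AdvC

open UComp

variable {ι κ : Type} [Fintype ι] [DecidableEq ι] [Fintype κ] [DecidableEq κ]

/-- The projection of `ψ` to the cube spanned by `U` and `V`. -/
def proj (ψ : (ι → κ → Bool) → Bool) (U V : ι → κ → Bool) : (ι → Bool) → Bool :=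
  fun z => ψ (mix U V (Finset.univ.filter (fun j => z j = true)))

theorem co_proj (ψ : (ι → κ → Bool) → Bool) (U V : ι → κ → Bool) (D : Finset ι) :
    co (proj ψ U V) D = cfD ψ U V D := by
  unfold co cfD proj
  refine Finset.sum_congr rfl fun T _ => ?_
  have h : (Finset.univ.filter fun j =>
      mix (fun _ : ι => false) (fun _ : ι => true) T j = true) = T := by
    ext j
    simp [mix]
  rw [h]

/-- The expected formula size of the projection. -/
noncomputable def ex (Γ : ι → (κ → Bool) → (κ → Bool) → ℝ) (e : ι → (κ → Bool) → ℝ) (lam : ℝ)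
    (ψ : (ι × κ → Bool) → Bool) : ℝ :=
  ∑ U, ∑ V, prb Γ e lam U V * (fsize (proj (fun X => ψ (fun v => X v.1 v.2)) U V) : ℝ)

private theorem small_fsize (ψ : (ι → κ → Bool) → Bool) (U V : ι → κ → Bool) :
    (fsize (proj ψ U V) : ℝ) ≤ ∑ b ∈ Finset.range (Fintype.card ι), 4 * 200 ^ (b + 1) *
      ((Finset.univ.filter
        (fun D : Finset ι => D.card = b + 1 ∧ cfD ψ U V D ≠ 0)).card : ℝ) := by
  classical
  have hnn : ∀ b ∈ Finset.range (Fintype.card ι), (0 : ℝ) ≤ 4 * 200 ^ (b + 1) *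
      ((Finset.univ.filter
        (fun D : Finset ι => D.card = b + 1 ∧ cfD ψ U V D ≠ 0)).card : ℝ) := fun b _ => by
    positivity
  by_cases h : ∀ D : Finset ι, 0 < D.card → co (proj ψ U V) D = 0
  · have h1 := fsize_le_deg (proj ψ U V) 0 h
    rw [if_pos rfl, mul_zero, Nat.le_zero] at h1
    rw [h1, Nat.cast_zero]
    exact Finset.sum_nonneg hnn
  · push Not at h
    obtain ⟨D₀, hD₀, hc₀⟩ := h
    obtain ⟨D, hD, hmax⟩ := Finset.exists_max_image
      (Finset.univ.filter fun D : Finset ι => co (proj ψ U V) D ≠ 0) (fun D => D.card)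
      ⟨D₀, Finset.mem_filter.2 ⟨Finset.mem_univ _, hc₀⟩⟩
    rw [Finset.mem_filter] at hD
    have hpos : 0 < D.card :=
      hD₀.trans_le (hmax D₀ (Finset.mem_filter.2 ⟨Finset.mem_univ _, hc₀⟩))
    obtain ⟨d, hd⟩ : ∃ d, D.card = d + 1 := ⟨D.card - 1, by omega⟩
    have h1 := fsize_le_deg (proj ψ U V) (d + 1) (fun D' hD' => by
      by_contra hc
      have := hmax D' (Finset.mem_filter.2 ⟨Finset.mem_univ _, hc⟩)
      omega)
    rw [if_neg (Nat.succ_ne_zero d), mul_one] at h1
    have hdr : d ∈ Finset.range (Fintype.card ι) := by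
      rw [Finset.mem_range]
      have := Finset.card_le_univ D
      omega
    refine le_trans ?_ (Finset.single_le_sum hnn hdr)
    have h2 : (1 : ℝ) ≤ ((Finset.univ.filter
        (fun D : Finset ι => D.card = d + 1 ∧ cfD ψ U V D ≠ 0)).card : ℝ) := by
      have h3 : 0 < (Finset.univ.filter
        (fun D : Finset ι => D.card = d + 1 ∧ cfD ψ U V D ≠ 0)).card := by
        refine Finset.card_pos.2 ⟨D, Finset.mem_filter.2 ⟨Finset.mem_univ _, hd, ?_⟩⟩
        rw [← co_proj]
        exact hD.2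
      exact_mod_cast h3
    have h4 : (fsize (proj ψ U V) : ℝ) ≤ 4 * 200 ^ (d + 1) := by exact_mod_cast h1
    calc (fsize (proj ψ U V) : ℝ) ≤ 4 * 200 ^ (d + 1) * 1 := by rw [mul_one]; exact h4
      _ ≤ _ := mul_le_mul_of_nonneg_left h2 (by positivity)

private theorem small_geom (N : ℕ) {r : ℝ} (h0 : 0 ≤ r) (h1 : r ≤ 1 / 9) :
    ∑ b ∈ Finset.range N, 4 * r ^ (b + 1) ≤ 1 / 2 := by
  have h2 : ∑ b ∈ Finset.range N, 4 * r ^ (b + 1) ≤
      ∑ b ∈ Finset.range N, 4 * (1 / 9 : ℝ) ^ (b + 1) :=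
    Finset.sum_le_sum fun b _ =>
      mul_le_mul_of_nonneg_left (pow_le_pow_left₀ h0 h1 _) (by norm_num)
  have h3 : ∀ N : ℕ, ∑ b ∈ Finset.range N, 4 * (1 / 9 : ℝ) ^ (b + 1) =
      1 / 2 * (1 - (1 / 9) ^ N) := by
    intro N
    induction N with
    | zero => simp
    | succ N ih =>
      rw [Finset.sum_range_succ, ih, pow_succ]
      ring
  refine h2.trans ?_
  rw [h3]
  have h4 : (0 : ℝ) ≤ (1 / 9) ^ N := by positivity
  linarith

theorem ex_small {Γ : ι → (κ → Bool) → (κ → Bool) → ℝ} {e : ι → (κ → Bool) → ℝ} {lam : ℝ}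
    (h : IsAdv Γ e lam) (F : Fm (ι × κ)) (hF : 28800 * Real.sqrt F.size ≤ lam) :
    ex Γ e lam (fun X => F.eval X) ≤ 1 / 2 := by
  classical
  obtain ⟨w, hw0, hwA, hwt⟩ := exists_weights F
  have hlam := h.lam_pos
  have hA0 : 0 ≤ Real.sqrt F.size := Real.sqrt_nonneg _
  have hW : IsWt (fun X : ι → κ → Bool => F.eval fun v => X v.1 v.2)
      (fun U v => w (fun p => U p.1 p.2) v) := by
    intro U V hUV
    exact hwt (fun p => U p.1 p.2) (fun p => V p.1 p.2) hUV
  have hcount := fun b : ℕ => count_le (ψ := fun X : ι → κ → Bool => F.eval fun v => X v.1 v.2)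
    (w := fun U v => w (fun p => U p.1 p.2) v) h (fun U v => hw0 _ v) hW hA0
    (fun U => hwA _) b
  unfold ex
  calc ∑ U, ∑ V, prb Γ e lam U V *
        (fsize (proj (fun X : ι → κ → Bool => F.eval fun v => X v.1 v.2) U V) : ℝ)
      ≤ ∑ U, ∑ V, prb Γ e lam U V *
        ∑ b ∈ Finset.range (Fintype.card ι), 4 * 200 ^ (b + 1) *
          ((Finset.univ.filter (fun D : Finset ι => D.card = b + 1 ∧
            cfD (fun X : ι → κ → Bool => F.eval fun v => X v.1 v.2) U V D ≠ 0)).card : ℝ) := by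
        refine Finset.sum_le_sum fun U _ => Finset.sum_le_sum fun V _ => ?_
        exact mul_le_mul_of_nonneg_left (small_fsize _ U V) (prb_nonneg h U V)
    _ = ∑ b ∈ Finset.range (Fintype.card ι), 4 * 200 ^ (b + 1) * ∑ U, ∑ V, prb Γ e lam U V *
          ((Finset.univ.filter (fun D : Finset ι => D.card = b + 1 ∧
            cfD (fun X : ι → κ → Bool => F.eval fun v => X v.1 v.2) U V D ≠ 0)).card : ℝ) := by
        simp only [Finset.mul_sum]
        rw [Finset.sum_comm]
        conv_rhs => rw [Finset.sum_comm]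
        rw [Finset.sum_comm]
        refine Finset.sum_congr rfl fun U _ => ?_
        rw [Finset.sum_comm]
        refine Finset.sum_congr rfl fun b _ => Finset.sum_congr rfl fun V _ => ?_
        ring
    _ ≤ ∑ b ∈ Finset.range (Fintype.card ι), 4 * 200 ^ (b + 1) *
          (16 * Real.sqrt F.size / lam) ^ (b + 1) :=
        Finset.sum_le_sum fun b _ => mul_le_mul_of_nonneg_left (hcount (b + 1)) (by positivity)
    _ = ∑ b ∈ Finset.range (Fintype.card ι), 4 * (3200 * Real.sqrt F.size / lam) ^ (b + 1) := by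
        refine Finset.sum_congr rfl fun b _ => ?_
        rw [mul_assoc, ← mul_pow]
        congr 2
        ring
    _ ≤ 1 / 2 := by
        refine small_geom _ (by positivity) ?_
        rw [div_le_iff₀ hlam]
        linarith

end Pool.Agent.H.MP_027d00_lc.AdvC
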